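import Pool.Agent.H589R2.OV.Pow

/-!
# Closed sets of sign tables and their minimal cylinders
-/

open Finset

namespace Pool.Agent.H589R2.MNL

open Pool.Agent.H589R2.OV

section Indep

variable {ι Y : Type*} [Fintype ι] [DecidableEq ι] [Fintype Y]

/-- Exchange of two copies outside `I`. -/
def swp (I : Finset ι) (z : (ι → Y) × (ι → Y)) : (ι → Y) × (ι → Y) :=
  (fun i => if i ∈ I then z.1 i else z.2 i, fun i => if i ∈ I then z.2 i else z.1 i)

theorem swp_inv (I : Finset ι) : Function.Involutive (swp (Y := Y) I) := by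
  rintro ⟨x, y⟩
  unfold swp
  ext i
  · by_cases h : i ∈ I <;> simp [h]
  · by_cases h : i ∈ I <;> simp [h]

theorem pr_indep {w : Y → ℝ} (h1 : ∑ y, w y = 1) (I : Finset ι) (A B : (ι → Y) → Prop)
    (hA : ∀ x y : ι → Y, (∀ i ∈ I, x i = y i) → (A x ↔ A y))
    (hB : ∀ x y : ι → Y, (∀ i, i ∉ I → x i = y i) → (B x ↔ B y)) :
    pr (piW w) (fun x => A x ∧ B x) = pr (piW w) A * pr (piW w) B := by
  classical
  have e1 : pr (piW w) A * pr (piW w) B
      = ∑ z : (ι → Y) × (ι → Y), (piW w z.1 * piW w z.2) *
        (if A z.1 ∧ B z.2 then (1 : ℝ) else 0) := by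
    unfold pr
    rw [Finset.sum_mul_sum, Fintype.sum_prod_type]
    refine Finset.sum_congr rfl (fun x _ => Finset.sum_congr rfl (fun y _ => ?_))
    by_cases ha : A x <;> by_cases hb : B y <;> simp [ha, hb]
  have e2 : pr (piW w) (fun x => A x ∧ B x)
      = ∑ z : (ι → Y) × (ι → Y), (piW w z.1 * piW w z.2) *
        (if A z.1 ∧ B z.1 then (1 : ℝ) else 0) := by
    rw [Fintype.sum_prod_type]
    unfold pr
    refine Finset.sum_congr rfl (fun x _ => ?_)
    have : ∀ y : ι → Y, (piW w x * piW w y) * (if A x ∧ B x then (1 : ℝ) else 0)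
        = (piW w x * (if A x ∧ B x then (1 : ℝ) else 0)) * piW w y := fun y => by ring
    simp only [this]
    rw [← Finset.mul_sum, sum_piW h1, mul_one]
    by_cases hab : A x ∧ B x <;> simp [hab]
  rw [e1, e2, ← Equiv.sum_comp (Function.Involutive.toPerm _ (swp_inv (Y := Y) I))]
  refine Finset.sum_congr rfl (fun z _ => ?_)
  have e3 : (Function.Involutive.toPerm _ (swp_inv (Y := Y) I)) z = swp I z := rfl
  rw [e3]
  have e4 : piW w (swp I z).1 * piW w (swp I z).2 = piW w z.1 * piW w z.2 := by
    unfold piW swp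
    rw [← Finset.prod_mul_distrib, ← Finset.prod_mul_distrib]
    refine Finset.prod_congr rfl (fun i _ => ?_)
    by_cases h : i ∈ I
    · simp [h]
    · simp only [h, if_false]; ring
  have e5 : A (swp I z).1 ↔ A z.1 := hA _ _ (fun i hi => by simp [swp, hi])
  have e6 : B (swp I z).1 ↔ B z.2 := hB _ _ (fun i hi => by simp [swp, hi])
  rw [e4]
  simp only [e5, e6]

end Indep

variable {V : Type} [Fintype V] [DecidableEq V] {m : ℕ}

/-- Sign tables. -/
abbrev Tab (V : Type) (m : ℕ) := V × Fin m → Bool

/-- The uniform measure of a set of sign tables. -/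
noncomputable def mea (E : Tab V m → Prop) : ℝ := pr (piW (bw (1 / 2))) E

theorem hw0 (S : Tab V m) : 0 ≤ piW (bw (1 / 2)) S :=
  piW_nonneg (bw_nonneg (by norm_num) (by norm_num)) S

theorem mea_mono {E F : Tab V m → Prop} (h : ∀ S, E S → F S) : mea E ≤ mea F := pr_mono hw0 h

theorem mea_or (E F : Tab V m → Prop) : mea (fun S => E S ∨ F S) ≤ mea E + mea F := pr_or hw0 E F

theorem mea_nonneg (E : Tab V m → Prop) : 0 ≤ mea E := pr_nonneg hw0 E

/-- The table `S` shows the pattern `c` along `l` on `F`. -/
def cyl (F : Finset V) (l : V → Fin m) (c : V → Bool) (S : Tab V m) : Prop :=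
  ∀ v ∈ F, S (v, l v) = c v

theorem mea_cyl (F : Finset V) (l : V → Fin m) (c : V → Bool) :
    mea (cyl F l c) = (1 / 2) ^ F.card := by
  classical
  have h := pr_pi (ι := V × Fin m) (bw (1 / 2))
    (fun z b => z.1 ∈ F ∧ z.2 = l z.1 → b = c z.1)
  have e : mea (cyl F l c) = pr (piW (bw (1 / 2))) (fun S : Tab V m =>
      ∀ z, z.1 ∈ F ∧ z.2 = l z.1 → S z = c z.1) := by
    refine pr_congr (fun S => ⟨?_, ?_⟩)
    · rintro hS ⟨v, a⟩ ⟨h1, h2⟩
      simp only at h1 h2
      subst h2
      exact hS v h1
    · intro hS v hv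
      exact hS (v, l v) ⟨hv, rfl⟩
  rw [e, h]
  have hz : ∀ z : V × Fin m, pr (bw (1 / 2)) (fun b => z.1 ∈ F ∧ z.2 = l z.1 → b = c z.1)
      = if z ∈ F.image (fun v => (v, l v)) then 1 / 2 else 1 := by
    rintro ⟨v, a⟩
    by_cases hin : v ∈ F ∧ a = l v
    · rw [if_pos]
      · unfold pr
        rw [Fintype.sum_bool]
        simp only [hin, and_self, true_implies]
        cases c v <;> norm_num [bw]
      · rw [Finset.mem_image]
        exact ⟨v, hin.1, by rw [hin.2]⟩
    · rw [if_neg]
      · unfold pr
        rw [Fintype.sum_bool]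
        simp only [hin, false_implies, if_true]
        norm_num [bw]
      · intro hc
        obtain ⟨u, hu, hu2⟩ := Finset.mem_image.1 hc
        simp only [Prod.mk.injEq] at hu2
        apply hin
        rw [← hu2.1, ← hu2.2]
        exact ⟨hu, rfl⟩
  simp only [hz]
  rw [Finset.prod_ite_mem, Finset.univ_inter, Finset.prod_const, Finset.card_image_of_injective]
  intro u v huv
  exact (Prod.mk.inj huv).1

theorem half_pow_le (k : ℕ) : (1 / 2 : ℝ) ^ k ≤ 1 := pow_le_one₀ (by norm_num) (by norm_num)

theorem petals (J : Finset V) (c : V → Bool) (D : Finset (V → Fin m))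
    (hD : ∀ l ∈ D, ∀ l' ∈ D, l ≠ l' → ∀ u ∈ J, l u ≠ l' u) :
    mea (fun S : Tab V m => ∀ l ∈ D, ¬ cyl J l c S) ≤ (1 - (1 / 2) ^ J.card) ^ D.card := by
  classical
  induction D using Finset.induction_on with
  | empty =>
    rw [Finset.card_empty, pow_zero]
    exact pr_le_one hw0 (sum_piW (bw_sum _)) _
  | insert l D hl ih =>
    have hA := pr_indep (ι := V × Fin m) (bw_sum (1 / 2)) (J.image (fun u => (u, l u)))
      (fun S => ¬ cyl J l c S) (fun S => ∀ l' ∈ D, ¬ cyl J l' c S) (by
        intro x y hxy
        have : cyl J l c x ↔ cyl J l c y := by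
          constructor
          · intro h v hv
            rw [← hxy (v, l v) (Finset.mem_image_of_mem _ hv)]; exact h v hv
          · intro h v hv
            rw [hxy (v, l v) (Finset.mem_image_of_mem _ hv)]; exact h v hv
        rw [this]) (by
        intro x y hxy
        have : ∀ l' ∈ D, (cyl J l' c x ↔ cyl J l' c y) := by
          intro l' hl'
          have hne : l ≠ l' := fun h => hl (h ▸ hl')
          have hag : ∀ v ∈ J, x (v, l' v) = y (v, l' v) := by
            intro v hv
            apply hxy
            intro hc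
            obtain ⟨u, hu, hu2⟩ := Finset.mem_image.1 hc
            simp only [Prod.mk.injEq] at hu2
            obtain ⟨rfl, h2⟩ := hu2
            exact hD l (Finset.mem_insert_self _ _) l' (Finset.mem_insert_of_mem hl') hne u hv h2
          constructor
          · intro h v hv
            rw [← hag v hv]; exact h v hv
          · intro h v hv
            rw [hag v hv]; exact h v hv
        constructor
        · intro h l' hl' hc
          exact h l' hl' ((this l' hl').2 hc)
        · intro h l' hl' hc
          exact h l' hl' ((this l' hl').1 hc))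
    have e : mea (fun S : Tab V m => ∀ l' ∈ insert l D, ¬ cyl J l' c S)
        = pr (piW (bw (1 / 2))) (fun S : Tab V m => ¬ cyl J l c S ∧ ∀ l' ∈ D, ¬ cyl J l' c S) := by
      refine pr_congr (fun S => ?_)
      rw [Finset.forall_mem_insert]
    rw [e, hA, Finset.card_insert_of_notMem hl, pow_succ, mul_comm]
    have h1 : pr (piW (bw (1 / 2))) (fun S : Tab V m => ¬ cyl J l c S) = 1 - (1 / 2) ^ J.card := by
      rw [pr_compl (sum_piW (bw_sum _)), ← mea_cyl J l c]
      rfl
    rw [h1]
    refine mul_le_mul_of_nonneg_right (ih ?_) ?_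
    · intro l1 hl1 l2 hl2
      exact hD l1 (Finset.mem_insert_of_mem hl1) l2 (Finset.mem_insert_of_mem hl2)
    · have := half_pow_le J.card
      linarith

/-- `A` contains every cylinder that is almost contained in it. -/
def Closed (ε : ℝ) (A : Tab V m → Prop) : Prop :=
  ∀ F l c, mea (fun S => cyl F l c S ∧ ¬ A S) ≤ ε → ∀ S, cyl F l c S → A S

/-- Minimal cylinders in `A`. -/
def Mini (A : Tab V m → Prop) (F : Finset V) (l : V → Fin m) (c : V → Bool) : Prop :=
  (∀ S, cyl F l c S → A S) ∧ ∀ F', F' ⊂ F → ¬ ∀ S, cyl F' l c S → A S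

theorem cyl_congr {F : Finset V} {l l' : V → Fin m} {c c' : V → Bool} (hl : ∀ v ∈ F, l v = l' v)
    (hc : ∀ v ∈ F, c v = c' v) (S : Tab V m) : cyl F l c S ↔ cyl F l' c' S := by
  constructor
  · intro h v hv
    rw [← hl v hv, ← hc v hv]; exact h v hv
  · intro h v hv
    rw [hl v hv, hc v hv]; exact h v hv

theorem mini_congr {A : Tab V m → Prop} {F : Finset V} {l l' : V → Fin m} {c : V → Bool}
    (hl : ∀ v ∈ F, l v = l' v) (h : Mini A F l c) : Mini A F l' c := by
  refine ⟨fun S hS => h.1 S ((cyl_congr hl (fun _ _ => rfl) S).2 hS), fun F' hF' hall => ?_⟩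
  refine h.2 F' hF' (fun S hS => hall S ?_)
  exact (cyl_congr (fun v hv => hl v (hF'.1 hv)) (fun _ _ => rfl) S).1 hS

open Classical in
/-- The labellings agreeing with `l₀` outside `J` along which `(F, c)` is minimal. -/
noncomputable def mset (A : Tab V m → Prop) (F : Finset V) (c : V → Bool) (J : Finset V)
    (l₀ : V → Fin m) : Finset (V → Fin m) :=
  Finset.univ.filter (fun l => (∀ v, v ∉ J → l v = l₀ v) ∧ Mini A F l c)

theorem mset_card {ε : ℝ} {A : Tab V m → Prop} (hA : Closed ε A) {p : ℕ} (hp1 : 1 ≤ p)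
    (hp : (1 - (1 / 2 : ℝ) ^ Fintype.card V) ^ p ≤ ε) (F : Finset V) (c : V → Bool) :
    ∀ (k : ℕ) (J : Finset V), J.card = k → J ⊆ F → ∀ l₀ : V → Fin m,
      (mset A F c J l₀).card ≤ (Fintype.card V * p) ^ k := by
  classical
  intro k
  induction k with
  | zero =>
    intro J hJ _ l₀
    rw [Finset.card_eq_zero] at hJ
    subst hJ
    rw [pow_zero, Finset.card_le_one]
    intro a ha b hb
    unfold mset at ha hb
    rw [Finset.mem_filter] at ha hb
    funext v
    rw [ha.2.1 v (by simp), hb.2.1 v (by simp)]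
  | succ k ih =>
    intro J hJ hJF l₀
    -- a maximal family of labellings of the set that disagree everywhere on `J`
    set X := mset A F c J l₀ with hX
    have hXmem : ∀ l, l ∈ X ↔ (∀ v, v ∉ J → l v = l₀ v) ∧ Mini A F l c := by
      intro l; rw [hX]; unfold mset; rw [Finset.mem_filter]; simp
    set Q := X.powerset.filter (fun D => ∀ l ∈ D, ∀ l' ∈ D, l ≠ l' → ∀ u ∈ J, l u ≠ l' u) with hQ
    have hQne : Q.Nonempty := ⟨∅, by
      rw [hQ, Finset.mem_filter]
      exact ⟨Finset.empty_mem_powerset _, by simp⟩⟩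
    obtain ⟨D, hDQ, hDmax⟩ := Finset.exists_max_image Q Finset.card hQne
    rw [hQ, Finset.mem_filter, Finset.mem_powerset] at hDQ
    obtain ⟨hDX, hDd⟩ := hDQ
    have hJne : J.Nonempty := by
      rw [← Finset.card_pos]; omega
    obtain ⟨u₀, hu₀⟩ := hJne
    have hDp : D.card < p := by
      by_contra hcon
      rw [not_lt] at hcon
      have hm1 : mea (fun S => cyl (F \ J) l₀ c S ∧ ¬ A S) ≤ ε := by
        refine (mea_mono (F := fun S => ∀ l ∈ D, ¬ cyl J l c S) ?_).trans
          ((petals J c D hDd).trans ?_)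
        · rintro S ⟨h1, h2⟩ l hl h3
          have hlX := (hXmem l).1 (hDX hl)
          apply h2
          apply hlX.2.1 S
          intro v hv
          by_cases hvJ : v ∈ J
          · exact h3 v hvJ
          · rw [hlX.1 v hvJ]
            exact h1 v (Finset.mem_sdiff.2 ⟨hv, hvJ⟩)
        · have hJV : J.card ≤ Fintype.card V := Finset.card_le_univ _
          have h1 : (1 / 2 : ℝ) ^ Fintype.card V ≤ (1 / 2 : ℝ) ^ J.card :=
            pow_le_pow_of_le_one (by norm_num) (by norm_num) hJV
          have h2 := half_pow_le J.card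
          have h3 := half_pow_le (Fintype.card V)
          have h4 : (0 : ℝ) ≤ (1 / 2 : ℝ) ^ Fintype.card V := by positivity
          calc (1 - (1 / 2 : ℝ) ^ J.card) ^ D.card
              ≤ (1 - (1 / 2 : ℝ) ^ Fintype.card V) ^ D.card :=
                pow_le_pow_left₀ (by linarith) (by linarith) _
            _ ≤ (1 - (1 / 2 : ℝ) ^ Fintype.card V) ^ p :=
                pow_le_pow_of_le_one (by linarith) (by linarith) hcon
            _ ≤ ε := hp
      have hDne : D.Nonempty := by
        rw [← Finset.card_pos]; omega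
      obtain ⟨l, hl⟩ := hDne
      have hlX := (hXmem l).1 (hDX hl)
      refine hlX.2.2 (F \ J) ?_ (fun S hS => hA (F \ J) l₀ c hm1 S ?_)
      · rw [Finset.ssubset_iff_subset_ne]
        refine ⟨Finset.sdiff_subset, fun he => ?_⟩
        have := hJF hu₀
        rw [← he] at this
        exact (Finset.mem_sdiff.1 this).2 hu₀
      · exact (cyl_congr (fun v hv => hlX.1 v (Finset.mem_sdiff.1 hv).2) (fun _ _ => rfl) S).1 hS
    have hcover : X ⊆ (D ×ˢ J).biUnion (fun z => mset A F c (J.erase z.2)
        (Function.update l₀ z.2 (z.1 z.2))) := by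
      intro l hl
      have hlX := (hXmem l).1 hl
      have hex : ∃ l' ∈ D, ∃ u ∈ J, l u = l' u := by
        by_cases hlD : l ∈ D
        · exact ⟨l, hlD, u₀, hu₀, rfl⟩
        · by_contra hno
          have hno' : ∀ l' ∈ D, ∀ u ∈ J, l u ≠ l' u := by
            intro l' hl' u hu he
            exact hno ⟨l', hl', u, hu, he⟩
          have hins : insert l D ∈ Q := by
            rw [hQ, Finset.mem_filter, Finset.mem_powerset]
            refine ⟨Finset.insert_subset hl hDX, ?_⟩
            intro l1 h1 l2 h2 hne u hu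
            rw [Finset.mem_insert] at h1 h2
            rcases h1 with rfl | h1
            · rcases h2 with rfl | h2
              · exact absurd rfl hne
              · exact hno' l2 h2 u hu
            · rcases h2 with rfl | h2
              · exact (hno' l1 h1 u hu).symm
              · exact hDd l1 h1 l2 h2 hne u hu
          have := hDmax _ hins
          rw [Finset.card_insert_of_notMem hlD] at this
          omega
      obtain ⟨l', hl', u, hu, he⟩ := hex
      rw [Finset.mem_biUnion]
      refine ⟨(l', u), Finset.mem_product.2 ⟨hl', hu⟩, ?_⟩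
      unfold mset
      rw [Finset.mem_filter]
      refine ⟨Finset.mem_univ _, ?_, hlX.2⟩
      intro v hv
      by_cases hvu : v = u
      · subst hvu
        rw [Function.update_self]; exact he
      · rw [Function.update_of_ne hvu]
        apply hlX.1
        intro hvJ
        exact hv (Finset.mem_erase.2 ⟨hvu, hvJ⟩)
    refine (Finset.card_le_card hcover).trans ?_
    refine (Finset.card_biUnion_le_card_mul _ _ ((Fintype.card V * p) ^ k) ?_).trans ?_
    · rintro ⟨l', u⟩ hz
      rw [Finset.mem_product] at hz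
      apply ih
      · rw [Finset.card_erase_of_mem hz.2]; omega
      · exact (Finset.erase_subset _ _).trans hJF
    · rw [Finset.card_product, pow_succ, mul_comm]
      apply Nat.mul_le_mul_left
      rw [mul_comm]
      exact Nat.mul_le_mul (Finset.card_le_univ _) hDp.le

end Pool.Agent.H589R2.MNL
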