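import Mathlib

/-!
# One-way deterministic pushdown automata
-/

namespace Pool.Agent.H589R2.MNL

/-- A one-way deterministic pushdown automaton (real time: every step reads one letter).  A step
replaces the top symbol of the stack by a word (its first letter on top). -/
structure DPDA (Γ : Type) where
  /-- states -/
  Q : Type
  /-- stack symbols -/
  Z : Type
  finQ : Finite Q
  finZ : Finite Z
  /-- the first state -/
  start : Q
  /-- the only stack symbol at the start -/
  bot : Z
  /-- accepting states -/
  acc : Set Q
  /-- the move in a state, on a letter, with a top symbol (if there is one) -/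
  δ : Q → Γ → Z → Option (Q × List Z)

/-- One step on the letter `a`; there is no move with an empty stack. -/
def DPDA.step {Γ : Type} (M : DPDA Γ) (a : Γ) : M.Q × List M.Z → Option (M.Q × List M.Z)
  | (_, []) => none
  | (q, z :: s) => (M.δ q a z).map (fun d => (d.1, d.2 ++ s))

/-- Reading a word. -/
def DPDA.run {Γ : Type} (M : DPDA Γ) : List Γ → M.Q × List M.Z → Option (M.Q × List M.Z)
  | [], c => some c
  | a :: w, c => (M.step a c).bind (M.run w)

/-- The automaton accepts the word `w`. -/
def DPDA.Accepts {Γ : Type} (M : DPDA Γ) (w : List Γ) : Prop :=
  ∃ q ∈ M.acc, ∃ s, M.run w (M.start, [M.bot]) = some (q, s)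

end Pool.Agent.H589R2.MNL
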