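import Pool.Agent.H589R2.MNL.Enc3

/-!
# The deterministic evaluation on positive and negative inputs
-/

namespace Pool.Agent.H589R2.MNL

open Tg

variable {m : ℕ}

theorem xi_true (x : Vr m → Bool) (κ : Option (List Bool)) (a b c : ℕ) :
    Sum.elim id x (xi m κ a b c) = true ↔ ∃ (ha : a < m) (hb : b < m) (hc : c < m),
      x (κ, ⟨a, ha⟩, ⟨b, hb⟩, ⟨c, hc⟩) = true := by
  unfold xi
  by_cases h : a < m ∧ b < m ∧ c < m
  · rw [dif_pos h]
    constructor
    · intro hx; exact ⟨h.1, h.2.1, h.2.2, hx⟩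
    · rintro ⟨_, _, _, hx⟩; exact hx
  · rw [dif_neg h]
    constructor
    · intro hx; exact absurd hx (by simp)
    · rintro ⟨ha, hb, hc, _⟩; exact absurd ⟨ha, hb, hc⟩ h

theorem xi_fin (κ : Option (List Bool)) (a b c : Fin m) :
    xi m κ a b c = Sum.inr (κ, a, b, c) := by
  unfold xi
  rw [dif_pos ⟨a.2, b.2, c.2⟩]

theorem fv_der (x : Vr m → Bool) (k : ℕ) : ∀ (u : List Bool) (a : ℕ), fv x k u = some a →
    ∃ ha : a < m, Der x k u ⟨a, ha⟩ := by
  induction k with
  | zero =>
    intro u a h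
    unfold fv at h
    have h1 := List.find?_some (p := fun a => Sum.elim id x (xi m (some u) a a a)) h
    obtain ⟨ha, _, _, hx⟩ := (xi_true x _ _ _ _).1 h1
    exact ⟨ha, hx⟩
  | succ k ih =>
    intro u a h
    unfold fv at h
    rw [Option.bind_eq_some_iff] at h
    obtain ⟨b, hb, h⟩ := h
    rw [Option.bind_eq_some_iff] at h
    obtain ⟨c, hc, h⟩ := h
    have h1 := List.find?_some (p := fun a => Sum.elim id x (xi m (some u) a b c)) h
    obtain ⟨ha, hb', hc', hx⟩ := (xi_true x _ _ _ _).1 h1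
    obtain ⟨_, hb2⟩ := ih _ b hb
    obtain ⟨_, hc2⟩ := ih _ c hc
    exact ⟨ha, ⟨b, hb'⟩, ⟨c, hc'⟩, hb2, hc2, hx⟩

theorem dgood_good {h : ℕ} {x : Vr m → Bool} (hg : DGood h x) : Good h x := by
  obtain ⟨a, ha, hx⟩ := hg
  obtain ⟨ha', hd⟩ := fv_der x h [] a ha
  obtain ⟨_, _, _, hx'⟩ := (xi_true x _ _ _ _).1 hx
  exact ⟨⟨a, ha'⟩, hd, hx'⟩

theorem find_unique {p : ℕ → Bool} {a : ℕ} (ha : a < m) (hp : p a = true)
    (hu : ∀ b < m, p b = true → b = a) : (List.range m).find? p = some a := by
  rcases hf : (List.range m).find? p with _ | b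
  · exfalso
    have h1 := List.find?_eq_none.1 hf a (List.mem_range.2 ha)
    exact h1 hp
  · have h1 := hu b (List.mem_range.1 (List.mem_of_find?_eq_some hf)) (List.find?_some hf)
    rw [h1]

theorem fv_xpos (hm : 1 ≤ m) (h : ℕ) (l : Nd h → Fin m) (k : ℕ) :
    ∀ u : List Bool, u.length + k = h →
      fv (xpos hm h l) k u = some (lext hm h l u : Fin m).1 := by
  induction k with
  | zero =>
    intro u hu
    unfold fv
    apply find_unique (lext hm h l u).2
    · rw [xi_true]
      refine ⟨(lext hm h l u).2, (lext hm h l u).2, (lext hm h l u).2, ?_⟩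
      rw [xpos_iff]
      refine ⟨some u, ?_⟩
      rw [yv_some, if_pos (by omega)]
    · intro b _ hpb
      obtain ⟨hb, _, _, hx⟩ := (xi_true _ _ _ _ _).1 hpb
      rw [xpos_iff] at hx
      obtain ⟨κ, hκ⟩ := hx
      rcases κ with _ | u'
      · simp only [yv, Prod.mk.injEq] at hκ
        exact absurd hκ.1 (by simp)
      · rw [yv_some] at hκ
        by_cases h1 : u'.length = h
        · rw [if_pos h1] at hκ
          simp only [Prod.mk.injEq, Option.some.injEq] at hκ
          obtain ⟨rfl, h2, _⟩ := hκ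
          rw [← h2]
        · rw [if_neg h1] at hκ
          simp only [Prod.mk.injEq, Option.some.injEq] at hκ
          obtain ⟨rfl, h2, _⟩ := hκ
          exact absurd (by omega) h1
  | succ k ih =>
    intro u hu
    unfold fv
    rw [ih _ (by rw [List.length_append, List.length_singleton]; omega), Option.bind_some,
      ih _ (by rw [List.length_append, List.length_singleton]; omega), Option.bind_some]
    apply find_unique (lext hm h l u).2
    · rw [xi_true]
      refine ⟨(lext hm h l u).2, (lext hm h l _).2, (lext hm h l _).2, ?_⟩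
      rw [xpos_iff]
      refine ⟨some u, ?_⟩
      rw [yv_some, if_neg (by omega)]
    · intro b _ hpb
      obtain ⟨hb, _, _, hx⟩ := (xi_true _ _ _ _ _).1 hpb
      rw [xpos_iff] at hx
      obtain ⟨κ, hκ⟩ := hx
      rcases κ with _ | u'
      · simp only [yv, Prod.mk.injEq] at hκ
        exact absurd hκ.1 (by simp)
      · rw [yv_some] at hκ
        by_cases h1 : u'.length = h
        · rw [if_pos h1] at hκ
          simp only [Prod.mk.injEq, Option.some.injEq] at hκ
          obtain ⟨rfl, h2, _⟩ := hκ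
          omega
        · rw [if_neg h1] at hκ
          simp only [Prod.mk.injEq, Option.some.injEq] at hκ
          obtain ⟨rfl, h2, _⟩ := hκ
          rw [← h2]

theorem dgood_xpos (hm : 1 ≤ m) (h : ℕ) (l : Nd h → Fin m) : DGood h (xpos hm h l) := by
  refine ⟨_, fv_xpos hm h l h [] (by simp), ?_⟩
  rw [xi_true]
  refine ⟨(lext hm h l []).2, (lext hm h l []).2, (lext hm h l []).2, ?_⟩
  rw [xpos_iff]
  exact ⟨none, rfl⟩

theorem not_good_xneg (h : ℕ) (S : Tab (Nd h) m) : ¬ Good h (xneg h S) := by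
  rintro ⟨a, h1, h2⟩
  have h3 := der_xneg h S h [] a (by simp) h1
  have h4 : (!(sv h S [] a)) = true := h2
  rw [h3] at h4
  simp at h4

theorem not_good_zero (h : ℕ) : ¬ Good h (fun _ : Vr m => false) := by
  rintro ⟨a, _, h2⟩
  exact absurd h2 (by simp)

/-- The domain. -/
def KK (hm : 1 ≤ m) (h : ℕ) : Set (Vr m → Bool) :=
  {x | x = (fun _ => false) ∨ (∃ S, x = xneg h S) ∨ ∃ l, x = xpos hm h l}

theorem dgood_iff (hm : 1 ≤ m) {h : ℕ} {x : Vr m → Bool} (hx : x ∈ KK hm h) :
    DGood h x ↔ Good h x := by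
  refine ⟨dgood_good, fun hg => ?_⟩
  rcases hx with rfl | ⟨S, rfl⟩ | ⟨l, rfl⟩
  · exact absurd hg (not_good_zero h)
  · exact absurd hg (not_good_xneg h S)
  · exact dgood_xpos hm h l

theorem der_mono {x x' : Vr m → Bool} (k : ℕ) : ∀ (u : List Bool),
    (∀ g ∈ tseg m k u, Sum.elim id x g.2 = true → Sum.elim id x' g.2 = true) →
    ∀ a, Der x k u a → Der x' k u a := by
  induction k with
  | zero =>
    intro u hg a hd
    unfold tseg at hg
    have h1 := hg _ (mem_stblL (Sum.inl false) (fun a => xi m (some u) a a a) a.2)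
    simp only [xi_fin] at h1
    exact h1 hd
  | succ k ih =>
    rintro u hg a ⟨b, c, hb, hc, hx⟩
    unfold tseg at hg
    have h1 := hg _ (List.mem_append_right _ (List.mem_append_right _
      (mem_stbl (Sum.inl false) (fun a b c => xi m (some u) a b c) a.2 b.2 c.2)))
    simp only [xi_fin] at h1
    exact ⟨b, c, ih _ (fun g hg' => hg g (List.mem_append_left _ hg')) b hb,
      ih _ (fun g hg' => hg g (List.mem_append_right _ (List.mem_append_left _ hg'))) c hc, h1 hx⟩

theorem good_mono {x x' : Vr m → Bool} {h : ℕ}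
    (hg : ∀ g ∈ tenc m h, Sum.elim id x g.2 = true → Sum.elim id x' g.2 = true)
    (hx : Good h x) : Good h x' := by
  obtain ⟨a, hd, ha⟩ := hx
  unfold tenc at hg
  have h1 := hg _ (List.mem_cons_of_mem _ (List.mem_append_right _
    (mem_stblG (Sum.inl false) (fun a => xi m none a a a) a.2)))
  simp only [xi_fin] at h1
  exact ⟨a, der_mono h [] (fun g hg' => hg g (List.mem_cons_of_mem _
    (List.mem_append_left _ hg'))) a hd, h1 ha⟩

theorem length_tseg (hm : 1 ≤ m) (k : ℕ) (u : List Bool) :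
    (tseg m k u).length + 8 * m ^ 4 ≤ 2 ^ (k + 1) * (8 * m ^ 4) := by
  have hm4 : 1 ≤ m ^ 4 := Nat.one_le_pow _ _ hm
  have hm14 : m ≤ m ^ 4 := Nat.le_self_pow (by norm_num) m
  have hm24 : m ^ 2 ≤ m ^ 4 := Nat.pow_le_pow_right hm (by norm_num)
  have hm34 : m ^ 3 ≤ m ^ 4 := Nat.pow_le_pow_right hm (by norm_num)
  induction k generalizing u with
  | zero =>
    unfold tseg
    rw [length_stblL]
    simp only [zero_add, pow_one]
    omega
  | succ k ih =>
    unfold tseg
    rw [List.length_append, List.length_append, length_stbl]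
    have h2 := ih (u ++ [false])
    have h3 := ih (u ++ [true])
    have h4 : m * (m * (m + 1) + 1) + 2 = m ^ 3 + m ^ 2 + m + 2 := by ring
    have h5 : 2 ^ (k + 1 + 1) * (8 * m ^ 4) = 2 * (2 ^ (k + 1) * (8 * m ^ 4)) := by ring
    omega

theorem length_tenc (hm : 1 ≤ m) (h : ℕ) : (tenc m h).length ≤ 2 ^ (h + 4) * m ^ 4 := by
  have hm4 : 1 ≤ m ^ 4 := Nat.one_le_pow _ _ hm
  have hm14 : m ≤ m ^ 4 := Nat.le_self_pow (by norm_num) m
  have h3 := length_tseg hm h []
  unfold tenc
  rw [List.length_cons, List.length_append, length_stblG]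
  have h5 : 2 ^ (h + 4) * m ^ 4 = 2 ^ (h + 1) * (8 * m ^ 4) := by ring
  omega

theorem le_length_tenc (h : ℕ) : m ≤ (tenc m h).length := by
  unfold tenc
  rw [List.length_cons, List.length_append, length_stblG]
  omega

/-- The word of `M` systems. -/
def tblks (m M h : ℕ) : List (Tg × (Bool ⊕ (Fin M × Vr m))) :=
  (List.finRange M).flatMap (fun j => (tenc m h).map (fun g => (g.1, Sum.map id (Prod.mk j) g.2)))

theorem length_tblks (M h : ℕ) : (tblks m M h).length = M * (tenc m h).length := by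
  unfold tblks
  rw [List.length_flatMap]
  simp

theorem elim_map {M : ℕ} (X : Fin M × Vr m → Bool) (j : Fin M) (g : Bool ⊕ Vr m) :
    Sum.elim id X (Sum.map id (Prod.mk j) g) = Sum.elim id (fun v => X (j, v)) g := by
  rcases g with b | v <;> rfl

theorem evb_tblks (M h : ℕ) (X : Fin M × Vr m → Bool) :
    evb (Sum.elim id X) (tblks m M h)
      = ((List.finRange M).map (fun j => fun v => X (j, v))).flatMap
        (fun x => evb (Sum.elim id x) (tenc m h)) := by
  unfold tblks evb
  rw [List.map_flatMap, List.flatMap_map]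
  congr 1
  funext j
  rw [List.map_map]
  apply List.map_congr_left
  intro g _
  simp only [Function.comp_apply, elim_map]

end Pool.Agent.H589R2.MNL
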