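import Pool.Agent.H589R2.MNL.Mach

/-!
# Encoding tree-shaped constraint systems as words
-/

namespace Pool.Agent.H589R2.MNL

open Sy St Sk

/-- Variables of a constraint system: `(some u, a, b, c)` allows the label `a` at the node `u` if
its children have the labels `b` and `c`; `(none, a, a, a)` allows the label `a` at the root. -/
abbrev Vr (m : ℕ) := Option (List Bool) × Fin m × Fin m × Fin m

/-- Symbolic letters: each bit is a constant or a variable. -/
abbrev SL (m : ℕ) := Sy → Bool ⊕ Vr m

variable {m : ℕ}

/-- The value of a symbolic letter. -/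
def evl (x : Vr m → Bool) (g : SL m) : Sy → Bool := fun τ => Sum.elim id x (g τ)

/-- A constant letter. -/
def cst (w : Sy → Bool) : SL m := fun τ => Sum.inl (w τ)

/-- The first letter of a window. -/
def sps (σ : Sy) (z : Vr m) : SL m := fun τ => if τ = σ then Sum.inr z else Sum.inl (decide (τ = bl))

theorem evl_cst (x : Vr m → Bool) (w : Sy → Bool) : evl x (cst w) = w := rfl

theorem evl_sps (x : Vr m → Bool) (σ : Sy) (z : Vr m) : evl x (sps σ z) = ps σ (x z) := by
  funext τ
  unfold evl sps ps
  by_cases h : τ = σ
  · simp [h]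
  · simp [h]

/-- symbolic windows -/
def swin (z : Vr m) (a b c : ℕ) : List (SL m) := sps tr z :: (restC a b c).map cst

/-- symbolic windows of leaves -/
def swinL (z : Vr m) (a : ℕ) : List (SL m) :=
  sps lf z :: (List.replicate a (pp one) ++ [pp rb]).map cst

/-- symbolic goal windows -/
def swinG (z : Vr m) (a : ℕ) : List (SL m) :=
  sps gl z :: (List.replicate a (pp one) ++ [pp rb]).map cst

theorem map_cst (x : Vr m → Bool) (w : List (Sy → Bool)) : (w.map cst).map (evl x) = w := by
  rw [List.map_map]
  have : (evl x ∘ cst) = (id : (Sy → Bool) → (Sy → Bool)) := funext fun w => evl_cst x w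
  rw [this, List.map_id]

theorem ev_swin (x : Vr m → Bool) (z : Vr m) (a b c : ℕ) :
    (swin z a b c).map (evl x) = win (x z) a b c := by
  unfold swin win
  rw [List.map_cons, evl_sps, map_cst]

theorem ev_swinL (x : Vr m → Bool) (z : Vr m) (a : ℕ) :
    (swinL z a).map (evl x) = winL (x z) a := by
  unfold swinL winL
  rw [List.map_cons, evl_sps, map_cst]

theorem ev_swinG (x : Vr m → Bool) (z : Vr m) (a : ℕ) :
    (swinG z a).map (evl x) = winG (x z) a := by
  unfold swinG winG
  rw [List.map_cons, evl_sps, map_cst]

/-- All triples. -/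
def triples (m : ℕ) : List (Fin m × Fin m × Fin m) :=
  (List.finRange m) ×ˢ ((List.finRange m) ×ˢ (List.finRange m))

theorem mem_triples (t : Fin m × Fin m × Fin m) : t ∈ triples m := by
  obtain ⟨a, b, c⟩ := t
  unfold triples
  rw [List.mem_product, List.mem_product]
  exact ⟨List.mem_finRange _, List.mem_finRange _, List.mem_finRange _⟩

/-- The word of the subtree of height `k` at `u`. -/
def sseg (m : ℕ) : ℕ → List Bool → List (SL m)
  | 0, u => (List.finRange m).flatMap (fun a => swinL (some u, a, a, a) a) ++ [cst (po fin)]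
  | k + 1, u => sseg m k (u ++ [false]) ++ (sseg m k (u ++ [true]) ++
      ((triples m).flatMap (fun t => swin (some u, t) t.1 t.2.1 t.2.2) ++ [cst (po fin)]))

/-- The word of the whole system. -/
def senc (m h : ℕ) : List (SL m) :=
  sseg m h [] ++ ((List.finRange m).flatMap (fun a => swinG (none, a, a, a) a) ++ [cst (po fin)])

/-- The derivable labels. -/
def Der (x : Vr m → Bool) : ℕ → List Bool → Fin m → Prop
  | 0, u, a => x (some u, a, a, a) = true
  | k + 1, u, a => ∃ b c, Der x k (u ++ [false]) b ∧ Der x k (u ++ [true]) c ∧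
      x (some u, a, b, c) = true

theorem lab_inj {a b : ℕ} {s t : List Sk} (h : lab a s = lab b t) : a = b ∧ s = t := by
  induction a generalizing b with
  | zero =>
    cases b with
    | zero =>
      unfold lab at h
      simpa using h
    | succ b =>
      unfold lab at h
      rw [List.replicate_succ] at h
      simp at h
  | succ a ih =>
    cases b with
    | zero =>
      unfold lab at h
      rw [List.replicate_succ] at h
      simp at h
    | succ b =>
      have h' : lab a s = lab b t := by
        unfold lab at h ⊢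
        rw [List.replicate_succ, List.replicate_succ] at h
        simpa using h
      obtain ⟨h1, h2⟩ := ih h'
      exact ⟨by rw [h1], h2⟩

theorem run_seg (x : Vr m → Bool) (k : ℕ) : ∀ (u : List Bool) (s : List Sk), s ≠ [] →
    ∀ c : St × List Sk, mR ((sseg m k u).map (evl x)) (q0, s) c ↔
      ∃ a : Fin m, Der x k u a ∧ c = (q0, lab a s) := by
  induction k with
  | zero =>
    intro u s hs c
    have e : (sseg m 0 u).map (evl x)
        = (List.finRange m).flatMap (fun a => winL (x (some u, a, a, a)) a) ++ [po fin] := by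
      unfold sseg
      rw [List.map_append, List.map_flatMap]
      simp only [ev_swinL]
      rfl
    rw [e, (run_block q1 okL (fun s c h => ((run_fin_q1 s c).1 h).1)
      (fun a : Fin m => winL (x (some u, a, a, a)) a)
      (fun a s s' => x (some u, a, a, a) = true ∧ s' = lab a s)
      (fun a => isWin_winL _ _) (List.finRange m) s c).2 hs]
    constructor
    · rintro ⟨a, _, s', ⟨h1, rfl⟩, h2⟩
      exact ⟨a, h1, ((run_fin_q1 _ _).1 h2).2⟩
    · rintro ⟨a, h1, rfl⟩
      exact ⟨a, List.mem_finRange _, lab a s, ⟨h1, rfl⟩, (run_fin_q1 _ _).2 ⟨lab_ne _ _, rfl⟩⟩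
  | succ k ih =>
    intro u s hs c
    have e : (sseg m (k + 1) u).map (evl x) = (sseg m k (u ++ [false])).map (evl x) ++
        ((sseg m k (u ++ [true])).map (evl x) ++
        ((triples m).flatMap (fun t => win (x (some u, t)) t.1 t.2.1 t.2.2) ++ [po fin])) := by
      rw [sseg, List.map_append, List.map_append, List.map_append, List.map_flatMap]
      simp only [ev_swin]
      rfl
    have hblock : ∀ s, s ≠ [] → (mR ((triples m).flatMap
        (fun t => win (x (some u, t)) t.1 t.2.1 t.2.2) ++ [po fin]) (q0, s) c ↔
        ∃ t ∈ triples m, ∃ s', (x (some u, t) = true ∧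
          ∃ s'', s = lab t.2.2 (lab t.2.1 s'') ∧ s' = lab t.1 s'') ∧ mR [po fin] (q1, s') c) :=
      fun s hs => (run_block q1 okL (fun s c h => ((run_fin_q1 s c).1 h).1)
        (fun t : Fin m × Fin m × Fin m => win (x (some u, t)) t.1 t.2.1 t.2.2)
        (fun t s s' => x (some u, t) = true ∧
          ∃ s'', s = lab t.2.2 (lab t.2.1 s'') ∧ s' = lab t.1 s'')
        (fun t => isWin_win _ _ _ _) (triples m) s c).2 hs
    rw [e, run_append]
    constructor
    · rintro ⟨d, h1, h2⟩
      obtain ⟨b, hb, rfl⟩ := (ih _ s hs _).1 h1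
      rw [run_append] at h2
      obtain ⟨d, h1, h2⟩ := h2
      obtain ⟨c', hc', rfl⟩ := (ih _ _ (lab_ne _ _) _).1 h1
      obtain ⟨⟨a, b2, c2⟩, _, s', ⟨hx, s'', h3, rfl⟩, h4⟩ := (hblock _ (lab_ne _ _)).1 h2
      obtain ⟨h5, h6⟩ := lab_inj h3
      obtain ⟨h7, h8⟩ := lab_inj h6
      have h5' : c' = c2 := Fin.ext h5
      have h7' : b = b2 := Fin.ext h7
      subst h5' h7' h8
      exact ⟨a, ⟨b, c', hb, hc', hx⟩, ((run_fin_q1 _ _).1 h4).2⟩
    · rintro ⟨a, ⟨b, c', hb, hc', hx⟩, rfl⟩
      refine ⟨(q0, lab b s), (ih _ s hs _).2 ⟨b, hb, rfl⟩, ?_⟩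
      rw [run_append]
      refine ⟨(q0, lab c' (lab b s)), (ih _ _ (lab_ne _ _) _).2 ⟨c', hc', rfl⟩, ?_⟩
      exact (hblock _ (lab_ne _ _)).2 ⟨(a, b, c'), mem_triples _, lab a s, ⟨hx, s, rfl, rfl⟩,
        (run_fin_q1 _ _).2 ⟨lab_ne _ _, rfl⟩⟩

theorem mach_accepts (w : List (Sy → Bool)) :
    mach.Accepts w ↔ ∃ s : List Sk, mR w (q0, [B]) (f, s) := by
  constructor
  · rintro ⟨q, hq, s, hrun⟩
    have hq' : q = f := hq
    subst hq'
    exact ⟨s, (mach_run _ _ _).1 hrun⟩
  · rintro ⟨s, hrun⟩
    exact ⟨f, rfl, s, (mach_run _ _ _).2 hrun⟩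

theorem mach_enc (x : Vr m → Bool) (h : ℕ) :
    mach.Accepts ((senc m h).map (evl x)) ↔ ∃ a : Fin m, Der x h [] a ∧ x (none, a, a, a) = true := by
  have e : (senc m h).map (evl x) = (sseg m h []).map (evl x) ++
      ((List.finRange m).flatMap (fun a => winG (x (none, a, a, a)) a) ++ [po fin]) := by
    unfold senc
    rw [List.map_append, List.map_append, List.map_flatMap]
    simp only [ev_swinG]
    rfl
  have hblock : ∀ s, s ≠ [] → ∀ c : St × List Sk, (mR ((List.finRange m).flatMap
      (fun a => winG (x (none, a, a, a)) a) ++ [po fin]) (q0, s) c ↔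
      ∃ a ∈ List.finRange m, ∃ s', (x (none, a, a, a) = true ∧ s = lab a s') ∧
        mR [po fin] (r, s') c) :=
    fun s hs c => (run_block r okG (fun s c h => ((run_fin_r s c).1 h).1)
      (fun a : Fin m => winG (x (none, a, a, a)) a)
      (fun a s s' => x (none, a, a, a) = true ∧ s = lab a s')
      (fun a => isWin_winG _ _) (List.finRange m) s c).2 hs
  rw [mach_accepts]
  constructor
  · rintro ⟨s, hrun⟩
    rw [e, run_append] at hrun
    obtain ⟨d, h1, h2⟩ := hrun
    obtain ⟨a, ha, rfl⟩ := (run_seg x h [] [B] (by simp) _).1 h1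
    obtain ⟨a', _, s', ⟨hx, h3⟩, _⟩ := (hblock _ (lab_ne _ _) _).1 h2
    obtain ⟨h4, _⟩ := lab_inj h3
    have h4' : a = a' := Fin.ext h4
    subst h4'
    exact ⟨a, ha, hx⟩
  · rintro ⟨a, ha, hx⟩
    refine ⟨[B], ?_⟩
    rw [e, run_append]
    refine ⟨(q0, lab a [B]), (run_seg x h [] [B] (by simp) _).2 ⟨a, ha, rfl⟩, ?_⟩
    exact (hblock _ (lab_ne _ _) _).2 ⟨a, List.mem_finRange _, [B], ⟨hx, rfl⟩,
      (run_fin_r _ _).2 ⟨⟨[], rfl⟩, rfl⟩⟩

theorem length_flatMap_le {α β : Type*} (L : List α) (g : α → List β) (K : ℕ)
    (hK : ∀ a ∈ L, (g a).length ≤ K) : (L.flatMap g).length ≤ L.length * K := by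
  induction L with
  | nil => simp
  | cons a L ih =>
    rw [List.flatMap_cons, List.length_append, List.length_cons]
    have h1 := hK a List.mem_cons_self
    have h2 := ih (fun b hb => hK b (List.mem_cons_of_mem _ hb))
    nlinarith

theorem le_length_flatMap {α β : Type*} (L : List α) (g : α → List β)
    (hK : ∀ a ∈ L, 1 ≤ (g a).length) : L.length ≤ (L.flatMap g).length := by
  induction L with
  | nil => simp
  | cons a L ih =>
    rw [List.flatMap_cons, List.length_append, List.length_cons]
    have h1 := hK a List.mem_cons_self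
    have h2 := ih (fun b hb => hK b (List.mem_cons_of_mem _ hb))
    omega

theorem length_triples : (triples m).length = m ^ 3 := by
  unfold triples
  rw [List.length_product, List.length_product, List.length_finRange]
  ring

theorem length_restC (a b c : ℕ) : (restC a b c).length = a + b + c + 3 := by
  unfold restC
  simp only [List.length_append, List.length_cons, List.length_replicate, List.length_nil]
  omega

theorem length_sseg (hm : 1 ≤ m) (k : ℕ) (u : List Bool) :
    (sseg m k u).length + 8 * m ^ 4 ≤ 2 ^ (k + 1) * (8 * m ^ 4) := by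
  have hm4 : 1 ≤ m ^ 4 := Nat.one_le_pow _ _ hm
  have hm34 : m ^ 3 ≤ m ^ 4 := Nat.pow_le_pow_right hm (by norm_num)
  induction k generalizing u with
  | zero =>
    have h1 : ((List.finRange m).flatMap (fun a => swinL (m := m) (some u, a, a, a) a)).length
        ≤ (List.finRange m).length * (m + 2) := by
      apply length_flatMap_le
      intro a _
      unfold swinL
      rw [List.length_cons, List.length_map, List.length_append, List.length_replicate]
      have := a.2
      simp only [List.length_cons, List.length_nil]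
      omega
    rw [List.length_finRange] at h1
    unfold sseg
    rw [List.length_append, List.length_cons, List.length_nil]
    have h2 : m * (m + 2) ≤ 3 * m ^ 4 := by
      have h3 : m * m ≤ m ^ 4 := by
        calc m * m = m ^ 2 := by ring
          _ ≤ m ^ 4 := Nat.pow_le_pow_right hm (by norm_num)
      have h4 : m ≤ m ^ 4 := Nat.le_self_pow (by norm_num) m
      nlinarith
    simp only [zero_add, pow_one]
    omega
  | succ k ih =>
    have h1 : ((triples m).flatMap (fun t => swin (some u, t) t.1 t.2.1 t.2.2)).length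
        ≤ (triples m).length * (3 * m + 4) := by
      apply length_flatMap_le
      rintro ⟨a, b, c⟩ _
      unfold swin
      rw [List.length_cons, List.length_map, length_restC]
      have := a.2
      have := b.2
      have := c.2
      simp only
      omega
    rw [length_triples] at h1
    rw [sseg, List.length_append, List.length_append, List.length_append, List.length_cons,
      List.length_nil]
    have h2 := ih (u ++ [false])
    have h3 := ih (u ++ [true])
    have h4 : m ^ 3 * (3 * m + 4) = 3 * m ^ 4 + 4 * m ^ 3 := by ring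
    have h5 : 2 ^ (k + 1 + 1) * (8 * m ^ 4) = 2 * (2 ^ (k + 1) * (8 * m ^ 4)) := by ring
    omega

theorem length_senc (hm : 1 ≤ m) (h : ℕ) : (senc m h).length ≤ 2 ^ (h + 4) * m ^ 4 := by
  have hm4 : 1 ≤ m ^ 4 := Nat.one_le_pow _ _ hm
  have h1 : ((List.finRange m).flatMap (fun a => swinG (m := m) (none, a, a, a) a)).length
      ≤ (List.finRange m).length * (m + 2) := by
    apply length_flatMap_le
    intro a _
    unfold swinG
    rw [List.length_cons, List.length_map, List.length_append, List.length_replicate]
    have := a.2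
    simp only [List.length_cons, List.length_nil]
    omega
  rw [List.length_finRange] at h1
  have h2 : m * (m + 2) ≤ 3 * m ^ 4 := by
    have h3 : m * m ≤ m ^ 4 := by
      calc m * m = m ^ 2 := by ring
        _ ≤ m ^ 4 := Nat.pow_le_pow_right hm (by norm_num)
    have h4 : m ≤ m ^ 4 := Nat.le_self_pow (by norm_num) m
    nlinarith
  have h3 := length_sseg hm h []
  unfold senc
  rw [List.length_append, List.length_append, List.length_cons, List.length_nil]
  have h5 : 2 ^ (h + 4) * m ^ 4 = 2 ^ (h + 1) * (8 * m ^ 4) := by ring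
  omega

theorem le_length_senc (h : ℕ) : m ≤ (senc m h).length := by
  have h1 : (List.finRange m).length
      ≤ ((List.finRange m).flatMap (fun a => swinG (m := m) (none, a, a, a) a)).length := by
    apply le_length_flatMap
    intro a _
    unfold swinG
    rw [List.length_cons]
    omega
  rw [List.length_finRange] at h1
  unfold senc
  rw [List.length_append, List.length_append]
  omega

end Pool.Agent.H589R2.MNL
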