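import Mathlib

/-!
# Variable space of the pebbling contradiction of a complete binary tree

A chain of sets of colourings of the nodes of the tree, from the set of all colourings to the empty
set, which loses at each step only colourings violating one constraint, contains a set that depends
on many nodes.
-/

namespace Pool.Agent.H589R2.MNL

/-- Colourings of the nodes; a node is the list of the directions leading to it from the root. -/
abbrev Col := List Bool → Bool

/-- The set `R` of colourings depends only on the colours of the nodes in `F`. -/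
def DependsOn (R : Set Col) (F : Finset (List Bool)) : Prop :=
  ∀ τ τ' : Col, (∀ u ∈ F, τ u = τ' u) → (τ ∈ R ↔ τ' ∈ R)

/-- Violated constraints in the tree of height `h`: the root has colour `true` (for `none`), a leaf
has colour `false`, or an inner node has colour `false` while its children have colour `true`. -/
def viol (h : ℕ) (κ : Option (List Bool)) (τ : Col) : Prop :=
  match κ with
  | none => τ [] = true
  | some u => (u.length = h ∧ τ u = false) ∨
      (u.length < h ∧ τ u = false ∧ τ (u ++ [false]) = true ∧ τ (u ++ [true]) = true)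

/-- The colouring that is `τ` on the subtree at `[p, q]`, false on the path above it and true
elsewhere. -/
def rho (p q : Bool) (τ : Col) : Col
  | [] => false
  | [a] => if a = p then false else true
  | a :: b :: u => if a = p ∧ b = q then τ u else true

/-- Transport of constraints to the subtree. -/
def red : Option (List Bool) → Option (List Bool)
  | none => none
  | some [] => none
  | some [_] => none
  | some (_ :: _ :: u) => some u

theorem viol_rho (h : ℕ) (p q : Bool) (κ : Option (List Bool)) (τ : Col)
    (hv : viol (h + 2) κ (rho p q τ)) : viol h (red κ) τ := by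
  rcases κ with _ | u
  · simp [viol, rho] at hv
  · rcases u with _ | ⟨a, _ | ⟨b, u⟩⟩
    · rcases hv with ⟨h1, _⟩ | ⟨_, _, h3, h4⟩
      · simp at h1
      · simp only [List.nil_append, rho] at h3 h4
        cases p <;> simp at h3 h4
    · rcases hv with ⟨h1, _⟩ | ⟨_, h2, h3, h4⟩
      · simp at h1
      · simp only [rho] at h2
        by_cases ha : a = p
        · subst ha
          simp only [List.cons_append, List.nil_append, rho, true_and] at h3 h4
          change τ [] = true
          cases q
          · simpa using h3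
          · simpa using h4
        · simp [ha] at h2
    · by_cases hab : a = p ∧ b = q
      · obtain ⟨rfl, rfl⟩ := hab
        rcases hv with ⟨h1, h2⟩ | ⟨h1, h2, h3, h4⟩
        · left
          simp only [rho, and_self, if_true] at h2
          simp only [List.length_cons] at h1
          exact ⟨by omega, h2⟩
        · right
          simp only [List.cons_append, rho, and_self, if_true] at h2 h3 h4
          simp only [List.length_cons] at h1
          exact ⟨by omega, h2, h3, h4⟩
      · rcases hv with ⟨_, h2⟩ | ⟨_, h2, _, _⟩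
        · simp only [rho, hab, if_false] at h2
          exact absurd h2 (by simp)
        · simp only [rho, hab, if_false] at h2
          exact absurd h2 (by simp)

theorem chain (n : ℕ) : ∀ (R : ℕ → Set Col) (s t : ℕ), s ≤ t → (∀ τ, τ ∈ R s) → (∀ τ, τ ∉ R t) →
    (∀ i, s ≤ i → i < t → ∃ κ, ∀ τ, τ ∈ R i → τ ∉ R (i + 1) → viol (2 * n) κ τ) →
    ∃ i, s ≤ i ∧ i ≤ t ∧ ∀ F, DependsOn (R i) F → n + 1 ≤ F.card := by
  classical
  induction n with
  | zero =>
    intro R s t hst hs ht hstep
    by_contra hcon
    have hconst : ∀ i, s ≤ i → i ≤ t → ∀ τ τ' : Col, (τ ∈ R i ↔ τ' ∈ R i) := by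
      intro i h1 h2
      have h3 : ¬ ∀ F, DependsOn (R i) F → 0 + 1 ≤ F.card := fun h => hcon ⟨i, h1, h2, h⟩
      rw [not_forall] at h3
      obtain ⟨F, hF⟩ := h3
      rw [Classical.not_imp] at hF
      obtain ⟨hF1, hF2⟩ := hF
      have hF0 : F = ∅ := by
        rw [← Finset.card_eq_zero]; omega
      intro τ τ'
      apply hF1
      intro u hu
      rw [hF0] at hu
      simp at hu
    have hall : ∀ i, s ≤ i → i ≤ t → ∀ τ, τ ∈ R i := by
      intro i hi
      induction i, hi using Nat.le_induction with
      | base => intro _; exact hs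
      | succ i hi ih =>
        intro hit τ
        by_contra hτ
        obtain ⟨κ, hκ⟩ := hstep i hi (by omega)
        have hno : ∀ τ', τ' ∉ R (i + 1) := fun τ' h =>
          hτ ((hconst (i + 1) (by omega) hit τ τ').2 h)
        have hv : ∀ τ', viol (2 * 0) κ τ' := fun τ' => hκ τ' (ih (by omega) τ') (hno τ')
        rcases κ with _ | u
        · have := hv (fun _ => false)
          simp [viol] at this
        · have := hv (fun _ => true)
          simp [viol] at this
    exact ht (fun _ => true) (hall t hst le_rfl _)
  | succ n ih =>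
    intro R s t hst hs ht hstep
    by_contra hcon
    have hF : ∀ i, s ≤ i → i ≤ t → ∃ F : Finset (List Bool), DependsOn (R i) F ∧ F.card ≤ n + 1 := by
      intro i h1 h2
      have h3 : ¬ ∀ F, DependsOn (R i) F → n + 1 + 1 ≤ F.card := fun h => hcon ⟨i, h1, h2, h⟩
      rw [not_forall] at h3
      obtain ⟨F, hF⟩ := h3
      rw [Classical.not_imp] at hF
      exact ⟨F, hF.1, by omega⟩
    -- the two kinds of times
    set b : ℕ → Prop := fun i => ∃ z : Bool × Bool, ∀ τ : Col,
      (∀ u, τ (z.1 :: z.2 :: u) = true) → τ ∈ R i with hb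
    set w : ℕ → Prop := fun i => ∃ z : Bool × Bool, ∀ τ : Col,
      (∀ u, τ (z.1 :: z.2 :: u) = true) → τ ∉ R i with hw
    have hwt : ∃ j, s ≤ j ∧ w j := ⟨t, hst, (true, true), fun τ _ => ht τ⟩
    obtain ⟨j, hj⟩ : ∃ j, j = Nat.find hwt := ⟨_, rfl⟩
    have hjs : s ≤ j := by rw [hj]; exact (Nat.find_spec hwt).1
    have hjw : w j := by rw [hj]; exact (Nat.find_spec hwt).2
    have hjt : j ≤ t := by
      rw [hj]; exact Nat.find_min' hwt ⟨hst, (true, true), fun τ _ => ht τ⟩
    have hjmin : ∀ l, s ≤ l → l < j → ¬ w l := by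
      intro l h1 h2 h3
      rw [hj] at h2
      exact Nat.find_min hwt h2 ⟨h1, h3⟩
    obtain ⟨i, hi⟩ : ∃ i, i = Nat.findGreatest (fun l => s ≤ l ∧ b l) j := ⟨_, rfl⟩
    have hbs : s ≤ s ∧ b s := ⟨le_rfl, (true, true), fun τ _ => hs τ⟩
    have hispec : s ≤ i ∧ b i := by
      rw [hi]; exact Nat.findGreatest_spec (P := fun l => s ≤ l ∧ b l) hjs hbs
    have hij : i ≤ j := by rw [hi]; exact Nat.findGreatest_le j
    have himax : ∀ l, i < l → l ≤ j → ¬ b l := by
      intro l h1 h2 h3
      rw [hi] at h1
      exact Nat.findGreatest_is_greatest h1 h2 ⟨by omega, h3⟩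
    obtain ⟨z1, hz1⟩ := hispec.2
    obtain ⟨z2, hz2⟩ := hjw
    have hfour : ∀ y1 y2 : Bool × Bool, ∃ z : Bool × Bool, z ≠ y1 ∧ z ≠ y2 := by decide
    obtain ⟨z, hzz1, hzz2⟩ := hfour z1 z2
    have hrho : ∀ z' : Bool × Bool, z ≠ z' → ∀ τ u, rho z.1 z.2 τ (z'.1 :: z'.2 :: u) = true := by
      intro z' hne τ u
      simp only [rho]
      rw [if_neg]
      rintro ⟨h1, h2⟩
      exact hne (Prod.ext h1.symm h2.symm)
    obtain ⟨l, hl1, hl2, hl3⟩ := ih (fun l => {τ | rho z.1 z.2 τ ∈ R l}) i j hij
      (fun τ => hz1 _ (hrho z1 hzz1 τ)) (fun τ => hz2 _ (hrho z2 hzz2 τ)) (by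
        intro l h1 h2
        obtain ⟨κ, hκ⟩ := hstep l (by omega) (by omega)
        refine ⟨red κ, fun τ h3 h4 => ?_⟩
        apply viol_rho (2 * n) z.1 z.2
        have : 2 * (n + 1) = 2 * n + 2 := by ring
        rw [← this]
        exact hκ _ h3 h4)
    have hli : l ≠ i := by
      rintro rfl
      have := hl3 ∅ (fun τ τ' _ => ⟨fun _ => hz1 _ (hrho z1 hzz1 τ'), fun _ => hz1 _ (hrho z1 hzz1 τ)⟩)
      simp at this
    have hlj : l ≠ j := by
      rintro rfl
      have := hl3 ∅ (fun τ τ' _ => ⟨fun h => absurd h (hz2 _ (hrho z2 hzz2 τ)),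
        fun h => absurd h (hz2 _ (hrho z2 hzz2 τ'))⟩)
      simp at this
    obtain ⟨F, hFd, hFc⟩ := hF l (by omega) (by omega)
    have hinj : Function.Injective (fun u : List Bool => z.1 :: z.2 :: u) := by
      intro u v h
      simpa using h
    set F' := F.preimage (fun u : List Bool => z.1 :: z.2 :: u) hinj.injOn with hF'
    have hF'd : DependsOn {τ | rho z.1 z.2 τ ∈ R l} F' := by
      intro τ τ' h
      apply hFd
      intro u hu
      rcases u with _ | ⟨a, _ | ⟨c, u⟩⟩
      · rfl
      · rfl
      · simp only [rho]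
        by_cases hac : a = z.1 ∧ c = z.2
        · rw [if_pos hac, if_pos hac]
          apply h
          rw [hF', Finset.mem_preimage, ← hac.1, ← hac.2]
          exact hu
        · rw [if_neg hac, if_neg hac]
    have hcard := hl3 F' hF'd
    have himg : F'.image (fun u : List Bool => z.1 :: z.2 :: u) = F := by
      apply Finset.eq_of_subset_of_card_le
      · intro v hv
        obtain ⟨u, hu, rfl⟩ := Finset.mem_image.1 hv
        rw [hF', Finset.mem_preimage] at hu
        exact hu
      · rw [Finset.card_image_of_injective _ hinj]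
        omega
    have hagree : ∀ τ : Col, (∀ u, τ (z.1 :: z.2 :: u) = true) →
        (τ ∈ R l ↔ (fun _ => true : Col) ∈ R l) := by
      intro τ hτ
      apply hFd
      intro v hv
      rw [← himg] at hv
      obtain ⟨u, _, rfl⟩ := Finset.mem_image.1 hv
      exact hτ u
    by_cases hone : (fun _ => true : Col) ∈ R l
    · exact himax l (by omega) hl2 ⟨z, fun τ hτ => (hagree τ hτ).2 hone⟩
    · exact hjmin l (by omega) (by omega) ⟨z, fun τ hτ h => hone ((hagree τ hτ).1 h)⟩

end Pool.Agent.H589R2.MNL
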