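import Pool.Agent.H589R2.MNL.Lift
import Pool.Agent.H589R2.MNL.Tree
import Pool.Agent.H589R2.MNL.Enc

/-!
# Branching programs for tree-shaped constraint systems
-/

open Finset

namespace Pool.Agent.H589R2.MNL

/-- The nodes of the tree of height `h`. -/
abbrev Nd (h : ℕ) := {u : List Bool // u.length ≤ h}

instance ndFinite (h : ℕ) : Finite (Nd h) := by
  have : Set.Finite {u : List Bool | u.length ≤ h} := List.finite_length_le Bool h
  exact this.to_subtype

noncomputable instance ndFintype (h : ℕ) : Fintype (Nd h) := Fintype.ofFinite _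

/-- Extension of a colouring of the nodes by `false`. -/
def ext (h : ℕ) (c : Nd h → Bool) : Col := fun u => if hu : u.length ≤ h then c ⟨u, hu⟩ else false

/-- Extension of a labelling. -/
def lext {m : ℕ} (hm : 1 ≤ m) (h : ℕ) (l : Nd h → Fin m) : List Bool → Fin m :=
  fun u => if hu : u.length ≤ h then l ⟨u, hu⟩ else ⟨0, hm⟩

/-- The variable of the constraint `κ` along a labelling. -/
def yv {m : ℕ} (hm : 1 ≤ m) (h : ℕ) (κ : Option (List Bool)) (l : Nd h → Fin m) : Vr m :=
  match κ with
  | none => (none, lext hm h l [], lext hm h l [], lext hm h l [])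
  | some u => if u.length = h then (some u, lext hm h l u, lext hm h l u, lext hm h l u)
      else (some u, lext hm h l u, lext hm h l (u ++ [false]), lext hm h l (u ++ [true]))

open Classical in
/-- The positive input of a labelling. -/
noncomputable def xpos {m : ℕ} (hm : 1 ≤ m) (h : ℕ) (l : Nd h → Fin m) (z : Vr m) : Bool :=
  decide (∃ κ, z = yv hm h κ l)

/-- The value of a sign table. -/
def sv {m : ℕ} (h : ℕ) (S : Tab (Nd h) m) (u : List Bool) (a : Fin m) : Bool :=
  if hu : u.length ≤ h then S (⟨u, hu⟩, a) else false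

/-- The negative input of a sign table. -/
def xneg {m : ℕ} (h : ℕ) (S : Tab (Nd h) m) : Vr m → Bool
  | (none, a, _, _) => !(sv h S [] a)
  | (some u, a, b, c) => if u.length = h then sv h S u a
      else if u.length < h then
        !(!(sv h S u a) && sv h S (u ++ [false]) b && sv h S (u ++ [true]) c)
      else true

theorem xpos_iff {m : ℕ} (hm : 1 ≤ m) (h : ℕ) (l : Nd h → Fin m) (z : Vr m) :
    xpos hm h l z = true ↔ ∃ κ, z = yv hm h κ l := by
  classical
  unfold xpos
  exact decide_eq_true_iff

theorem yv_some {m : ℕ} (hm : 1 ≤ m) (h : ℕ) (u : List Bool) (l : Nd h → Fin m) :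
    yv hm h (some u) l = if u.length = h then (some u, lext hm h l u, lext hm h l u, lext hm h l u)
      else (some u, lext hm h l u, lext hm h l (u ++ [false]), lext hm h l (u ++ [true])) := rfl

theorem xneg_some {m : ℕ} (h : ℕ) (S : Tab (Nd h) m) (u : List Bool) (a b c : Fin m) :
    xneg h S (some u, a, b, c) = if u.length = h then sv h S u a
      else if u.length < h then
        !(!(sv h S u a) && sv h S (u ++ [false]) b && sv h S (u ++ [true]) c)
      else true := rfl

theorem ext_val {m : ℕ} (hm : 1 ≤ m) (h : ℕ) (S : Tab (Nd h) m) (l : Nd h → Fin m)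
    (u : List Bool) : ext h (fun v => S (v, l v)) u = sv h S u (lext hm h l u) := by
  unfold ext sv lext
  by_cases hu : u.length ≤ h
  · simp only [hu, dif_pos]
  · simp only [hu, dif_neg, not_false_iff]

theorem xneg_of {m : ℕ} (hm : 1 ≤ m) (h : ℕ) (S : Tab (Nd h) m) (κ : Option (List Bool))
    (l : Nd h → Fin m) (hv : ¬ viol h κ (ext h (fun v => S (v, l v)))) :
    xneg h S (yv hm h κ l) = true := by
  rcases κ with _ | u
  · simp only [viol, ext_val hm] at hv
    simp only [yv, xneg]
    simpa using hv
  · simp only [viol, ext_val hm, not_or] at hv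
    unfold yv
    by_cases h1 : u.length = h
    · simp only [h1, if_true, xneg]
      have := hv.1
      simp only [h1, true_and] at this
      simpa using this
    · simp only [h1, if_false, xneg]
      by_cases h2 : u.length < h
      · simp only [h2, if_true]
        have h3 := hv.2
        simp only [h2, true_and] at h3
        cases e1 : sv h S u (lext hm h l u) <;>
          cases e2 : sv h S (u ++ [false]) (lext hm h l (u ++ [false])) <;>
          cases e3 : sv h S (u ++ [true]) (lext hm h l (u ++ [true])) <;> simp_all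
      · simp only [h2, if_false]

theorem der_xpos {m : ℕ} (hm : 1 ≤ m) (h : ℕ) (l : Nd h → Fin m) (k : ℕ) :
    ∀ u : List Bool, u.length + k = h → Der (xpos hm h l) k u (lext hm h l u) := by
  induction k with
  | zero =>
    intro u hu
    unfold Der
    rw [xpos_iff]
    refine ⟨some u, ?_⟩
    rw [yv_some, if_pos (by omega)]
  | succ k ih =>
    intro u hu
    refine ⟨lext hm h l (u ++ [false]), lext hm h l (u ++ [true]), ih _ ?_, ih _ ?_, ?_⟩
    · rw [List.length_append, List.length_singleton]; omega
    · rw [List.length_append, List.length_singleton]; omega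
    · rw [xpos_iff]
      refine ⟨some u, ?_⟩
      rw [yv_some, if_neg (by omega)]

theorem der_xneg {m : ℕ} (h : ℕ) (S : Tab (Nd h) m) (k : ℕ) :
    ∀ (u : List Bool) (a : Fin m), u.length + k = h → Der (xneg h S) k u a →
      sv h S u a = true := by
  induction k with
  | zero =>
    intro u a hu hd
    have hd' : xneg h S (some u, a, a, a) = true := hd
    rw [xneg_some, if_pos (by omega)] at hd'
    exact hd'
  | succ k ih =>
    rintro u a hu ⟨b, c, hb, hc, hx⟩
    have h1 := ih _ b (by rw [List.length_append, List.length_singleton]; omega) hb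
    have h2 := ih _ c (by rw [List.length_append, List.length_singleton]; omega) hc
    rw [xneg_some, if_neg (by omega), if_pos (by omega), h1, h2] at hx
    simpa using hx

/-- The chains of the tree. -/
theorem hard_tree (n : ℕ) (T : ℕ) (B : ℕ → Set (Nd (2 * n) → Bool)) (h0 : ∀ c, c ∈ B 0)
    (hstep : ∀ i, i < T → (∀ c, c ∈ B i → c ∈ B (i + 1)) ∨
      ∃ j : Option (List Bool), ∀ c, c ∈ B i → c ∉ B (i + 1) → viol (2 * n) j (ext (2 * n) c))
    (hdep : ∀ i, i ≤ T → ∃ F : Finset (Nd (2 * n)), F.card < n + 1 ∧
      ∀ c c' : Nd (2 * n) → Bool, (∀ v ∈ F, c v = c' v) → c ∈ B i → c' ∈ B i) :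
    ∃ c, c ∈ B T := by
  classical
  by_contra hno
  obtain ⟨i, _, hi, hF⟩ := chain n (fun i => {τ | (fun v : Nd (2 * n) => τ v.1) ∈ B i}) 0 T
    (Nat.zero_le _) (fun τ => h0 _) (fun τ hτ => hno ⟨_, hτ⟩) (by
      intro i _ hi
      rcases hstep i hi with hsub | ⟨j, hj⟩
      · exact ⟨none, fun τ h1 h2 => absurd (hsub _ h1) h2⟩
      · refine ⟨j, fun τ h1 h2 => ?_⟩
        have h3 := hj _ h1 h2
        have hval : ∀ u : List Bool, u.length ≤ 2 * n →
            ext (2 * n) (fun v : Nd (2 * n) => τ v.1) u = τ u := by
          intro u hu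
          unfold ext
          rw [dif_pos hu]
        rcases j with _ | u
        · simp only [viol] at h3 ⊢
          rw [hval [] (by simp)] at h3
          exact h3
        · simp only [viol] at h3 ⊢
          rcases h3 with ⟨h4, h5⟩ | ⟨h4, h5, h6, h7⟩
          · left
            rw [hval u (by omega)] at h5
            exact ⟨h4, h5⟩
          · right
            rw [hval u (by omega)] at h5
            rw [hval _ (by rw [List.length_append, List.length_singleton]; omega)] at h6 h7
            exact ⟨h4, h5, h6, h7⟩)
  obtain ⟨F, hFc, hFd⟩ := hdep i hi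
  have h1 := hF (F.image Subtype.val) (by
    intro τ τ' hag
    have hag' : ∀ v ∈ F, τ v.1 = τ' v.1 := fun v hv => hag v.1 (Finset.mem_image_of_mem _ hv)
    constructor
    · intro h; exact hFd _ _ hag' h
    · intro h; exact hFd _ _ (fun v hv => (hag' v hv).symm) h)
  have h2 : (F.image Subtype.val).card ≤ F.card := Finset.card_image_le
  omega

/-- A branching program for words gives one for constraint systems. -/
def pull {m N : ℕ} (w : List (SL m)) (P : NBP (Fin w.length × Sy) N) : NBP (Vr m) N where
  edge q q' e := match e with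
    | none => P.edge q q' none ∨ ∃ i σ, P.edge q q' (some (i, σ)) ∧ w.get i σ = Sum.inl true
    | some z => ∃ i σ, P.edge q q' (some (i, σ)) ∧ w.get i σ = Sum.inr z
  src := P.src
  snk := P.snk

theorem pull_accepts {m N : ℕ} (w : List (SL m)) (P : NBP (Fin w.length × Sy) N)
    (x : Vr m → Bool) :
    (pull w P).Accepts x ↔ P.Accepts (fun y => evl x (w.get y.1) y.2) := by
  have hstep : (pull w P).Step x = P.Step (fun y => evl x (w.get y.1) y.2) := by
    funext q q'
    apply propext
    constructor
    · rintro (h | ⟨z, h, h3⟩)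
      · have h' : P.edge q q' none ∨
          ∃ i σ, P.edge q q' (some (i, σ)) ∧ w.get i σ = Sum.inl true := h
        rcases h' with h' | ⟨i, σ, h1, h2⟩
        · exact Or.inl h'
        · right
          refine ⟨(i, σ), h1, ?_⟩
          simp only [evl, h2]
          rfl
      · have h' : ∃ i σ, P.edge q q' (some (i, σ)) ∧ w.get i σ = Sum.inr z := h
        obtain ⟨i, σ, h1, h2⟩ := h'
        right
        refine ⟨(i, σ), h1, ?_⟩
        simp only [evl, h2]
        exact h3
    · rintro (h | ⟨⟨i, σ⟩, h1, h2⟩)
      · exact Or.inl (Or.inl h)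
      · simp only [evl] at h2
        rcases hw : w.get i σ with b | z
        · rw [hw] at h2
          have hb : b = true := by simpa using h2
          subst hb
          exact Or.inl (Or.inr ⟨i, σ, h1, hw⟩)
        · rw [hw] at h2
          exact Or.inr ⟨z, ⟨i, σ, h1, hw⟩, by simpa using h2⟩
  unfold NBP.Accepts
  rw [hstep]
  rfl

end Pool.Agent.H589R2.MNL
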