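import Pool.Agent.H589R2.MNL.Mach3
import Pool.Agent.H589R2.MNL.TreeLB

/-!
# Words for the deterministic automaton
-/

namespace Pool.Agent.H589R2.MNL

open Sk Tg S3

section Tables

variable {β : Type*}

/-- the table of an inner node, with bits in `β` -/
def stbl (z : β) (p : ℕ → ℕ → ℕ → β) (m : ℕ) : List (Tg × β) :=
  (tT, z) :: ((List.range' 0 m).flatMap (fun c => (tS, z) :: (List.range' 0 m).flatMap
    (fun b => (tR, z) :: (List.range' 0 m).map (fun a => (tE, p a b c)))) ++ [(tF, z)])

/-- the table of a leaf -/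
def stblL (z : β) (p : ℕ → β) (m : ℕ) : List (Tg × β) :=
  (tL, z) :: ((List.range' 0 m).map (fun a => (tE, p a)) ++ [(tF, z)])

/-- the goal table -/
def stblG (z : β) (p : ℕ → β) (m : ℕ) : List (Tg × β) :=
  (tG, z) :: (List.range' 0 m).map (fun a => (tE, p a))

/-- evaluation of the bits -/
def evb (φ : β → Bool) (w : List (Tg × β)) : List (Tg × Bool) := w.map (fun g => (g.1, φ g.2))

theorem evb_append (φ : β → Bool) (w w' : List (Tg × β)) : evb φ (w ++ w') = evb φ w ++ evb φ w' :=
  List.map_append

theorem evb_stbl (φ : β → Bool) {z : β} (hz : φ z = false) (p : ℕ → ℕ → ℕ → β) (m : ℕ) :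
    evb φ (stbl z p m) = tbl (fun a b c => φ (p a b c)) m := by
  unfold evb stbl tbl grps grp rows row ents en
  simp only [List.map_cons, List.map_append, List.map_flatMap, List.map_map, hz, List.map_nil]
  rfl

theorem evb_stblL (φ : β → Bool) {z : β} (hz : φ z = false) (p : ℕ → β) (m : ℕ) :
    evb φ (stblL z p m) = tblL (fun a => φ (p a)) m := by
  unfold evb stblL tblL ents en
  simp only [List.map_cons, List.map_append, List.map_map, hz, List.map_nil]
  rfl

theorem evb_stblG (φ : β → Bool) {z : β} (hz : φ z = false) (p : ℕ → β) (m : ℕ) :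
    evb φ (stblG z p m) = tblG (fun a => φ (p a)) m := by
  unfold evb stblG tblG ents en
  simp only [List.map_cons, List.map_map, hz]
  rfl

theorem length_stbl (z : β) (p : ℕ → ℕ → ℕ → β) (m : ℕ) :
    (stbl z p m).length = m * (m * (m + 1) + 1) + 2 := by
  unfold stbl
  simp [List.length_flatMap]

theorem length_stblL (z : β) (p : ℕ → β) (m : ℕ) : (stblL z p m).length = m + 2 := by
  unfold stblL
  simp

theorem length_stblG (z : β) (p : ℕ → β) (m : ℕ) : (stblG z p m).length = m + 1 := by
  unfold stblG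
  simp

theorem mem_stbl (z : β) (p : ℕ → ℕ → ℕ → β) {m a b c : ℕ} (ha : a < m) (hb : b < m)
    (hc : c < m) : (tE, p a b c) ∈ stbl z p m := by
  unfold stbl
  rw [List.mem_cons]
  right
  rw [List.mem_append]
  left
  rw [List.mem_flatMap]
  refine ⟨c, by simp [hc], ?_⟩
  rw [List.mem_cons]
  right
  rw [List.mem_flatMap]
  refine ⟨b, by simp [hb], ?_⟩
  rw [List.mem_cons]
  right
  exact List.mem_map.2 ⟨a, by simp [ha], rfl⟩

theorem mem_stblL (z : β) (p : ℕ → β) {m a : ℕ} (ha : a < m) : (tE, p a) ∈ stblL z p m := by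
  unfold stblL
  rw [List.mem_cons]
  right
  rw [List.mem_append]
  left
  exact List.mem_map.2 ⟨a, by simp [ha], rfl⟩

theorem mem_stblG (z : β) (p : ℕ → β) {m a : ℕ} (ha : a < m) : (tE, p a) ∈ stblG z p m := by
  unfold stblG
  rw [List.mem_cons]
  right
  exact List.mem_map.2 ⟨a, by simp [ha], rfl⟩

end Tables

variable {m : ℕ}

/-- The bit of a variable. -/
def xi (m : ℕ) (κ : Option (List Bool)) (a b c : ℕ) : Bool ⊕ Vr m :=
  if h : a < m ∧ b < m ∧ c < m then Sum.inr (κ, ⟨a, h.1⟩, ⟨b, h.2.1⟩, ⟨c, h.2.2⟩) else Sum.inl false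

/-- The word of the subtree at `u`. -/
def tseg (m : ℕ) : ℕ → List Bool → List (Tg × (Bool ⊕ Vr m))
  | 0, u => stblL (Sum.inl false) (fun a => xi m (some u) a a a) m
  | k + 1, u => tseg m k (u ++ [false]) ++ (tseg m k (u ++ [true]) ++
      stbl (Sum.inl false) (fun a b c => xi m (some u) a b c) m)

/-- The word of the system. -/
def tenc (m h : ℕ) : List (Tg × (Bool ⊕ Vr m)) :=
  (tN, Sum.inl false) :: (tseg m h [] ++ stblG (Sum.inl false) (fun a => xi m none a a a) m)

/-- The first label of a node that works. -/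
def fv (x : Vr m → Bool) : ℕ → List Bool → Option ℕ
  | 0, u => (List.range m).find? (fun a => Sum.elim id x (xi m (some u) a a a))
  | k + 1, u => (fv x k (u ++ [false])).bind fun b => (fv x k (u ++ [true])).bind fun c =>
      (List.range m).find? (fun a => Sum.elim id x (xi m (some u) a b c))

theorem fv_lt (x : Vr m → Bool) (k : ℕ) (u : List Bool) (a : ℕ) (h : fv x k u = some a) :
    a < m := by
  cases k with
  | zero =>
    unfold fv at h
    exact List.mem_range.1 (List.mem_of_find?_eq_some h)
  | succ k =>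
    unfold fv at h
    rw [Option.bind_eq_some_iff] at h
    obtain ⟨b, _, h⟩ := h
    rw [Option.bind_eq_some_iff] at h
    obtain ⟨c, _, h⟩ := h
    exact List.mem_range.1 (List.mem_of_find?_eq_some h)

theorem noN_tseg (φ : Bool ⊕ Vr m → Bool) (k : ℕ) : ∀ u, ∀ a ∈ evb φ (tseg m k u), a.1 ≠ tN := by
  have hL : ∀ (p : ℕ → Bool ⊕ Vr m), ∀ a ∈ evb φ (stblL (Sum.inl false) p m), a.1 ≠ tN := by
    intro p a ha
    unfold evb stblL at ha
    rw [List.mem_map] at ha
    obtain ⟨g, hg, rfl⟩ := ha
    rw [List.mem_cons, List.mem_append, List.mem_map, List.mem_singleton] at hg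
    rcases hg with rfl | ⟨_, _, rfl⟩ | rfl <;> simp
  have hT : ∀ (p : ℕ → ℕ → ℕ → Bool ⊕ Vr m), ∀ a ∈ evb φ (stbl (Sum.inl false) p m),
      a.1 ≠ tN := by
    intro p a ha
    unfold evb stbl at ha
    rw [List.mem_map] at ha
    obtain ⟨g, hg, rfl⟩ := ha
    rw [List.mem_cons, List.mem_append, List.mem_flatMap, List.mem_singleton] at hg
    rcases hg with rfl | ⟨c, _, hg⟩ | rfl
    · simp
    · rw [List.mem_cons, List.mem_flatMap] at hg
      rcases hg with rfl | ⟨b, _, hg⟩
      · simp
      · rw [List.mem_cons, List.mem_map] at hg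
        rcases hg with rfl | ⟨_, _, rfl⟩ <;> simp
    · simp
  induction k with
  | zero => intro u; exact hL _
  | succ k ih =>
    intro u a ha
    unfold tseg at ha
    rw [evb_append, evb_append, List.mem_append, List.mem_append] at ha
    rcases ha with h | h | h
    · exact ih _ a h
    · exact ih _ a h
    · exact hT _ a h

/-- **The run on a subtree.** -/
theorem rn_tseg (x : Vr m → Bool) (k : ℕ) : ∀ (u : List Bool) (s : List Sk), s ≠ [] →
    (∀ a, fv x k u = some a → rn (evb (Sum.elim id x) (tseg m k u)) (q0, s)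
      = some (q0, lab a s)) ∧
    (fv x k u = none → ∃ s', s' ≠ [] ∧ rn (evb (Sum.elim id x) (tseg m k u)) (q0, s)
      = some (dead, s')) := by
  induction k with
  | zero =>
    intro u s hs
    unfold tseg
    rw [evb_stblL _ rfl]
    exact rn_tblL _ m s hs
  | succ k ih =>
    intro u s hs
    have hT : (∀ a ∈ evb (Sum.elim id x) (stbl (Sum.inl false)
        (fun a b c => xi m (some u) a b c) m), a.1 ≠ tN) := by
      intro a ha
      have := noN_tseg (Sum.elim id x) (k + 1) u a
      unfold tseg at this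
      rw [evb_append, evb_append, List.mem_append, List.mem_append] at this
      exact this (Or.inr (Or.inr ha))
    rcases hb : fv x k (u ++ [false]) with _ | b
    · refine ⟨fun a ha => ?_, fun _ => ?_⟩
      · unfold fv at ha
        rw [hb] at ha
        simp at ha
      · obtain ⟨s', hs', h1⟩ := (ih (u ++ [false]) s hs).2 hb
        refine ⟨s', hs', ?_⟩
        unfold tseg
        rw [evb_append, evb_append]
        refine rn_trans h1 (rn_dead _ ?_ s' hs')
        intro a ha
        rcases List.mem_append.1 ha with h | h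
        · exact noN_tseg _ _ _ a h
        · exact hT a h
    · have h1 := (ih (u ++ [false]) s hs).1 b hb
      rcases hc : fv x k (u ++ [true]) with _ | c
      · refine ⟨fun a ha => ?_, fun _ => ?_⟩
        · unfold fv at ha
          rw [hb, hc] at ha
          simp at ha
        · obtain ⟨s', hs', h2⟩ := (ih (u ++ [true]) (lab b s) (lab_ne _ _)).2 hc
          refine ⟨s', hs', ?_⟩
          unfold tseg
          rw [evb_append, evb_append]
          exact rn_trans h1 (rn_trans h2 (rn_dead _ hT s' hs'))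
      · have h2 := (ih (u ++ [true]) (lab b s) (lab_ne _ _)).1 c hc
        have h3 := rn_tbl (fun a b c => Sum.elim id x (xi m (some u) a b c)) m b c
          (fv_lt x _ _ _ hb) (fv_lt x _ _ _ hc) s
        have hfv : fv x (k + 1) u
            = (List.range m).find? (fun a => Sum.elim id x (xi m (some u) a b c)) := by
          unfold fv
          rw [hb, hc]
          rfl
        rw [hfv]
        unfold tseg
        rw [evb_append, evb_append, evb_stbl _ rfl]
        refine ⟨fun a ha => rn_trans h1 (rn_trans h2 (h3.1 a ha)), fun hno => ?_⟩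
        obtain ⟨s', hs', h4⟩ := h3.2 hno
        exact ⟨s', hs', rn_trans h1 (rn_trans h2 h4)⟩

/-- The value of the deterministic evaluation. -/
def DGood (h : ℕ) (x : Vr m → Bool) : Prop :=
  ∃ a, fv x h [] = some a ∧ Sum.elim id x (xi m none a a a) = true

/-- **The run on a block.** -/
theorem rn_tenc (h : ℕ) (x : Vr m → Bool) (s : List Sk) (hs : s ≠ []) :
    ∃ s', s' ≠ [] ∧ ((DGood h x → rn (evb (Sum.elim id x) (tenc m h)) (dead, s) = some (f, s')) ∧
      (¬ DGood h x → rn (evb (Sum.elim id x) (tenc m h)) (dead, s) = some (dead, s'))) := by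
  classical
  obtain ⟨z, s, rfl⟩ := List.exists_cons_of_ne_nil hs
  have e : rn (evb (Sum.elim id x) (tenc m h)) (dead, z :: s)
      = rn (evb (Sum.elim id x) (tseg m h []) ++ tblG (fun a => Sum.elim id x (xi m none a a a)) m)
        (q0, B :: z :: s) := by
    unfold tenc
    have : evb (Sum.elim id x) ((tN, Sum.inl false) :: (tseg m h [] ++
        stblG (Sum.inl false) (fun a => xi m none a a a) m)) = (tN, false) ::
        (evb (Sum.elim id x) (tseg m h []) ++ tblG (fun a => Sum.elim id x (xi m none a a a)) m) := by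
      rw [← evb_stblG (Sum.elim id x) (z := Sum.inl false) rfl, ← evb_append]
      rfl
    rw [this, rn_cons]
    rfl
  rw [e]
  rcases hv : fv x h [] with _ | a
  · obtain ⟨s', hs', h1⟩ := (rn_tseg x h [] (B :: z :: s) (by simp)).2 hv
    refine ⟨s', hs', fun hg => ?_, fun _ => ?_⟩
    · obtain ⟨a, ha, _⟩ := hg
      rw [hv] at ha
      simp at ha
    · refine rn_trans h1 (rn_dead _ ?_ s' hs')
      intro a ha
      unfold tblG at ha
      rcases List.mem_cons.1 ha with rfl | ha
      · decide
      · rw [mem_ents ha]; decide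
  · have h1 := (rn_tseg x h [] (B :: z :: s) (by simp)).1 a hv
    obtain ⟨s', hs', h2⟩ := rn_tblG (fun a => Sum.elim id x (xi m none a a a)) m a
      (fv_lt x _ _ _ hv) (B :: z :: s)
    refine ⟨s', hs', fun hg => ?_, fun hg => ?_⟩
    · obtain ⟨a', ha', hp⟩ := hg
      rw [hv, Option.some.injEq] at ha'
      subst ha'
      have h3 := rn_trans h1 h2
      rw [if_pos hp] at h3
      exact h3
    · have hp : ¬ Sum.elim id x (xi m none a a a) = true := fun hp => hg ⟨a, hv, hp⟩
      have h3 := rn_trans h1 h2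
      rw [if_neg hp] at h3
      exact h3

theorem rn_blks3 (h : ℕ) (L : List (Vr m → Bool)) : ∀ s, s ≠ [] →
    ∃ s', s' ≠ [] ∧ (((∃ x ∈ L, DGood h x) →
      rn (L.flatMap (fun x => evb (Sum.elim id x) (tenc m h))) (dead, s) = some (f, s')) ∧
      ((¬ ∃ x ∈ L, DGood h x) →
      rn (L.flatMap (fun x => evb (Sum.elim id x) (tenc m h))) (dead, s) = some (dead, s'))) := by
  classical
  induction L with
  | nil =>
    intro s hs
    refine ⟨s, hs, fun hg => ?_, fun _ => rfl⟩
    obtain ⟨x, hx, _⟩ := hg
    simp at hx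
  | cons x L ih =>
    intro s hs
    obtain ⟨s1, hs1, h1, h2⟩ := rn_tenc h x s hs
    by_cases hg : DGood h x
    · refine ⟨s1, hs1, fun _ => ?_, fun hn => ?_⟩
      · rw [List.flatMap_cons]
        exact rn_trans (h1 hg) (rn_f _ _ hs1)
      · exact absurd ⟨x, List.mem_cons_self, hg⟩ hn
    · obtain ⟨s2, hs2, h3, h4⟩ := ih s1 hs1
      refine ⟨s2, hs2, fun hn => ?_, fun hn => ?_⟩
      · rw [List.flatMap_cons]
        refine rn_trans (h2 hg) (h3 ?_)
        obtain ⟨y, hy, hgy⟩ := hn
        rcases List.mem_cons.1 hy with rfl | hy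
        · exact absurd hgy hg
        · exact ⟨y, hy, hgy⟩
      · rw [List.flatMap_cons]
        refine rn_trans (h2 hg) (h4 ?_)
        rintro ⟨y, hy, hgy⟩
        exact hn ⟨y, List.mem_cons_of_mem _ hy, hgy⟩

theorem mach3_accepts_iff (w : List (Tg × Bool)) :
    mach3.Accepts w ↔ ∃ s : List Sk, rn w (dead, [B]) = some (f, s) := by
  constructor
  · rintro ⟨q, hq, s, hrun⟩
    have hq' : q = f := hq
    subst hq'
    exact ⟨s, (mach3_run _ _).symm.trans hrun⟩
  · rintro ⟨s, hrun⟩
    exact ⟨f, rfl, s, (mach3_run _ _).trans hrun⟩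

/-- **The deterministic automaton decides the disjunction.** -/
theorem mach3_accepts (h : ℕ) (L : List (Vr m → Bool)) :
    mach3.Accepts (L.flatMap (fun x => evb (Sum.elim id x) (tenc m h))) ↔ ∃ x ∈ L, DGood h x := by
  obtain ⟨s', hs', h1, h2⟩ := rn_blks3 h L [B] (by simp)
  rw [mach3_accepts_iff]
  constructor
  · rintro ⟨s, hrun⟩
    by_contra hn
    have h3 := h2 hn
    rw [h3, Option.some.injEq, Prod.mk.injEq] at hrun
    exact absurd hrun.1 (by decide)
  · intro hg
    exact ⟨s', h1 hg⟩

end Pool.Agent.H589R2.MNL
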