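import Mathlib

/-!
# Monotone nondeterministic branching programs
-/

namespace Pool.Agent.H589R2.MNL

/-- A monotone nondeterministic branching program with `N` states over the Boolean variables `Var`:
between any two states there can be a free edge (`none`) and, for each variable `y`, an edge
(`some y`) that may be used iff `y` is true.  There are no edges testing that a variable is false. -/
structure NBP (Var : Type*) (N : ℕ) where
  /-- the edges -/
  edge : Fin N → Fin N → Option Var → Prop
  /-- the first state -/
  src : Fin N
  /-- the accepting state -/
  snk : Fin N

/-- One step of the program on the input `x`. -/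
def NBP.Step {Var : Type*} {N : ℕ} (P : NBP Var N) (x : Var → Bool) (q q' : Fin N) : Prop :=
  P.edge q q' none ∨ ∃ y, P.edge q q' (some y) ∧ x y = true

/-- The program accepts `x` iff some path of usable edges leads from `src` to `snk`. -/
def NBP.Accepts {Var : Type*} {N : ℕ} (P : NBP Var N) (x : Var → Bool) : Prop :=
  Relation.ReflTransGen (P.Step x) P.src P.snk

end Pool.Agent.H589R2.MNL
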