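import Pool.Agent.H589R2.MNL.Closed
import Pool.Agent.H589R2.MNL.NBP

/-!
# Lifting variable space to the size of monotone nondeterministic branching programs
-/

open Finset

namespace Pool.Agent.H589R2.MNL

open Pool.Agent.H589R2.OV

variable {V : Type} [Fintype V] [DecidableEq V] {m : ℕ}

/-- Shapes of cylinders. -/
abbrev Shape (V : Type) := Finset V × (V → Bool)

open Classical in
/-- The labellings along which all shapes in `Q` are minimal. -/
noncomputable def lam (A : Tab V m → Prop) (Q : Finset (Shape V)) : Finset (V → Fin m) :=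
  Finset.univ.filter (fun l => ∀ x ∈ Q, Mini A x.1 l x.2)

theorem lam_card {ε : ℝ} {A : Tab V m → Prop} (hA : Closed ε A) {p : ℕ} (hp1 : 1 ≤ p)
    (hp : (1 - (1 / 2 : ℝ) ^ Fintype.card V) ^ p ≤ ε) (Q : Finset (Shape V)) :
    (lam A Q).card * m ^ (Q.biUnion Prod.fst).card ≤
      (Fintype.card V * p) ^ (Q.biUnion Prod.fst).card * m ^ Fintype.card V := by
  classical
  induction Q using Finset.induction_on with
  | empty =>
    rw [Finset.biUnion_empty, Finset.card_empty, pow_zero, pow_zero, mul_one, one_mul]
    refine (Finset.card_le_univ _).trans ?_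
    rw [Fintype.card_fun, Fintype.card_fin]
  | insert x Q hx ih =>
    obtain ⟨F, c⟩ := x
    set W := Q.biUnion Prod.fst with hW
    have hbi : (insert (F, c) Q).biUnion Prod.fst = F ∪ W := by
      rw [Finset.biUnion_insert]
    obtain ⟨J, hJ⟩ : ∃ J, J = F \ W := ⟨_, rfl⟩
    have hcard : (F ∪ W).card = J.card + W.card := by
      rw [hJ, Finset.card_sdiff_add_card]
    -- double counting
    have hdc : (lam A (insert (F, c) Q)).card * m ^ J.card
        ≤ (lam A Q).card * (Fintype.card V * p) ^ J.card := by
      apply Finset.card_mul_le_card_mul (fun l l' : V → Fin m => ∀ v, v ∉ J → l v = l' v)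
      · intro l hl
        have hl' : ∀ x ∈ Q, Mini A x.1 l x.2 := by
          unfold lam at hl
          rw [Finset.mem_filter] at hl
          exact fun x hx => hl.2 x (Finset.mem_insert_of_mem hx)
        have hsub : Fintype.piFinset (fun v => if v ∈ J then (Finset.univ : Finset (Fin m))
            else {l v}) ⊆ Finset.bipartiteAbove
              (fun l l' : V → Fin m => ∀ v, v ∉ J → l v = l' v) (lam A Q) l := by
          intro l' hl2
          rw [Fintype.mem_piFinset] at hl2
          have hag : ∀ v, v ∉ J → l v = l' v := by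
            intro v hv
            have := hl2 v
            rw [if_neg hv, Finset.mem_singleton] at this
            exact this.symm
          rw [Finset.mem_bipartiteAbove]
          refine ⟨?_, hag⟩
          unfold lam
          rw [Finset.mem_filter]
          refine ⟨Finset.mem_univ _, fun x hx => ?_⟩
          refine mini_congr (fun v hv => ?_) (hl' x hx)
          apply hag
          rw [hJ, Finset.mem_sdiff]
          rintro ⟨_, h2⟩
          exact h2 (by rw [hW]; exact Finset.mem_biUnion.2 ⟨x, hx, hv⟩)
        refine le_trans (le_of_eq ?_) (Finset.card_le_card hsub)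
        rw [Fintype.card_piFinset]
        have : ∀ v, (if v ∈ J then (Finset.univ : Finset (Fin m)) else {l v}).card
            = if v ∈ J then m else 1 := by
          intro v
          by_cases hv : v ∈ J
          · rw [if_pos hv, if_pos hv, Finset.card_univ, Fintype.card_fin]
          · rw [if_neg hv, if_neg hv, Finset.card_singleton]
        simp only [this]
        rw [Finset.prod_ite_mem, Finset.univ_inter, Finset.prod_const]
      · intro l' _
        refine le_trans (Finset.card_le_card ?_) (mset_card hA hp1 hp F c J.card J rfl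
          (by rw [hJ]; exact Finset.sdiff_subset) l')
        intro l hl
        rw [Finset.mem_bipartiteBelow] at hl
        obtain ⟨h1, h2⟩ := hl
        unfold lam at h1
        rw [Finset.mem_filter] at h1
        unfold mset
        rw [Finset.mem_filter]
        exact ⟨Finset.mem_univ _, h2, h1.2 (F, c) (Finset.mem_insert_self _ _)⟩
    rw [hbi, hcard, pow_add, pow_add]
    calc (lam A (insert (F, c) Q)).card * (m ^ J.card * m ^ W.card)
        = ((lam A (insert (F, c) Q)).card * m ^ J.card) * m ^ W.card := by ring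
      _ ≤ ((lam A Q).card * (Fintype.card V * p) ^ J.card) * m ^ W.card :=
          Nat.mul_le_mul_right _ hdc
      _ = ((lam A Q).card * m ^ W.card) * (Fintype.card V * p) ^ J.card := by ring
      _ ≤ ((Fintype.card V * p) ^ W.card * m ^ Fintype.card V) *
          (Fintype.card V * p) ^ J.card := Nat.mul_le_mul_right _ ih
      _ = _ := by ring

open Classical in
/-- The shapes that are minimal along `l`. -/
noncomputable def shp (A : Tab V m → Prop) (l : V → Fin m) : Finset (Shape V) :=
  Finset.univ.filter (fun x => Mini A x.1 l x.2)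

open Classical in
/-- The labellings along which the minimal cylinders involve at least `k` nodes. -/
noncomputable def lost (A : Tab V m → Prop) (k : ℕ) : Finset (V → Fin m) :=
  Finset.univ.filter (fun l => k ≤ ((shp A l).biUnion Prod.fst).card)

theorem lost_card {ε : ℝ} {A : Tab V m → Prop} (hA : Closed ε A) {p : ℕ} (hp1 : 1 ≤ p)
    (hp : (1 - (1 / 2 : ℝ) ^ Fintype.card V) ^ p ≤ ε) (hV : 1 ≤ Fintype.card V) (hm : 1 ≤ m)
    (k : ℕ) :
    (lost A k).card * m ^ k ≤ 2 ^ 2 ^ (2 * Fintype.card V) *
      ((Fintype.card V * p) ^ Fintype.card V * m ^ Fintype.card V) := by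
  classical
  set U := (Finset.univ : Finset (Finset (Shape V))).filter
    (fun Q => k ≤ (Q.biUnion Prod.fst).card) with hU
  have hsub : lost A k ⊆ U.biUnion (fun Q => lam A Q) := by
    intro l hl
    unfold lost at hl
    rw [Finset.mem_filter] at hl
    rw [Finset.mem_biUnion]
    refine ⟨shp A l, ?_, ?_⟩
    · rw [hU, Finset.mem_filter]; exact ⟨Finset.mem_univ _, hl.2⟩
    · unfold lam
      rw [Finset.mem_filter]
      refine ⟨Finset.mem_univ _, fun x hx => ?_⟩
      unfold shp at hx
      exact (Finset.mem_filter.1 hx).2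
  have hvp : 1 ≤ Fintype.card V * p := Nat.mul_le_mul hV hp1
  have heach : ∀ Q ∈ U, (lam A Q).card * m ^ k ≤
      (Fintype.card V * p) ^ Fintype.card V * m ^ Fintype.card V := by
    intro Q hQ
    rw [hU, Finset.mem_filter] at hQ
    calc (lam A Q).card * m ^ k ≤ (lam A Q).card * m ^ (Q.biUnion Prod.fst).card :=
          Nat.mul_le_mul_left _ (Nat.pow_le_pow_right hm hQ.2)
      _ ≤ (Fintype.card V * p) ^ (Q.biUnion Prod.fst).card * m ^ Fintype.card V :=
          lam_card hA hp1 hp Q
      _ ≤ (Fintype.card V * p) ^ Fintype.card V * m ^ Fintype.card V :=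
          Nat.mul_le_mul_right _ (Nat.pow_le_pow_right hvp (Finset.card_le_univ _))
  have hUcard : U.card ≤ 2 ^ 2 ^ (2 * Fintype.card V) := by
    refine (Finset.card_le_univ _).trans ?_
    rw [Fintype.card_finset, Fintype.card_prod, Fintype.card_finset, Fintype.card_fun,
      Fintype.card_bool, ← pow_add, two_mul]
  calc (lost A k).card * m ^ k ≤ (U.biUnion (fun Q => lam A Q)).card * m ^ k :=
        Nat.mul_le_mul_right _ (Finset.card_le_card hsub)
    _ ≤ (∑ Q ∈ U, (lam A Q).card) * m ^ k := Nat.mul_le_mul_right _ Finset.card_biUnion_le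
    _ = ∑ Q ∈ U, (lam A Q).card * m ^ k := Finset.sum_mul _ _ _
    _ ≤ ∑ _Q ∈ U, (Fintype.card V * p) ^ Fintype.card V * m ^ Fintype.card V :=
        Finset.sum_le_sum heach
    _ = U.card * ((Fintype.card V * p) ^ Fintype.card V * m ^ Fintype.card V) := by
        rw [Finset.sum_const, smul_eq_mul]
    _ ≤ _ := Nat.mul_le_mul_right _ hUcard

/-- Outside the lost labellings, the patterns whose cylinder is contained in `A` depend on few
nodes. -/
theorem junta {A : Tab V m → Prop} {k : ℕ} {l : V → Fin m} (hl : l ∉ lost A k) :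
    ∃ F : Finset V, F.card < k ∧ ∀ c c' : V → Bool, (∀ v ∈ F, c v = c' v) →
      (∀ S, cyl Finset.univ l c S → A S) → ∀ S, cyl Finset.univ l c' S → A S := by
  classical
  refine ⟨(shp A l).biUnion Prod.fst, ?_, ?_⟩
  · unfold lost at hl
    rw [Finset.mem_filter, not_and, not_le] at hl
    exact hl (Finset.mem_univ _)
  · intro c c' hcc hall
    -- a minimal set
    obtain ⟨F, hF, hmin⟩ : ∃ F : Finset V, (∀ S, cyl F l c S → A S) ∧
        ∀ F', F' ⊂ F → ¬ ∀ S, cyl F' l c S → A S := by
      obtain ⟨F, hFm, hFmin⟩ := Finset.exists_min_image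
        ((Finset.univ : Finset (Finset V)).filter (fun F => ∀ S, cyl F l c S → A S)) Finset.card
        ⟨Finset.univ, Finset.mem_filter.2 ⟨Finset.mem_univ _, hall⟩⟩
      rw [Finset.mem_filter] at hFm
      refine ⟨F, hFm.2, fun F' hF' h => ?_⟩
      have := hFmin F' (Finset.mem_filter.2 ⟨Finset.mem_univ _, h⟩)
      have h2 := Finset.card_lt_card hF'
      omega
    intro S hS
    apply hF S
    intro v hv
    rw [hS v (Finset.mem_univ _)]
    refine (hcc v (Finset.mem_biUnion.2 ⟨(F, c), ?_, hv⟩)).symm
    unfold shp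
    rw [Finset.mem_filter]
    exact ⟨Finset.mem_univ _, hF, hmin⟩

/-- Adding a small set to all sets of a family makes them closed. -/
theorem exists_closed {N : ℕ} (R : Fin N → Tab V m → Prop) {ε : ℝ} (hε : 0 ≤ ε) :
    ∃ Err : Tab V m → Prop,
      mea Err ≤ (N * (2 ^ Fintype.card V * (m ^ Fintype.card V * 2 ^ Fintype.card V)) : ℕ) * ε ∧
      ∀ q, Closed ε (fun S => R q S ∨ Err S) := by
  classical
  set X := (Finset.univ : Finset (Finset (Fin N × Finset V × (V → Fin m) × (V → Bool)))).filter
    (fun Q => ∃ Err : Tab V m → Prop, mea Err ≤ Q.card * ε ∧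
      ∀ x ∈ Q, ∀ S, cyl x.2.1 x.2.2.1 x.2.2.2 S → R x.1 S ∨ Err S) with hX
  have hne : X.Nonempty := ⟨∅, by
    rw [hX, Finset.mem_filter]
    refine ⟨Finset.mem_univ _, fun _ => False, ?_, by simp⟩
    unfold mea
    rw [pr_false]; simp⟩
  obtain ⟨Q, hQ, hmax⟩ := Finset.exists_max_image X Finset.card hne
  rw [hX, Finset.mem_filter] at hQ
  obtain ⟨_, Err, hErr, hall⟩ := hQ
  refine ⟨Err, hErr.trans ?_, ?_⟩
  · apply mul_le_mul_of_nonneg_right _ hε
    have : Q.card ≤ N * (2 ^ Fintype.card V * (m ^ Fintype.card V * 2 ^ Fintype.card V)) := by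
      refine (Finset.card_le_univ _).trans (le_of_eq ?_)
      rw [Fintype.card_prod, Fintype.card_prod, Fintype.card_prod, Fintype.card_fin,
        Fintype.card_finset, Fintype.card_fun, Fintype.card_fun, Fintype.card_fin,
        Fintype.card_bool]
    exact_mod_cast this
  · intro q F l c hsmall
    by_cases hin : (q, F, l, c) ∈ Q
    · exact hall _ hin
    · exfalso
      have hins : insert (q, F, l, c) Q ∈ X := by
        rw [hX, Finset.mem_filter]
        refine ⟨Finset.mem_univ _,
          fun S => Err S ∨ (cyl F l c S ∧ ¬ (R q S ∨ Err S)), ?_, ?_⟩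
        · refine (mea_or _ _).trans ?_
          rw [Finset.card_insert_of_notMem hin]
          push_cast
          linarith
        · intro x hx S hS
          rw [Finset.mem_insert] at hx
          rcases hx with rfl | hx
          · by_cases hc : R q S ∨ Err S
            · rcases hc with hc | hc
              · exact Or.inl hc
              · exact Or.inr (Or.inl hc)
            · exact Or.inr (Or.inr ⟨hS, hc⟩)
          · rcases hall x hx S hS with h | h
            · exact Or.inl h
            · exact Or.inr (Or.inl h)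
      have := hmax _ hins
      rw [Finset.card_insert_of_notMem hin] at this
      omega

/-- A path as a sequence. -/
theorem exists_seq {α : Type*} {r : α → α → Prop} {a b : α} (h : Relation.ReflTransGen r a b) :
    ∃ (T : ℕ) (f : ℕ → α), f 0 = a ∧ f T = b ∧ ∀ i, i < T → r (f i) (f (i + 1)) := by
  induction h with
  | refl => exact ⟨0, fun _ => a, rfl, rfl, fun i hi => absurd hi (by omega)⟩
  | @tail b c _ hbc ih =>
    obtain ⟨T, f, h0, hT, hf⟩ := ih
    refine ⟨T + 1, fun i => if i ≤ T then f i else c, ?_, ?_, ?_⟩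
    · simp [h0]
    · simp
    · intro i hi
      change r (if i ≤ T then f i else c) (if i + 1 ≤ T then f (i + 1) else c)
      by_cases hiT : i < T
      · rw [if_pos hiT.le, if_pos (show i + 1 ≤ T from hiT)]
        exact hf i hiT
      · have hiT' : i = T := by omega
        subst hiT'
        rw [if_pos le_rfl, if_neg (by omega), hT]
        exact hbc

/-- **Lifting theorem.** -/
theorem lifting {J Var : Type*} (vio : J → (V → Bool) → Prop) (hV : 1 ≤ Fintype.card V)
    (hm : 1 ≤ m) (y : J → (V → Fin m) → Var) (xpos : (V → Fin m) → Var → Bool)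
    (hxpos : ∀ l z, xpos l z = true → ∃ j, z = y j l) (xneg : Tab V m → Var → Bool)
    (hxneg : ∀ S j l, ¬ vio j (fun v => S (v, l v)) → xneg S (y j l) = true) (k : ℕ)
    (hard : ∀ (T : ℕ) (B : ℕ → Set (V → Bool)), (∀ c, c ∈ B 0) →
      (∀ i, i < T → (∀ c, c ∈ B i → c ∈ B (i + 1)) ∨
        ∃ j, ∀ c, c ∈ B i → c ∉ B (i + 1) → vio j c) →
      (∀ i, i ≤ T → ∃ F : Finset V, F.card < k ∧ ∀ c c' : V → Bool, (∀ v ∈ F, c v = c' v) →
        c ∈ B i → c' ∈ B i) → ∃ c, c ∈ B T)
    {N : ℕ} (P : NBP Var N) (hacc : ∀ l, P.Accepts (xpos l)) (hrej : ∀ S, ¬ P.Accepts (xneg S))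
    {ε : ℝ} (hε : 0 ≤ ε) {p : ℕ} (hp1 : 1 ≤ p)
    (hp : (1 - (1 / 2 : ℝ) ^ Fintype.card V) ^ p ≤ ε)
    (hsmall : (N * (2 ^ Fintype.card V * (m ^ Fintype.card V * 2 ^ Fintype.card V)) : ℕ) * ε
      < (1 / 2 : ℝ) ^ Fintype.card V) :
    m ^ k ≤ N * (2 ^ 2 ^ (2 * Fintype.card V) * (Fintype.card V * p) ^ Fintype.card V) := by
  classical
  by_contra hcon
  rw [not_le] at hcon
  obtain ⟨R, hR⟩ : ∃ R : Fin N → Tab V m → Prop,
      R = fun q S => Relation.ReflTransGen (P.Step (xneg S)) P.src q := ⟨_, rfl⟩
  obtain ⟨Err, hErr, hcl⟩ := exists_closed R hε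
  -- a labelling that is not lost at any state
  obtain ⟨l, hl⟩ : ∃ l : V → Fin m, ∀ q : Fin N, l ∉ lost (fun S => R q S ∨ Err S) k := by
    by_contra hno
    have hno' : ∀ l : V → Fin m, ∃ q : Fin N, l ∈ lost (fun S => R q S ∨ Err S) k := by
      intro l
      by_contra h
      exact hno ⟨l, fun q hq => h ⟨q, hq⟩⟩
    have hcov : (Finset.univ : Finset (V → Fin m)) ⊆ (Finset.univ : Finset (Fin N)).biUnion
        (fun q => lost (fun S => R q S ∨ Err S) k) := by
      intro l _
      obtain ⟨q, hq⟩ := hno' l
      exact Finset.mem_biUnion.2 ⟨q, Finset.mem_univ _, hq⟩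
    have h1 : m ^ Fintype.card V ≤ ∑ q : Fin N, (lost (fun S => R q S ∨ Err S) k).card := by
      have := (Finset.card_le_card hcov).trans Finset.card_biUnion_le
      rw [Finset.card_univ, Fintype.card_fun, Fintype.card_fin] at this
      exact this
    have h2 : m ^ Fintype.card V * m ^ k ≤ N * (2 ^ 2 ^ (2 * Fintype.card V) *
        ((Fintype.card V * p) ^ Fintype.card V * m ^ Fintype.card V)) := by
      calc m ^ Fintype.card V * m ^ k
          ≤ (∑ q : Fin N, (lost (fun S => R q S ∨ Err S) k).card) * m ^ k :=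
            Nat.mul_le_mul_right _ h1
        _ = ∑ q : Fin N, (lost (fun S => R q S ∨ Err S) k).card * m ^ k := Finset.sum_mul _ _ _
        _ ≤ ∑ _q : Fin N, 2 ^ 2 ^ (2 * Fintype.card V) *
            ((Fintype.card V * p) ^ Fintype.card V * m ^ Fintype.card V) :=
            Finset.sum_le_sum (fun q _ => lost_card (hcl q) hp1 hp hV hm k)
        _ = _ := by rw [Finset.sum_const, Finset.card_univ, Fintype.card_fin, smul_eq_mul]
    have hmpos : 0 < m ^ Fintype.card V := Nat.pow_pos hm
    have h3 : m ^ Fintype.card V * m ^ k ≤ m ^ Fintype.card V *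
        (N * (2 ^ 2 ^ (2 * Fintype.card V) * (Fintype.card V * p) ^ Fintype.card V)) := by
      refine h2.trans (le_of_eq ?_)
      ring
    have h4 := Nat.le_of_mul_le_mul_left h3 hmpos
    omega
  -- the chain along an accepting path
  obtain ⟨T, f, hf0, hfT, hf⟩ := exists_seq (hacc l)
  obtain ⟨c, hc⟩ := hard T (fun i => {c | ∀ S, cyl Finset.univ l c S → R (f i) S ∨ Err S})
    (by
      intro c S _
      left
      rw [hR, hf0])
    (by
      intro i hi
      rcases hf i hi with hfree | ⟨z, hz, hzx⟩
      · left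
        intro c hc S hS
        rcases hc S hS with h | h
        · left
          rw [hR] at h ⊢
          exact Relation.ReflTransGen.tail h (Or.inl hfree)
        · exact Or.inr h
      · right
        obtain ⟨j, hj⟩ := hxpos l z hzx
        refine ⟨j, fun c hc hc' => ?_⟩
        by_contra hv
        apply hc'
        intro S hS
        rcases hc S hS with h | h
        · left
          rw [hR] at h ⊢
          refine Relation.ReflTransGen.tail h (Or.inr ⟨z, hz, ?_⟩)
          rw [hj]
          apply hxneg
          have : (fun v => S (v, l v)) = c := funext fun v => hS v (Finset.mem_univ _)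
          rw [this]
          exact hv
        · exact Or.inr h)
    (by
      intro i _
      obtain ⟨F, hF, hF2⟩ := junta (hl (f i))
      exact ⟨F, hF, fun c c' h hc => hF2 c c' h hc⟩)
  have hsub : ∀ S, cyl Finset.univ l c S → Err S := by
    intro S hS
    rcases hc S hS with h | h
    · exfalso
      rw [hR, hfT] at h
      exact hrej S h
    · exact h
  have h1 := mea_mono hsub
  rw [mea_cyl, Finset.card_univ] at h1
  linarith

end Pool.Agent.H589R2.MNL
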