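import Pool.Agent.H589R2.MNL.RoundsDef

/-!
# Few NOT gates: the general form
-/

open Finset

namespace Pool.Agent.H589R2.MNL

variable {Var : Type*}

/-- **Few NOT gates.**  If a computation in rounds decides the disjunction of `M` copies of `g` on
the inputs with blocks in `K`, and `∏ (w i + 1) ≤ M`, then a disjunction of substitution instances
of its programs accepts where `g` holds and rejects the given inputs. -/
theorem transfer_gen {Ω : Type*} {M : ℕ} (K : Set (Var → Bool)) (hK0 : (fun _ => false) ∈ K)
    (g : (Var → Bool) → Prop) (neg : Ω → Var → Bool) (hKn : ∀ S, neg S ∈ K)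
    (hneg : ∀ S, ¬ g (neg S)) (h0 : ¬ g (fun _ => false)) (d : ℕ) (w : ℕ → ℕ)
    (N : ℕ → ℕ → (ℕ → ℕ → Prop) → Net (Fin M × Var))
    (hdep : ∀ i k A A', (∀ j < i, ∀ k' < w j, (A j k' ↔ A' j k')) → N i k A = N i k A') (s : ℕ)
    (hsize : ∀ A, (∑ i ∈ Finset.range d, ∑ k ∈ Finset.range (w i), (N i k A).size)
      + (N d 0 A).size ≤ s)
    (hdec : ∀ X : Fin M × Var → Bool, (∀ j, (fun v => X (j, v)) ∈ K) →
      ∃ A : ℕ → ℕ → Prop, Cons d w N A X ∧
      ((N d 0 A).Accepts X ↔ ∃ j, g (fun v => X (j, v))))
    (hprod : ∏ i ∈ Finset.range d, (w i + 1) ≤ M) :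
    ∃ (ι : Type) (_ : Fintype ι) (F : ι → Net Var) (U : ι → Prop), ∑ o, (F o).size ≤ s ∧
      (∀ o, ∃ i k A, ∃ ρ : Fin M × Var → Bool ⊕ Var, F o = (N i k A).pull ρ) ∧
      (∀ x ∈ K, g x → ∃ o, U o ∧ (F o).Accepts x) ∧
      ∀ S, ¬ ∃ o, U o ∧ (F o).Accepts (neg S) := by
  classical
  by_contra hcon
  -- greedy chain
  have chain : ∀ j ≤ M, ∃ (X : Fin M × Var → Bool) (A : ℕ → ℕ → Prop),
      (∀ i : Fin M, j ≤ i.1 → ∀ v, X (i, v) = false) ∧ (∀ i : Fin M, ¬ g (fun v => X (i, v))) ∧
      (∀ i : Fin M, (fun v => X (i, v)) ∈ K) ∧
      Cons d w N A X ∧ j ≤ rk w A d := by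
    intro j
    induction j with
    | zero =>
      intro _
      obtain ⟨A, hA, _⟩ := hdec (fun _ => false) (fun _ => hK0)
      exact ⟨fun _ => false, A, fun _ _ _ => rfl, fun _ => h0, fun _ => hK0, hA, Nat.zero_le _⟩
    | succ j ih =>
      intro hj
      obtain ⟨X, A, hX1, hX2, hXK, hA, hrk⟩ := ih (by omega)
      obtain ⟨jj, hjj⟩ : ∃ jj : Fin M, jj.1 = j := ⟨⟨j, by omega⟩, rfl⟩
      have hXle : ∀ y : Var → Bool, ∀ z, X z = true → setB X jj y z = true := by
        rintro y ⟨i, v⟩ hz
        unfold setB
        by_cases hi : i = jj
        · subst hi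
          rw [hX1 i (by omega) v] at hz
          exact absurd hz (by simp)
        · simp only [hi, if_false]; exact hz
      have hblk : ∀ (y : Var → Bool) (i : Fin M), (fun v => setB X jj y (i, v))
          = if i = jj then y else fun v => X (i, v) := by
        intro y i
        funext v
        unfold setB
        by_cases hi : i = jj
        · simp [hi]
        · simp [hi]
      have hKset : ∀ y ∈ K, ∀ i : Fin M, (fun v => setB X jj y (i, v)) ∈ K := by
        intro y hy i
        rw [hblk]
        by_cases hi : i = jj
        · rw [if_pos hi]; exact hy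
        · rw [if_neg hi]; exact hXK i
      by_cases hall : ∀ S, ∀ A', Cons d w N A' (setB X jj (neg S)) → Agr d w A A'
      · exfalso
        apply hcon
        -- the programs
        set I := (Finset.range d).sigma (fun i => Finset.range (w i)) with hI
        set F : Option {p : Σ _ : ℕ, ℕ // p ∈ I} → Net Var := fun o => match o with
          | none => (N d 0 A).pull (fun z => if z.1 = jj then Sum.inr z.2 else Sum.inl (X z))
          | some p => (N p.1.1 p.1.2 A).pull
              (fun z => if z.1 = jj then Sum.inr z.2 else Sum.inl (X z)) with hF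
        set U : Option {p : Σ _ : ℕ, ℕ // p ∈ I} → Prop := fun o => match o with
          | none => True
          | some p => ¬ A p.1.1 p.1.2 with hU
        have hval : ∀ x : Var → Bool, (fun z : Fin M × Var => Sum.elim id x
            (if z.1 = jj then Sum.inr z.2 else Sum.inl (X z))) = setB X jj x := by
          intro x
          funext z
          unfold setB
          by_cases hz : z.1 = jj
          · simp [hz]
          · simp [hz]
        have hFn : ∀ x, (F none).Accepts x ↔ (N d 0 A).Accepts (setB X jj x) := by
          intro x
          rw [hF]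
          simp only
          rw [Net.pull_accepts, hval]
        have hFs : ∀ p x, (F (some p)).Accepts x ↔ (N p.1.1 p.1.2 A).Accepts (setB X jj x) := by
          intro p x
          rw [hF]
          simp only
          rw [Net.pull_accepts, hval]
        refine ⟨Option {p : Σ _ : ℕ, ℕ // p ∈ I}, inferInstance, F, U, ?_, ?_, ?_, ?_⟩
        · rw [Fintype.sum_option]
          have h1 : ∑ p : {p : Σ _ : ℕ, ℕ // p ∈ I}, (F (some p)).size
              = ∑ i ∈ Finset.range d, ∑ k ∈ Finset.range (w i), (N i k A).size := by
            rw [← Finset.sum_sigma (Finset.range d) (fun i => Finset.range (w i))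
              (fun p => (N p.1 p.2 A).size)]
            rw [← hI]
            exact Finset.sum_coe_sort I (fun p => (N p.1 p.2 A).size)
          have h2 : (F none).size = (N d 0 A).size := rfl
          rw [h1, h2, add_comm]
          exact hsize A
        · rintro (_ | p)
          · exact ⟨d, 0, A, _, rfl⟩
          · exact ⟨p.1.1, p.1.2, A, _, rfl⟩
        · intro x hxK hx
          by_contra hno
          have hno1 : ¬ (N d 0 A).Accepts (setB X jj x) := by
            intro h
            exact hno ⟨none, trivial, (hFn x).2 h⟩
          have hno2 : ∀ i < d, ∀ k < w i, ¬ A i k → ¬ (N i k A).Accepts (setB X jj x) := by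
            intro i hi k hk hAik h
            refine hno ⟨some ⟨⟨i, k⟩, ?_⟩, hAik, (hFs _ x).2 h⟩
            rw [hI, Finset.mem_sigma, Finset.mem_range, Finset.mem_range]
            exact ⟨hi, hk⟩
          obtain ⟨A', hA', hfin⟩ := hdec (setB X jj x) (hKset x hxK)
          have hagr : ∀ e ≤ d, Agr e w A A' := by
            intro e
            induction e with
            | zero => intro _ i hi; exact absurd hi (by omega)
            | succ e ihe =>
              intro he i hi k hk
              have ih' := ihe (by omega)
              rcases Nat.lt_succ_iff_lt_or_eq.1 hi with hi | rfl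
              · exact ih' i hi k hk
              · have heqN := hdep i k A A' ih'
                constructor
                · intro h
                  have h3 := (hA i (by omega) k hk).1 h
                  have h4 := (N i k A).mono (hXle x) h3
                  rw [heqN] at h4
                  exact (hA' i (by omega) k hk).2 h4
                · intro h
                  by_contra hn
                  have h3 := (hA' i (by omega) k hk).1 h
                  rw [← heqN] at h3
                  exact hno2 i (by omega) k hk hn h3
          have h5 : (N d 0 A').Accepts (setB X jj x) := by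
            rw [hfin]
            refine ⟨jj, ?_⟩
            rw [hblk, if_pos rfl]
            exact hx
          rw [← hdep d 0 A A' (hagr d le_rfl)] at h5
          exact hno1 h5
        · rintro S ⟨o, ho1, ho2⟩
          obtain ⟨A', hA', hfin⟩ := hdec (setB X jj (neg S)) (hKset _ (hKn S))
          have hag := hall S A' hA'
          have hfalse : ¬ ∃ j', g (fun v => setB X jj (neg S) (j', v)) := by
            rintro ⟨j', hj'⟩
            rw [hblk] at hj'
            by_cases hjj' : j' = jj
            · rw [if_pos hjj'] at hj'; exact hneg S hj'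
            · rw [if_neg hjj'] at hj'; exact hX2 j' hj'
          rcases o with _ | p
          · rw [hFn, hdep d 0 A A' hag, hfin] at ho2
            exact hfalse ho2
          · have hp : p.1.1 < d ∧ p.1.2 < w p.1.1 := by
              obtain ⟨h1, h2⟩ := Finset.mem_sigma.1 p.2
              exact ⟨Finset.mem_range.1 h1, Finset.mem_range.1 h2⟩
            have ho1' : ¬ A p.1.1 p.1.2 := ho1
            rw [hFs] at ho2
            have heqN := hdep p.1.1 p.1.2 A A' (fun j' hj' k' hk' => hag j' (by omega) k' hk')
            rw [heqN] at ho2
            exact ho1' ((hag p.1.1 hp.1 p.1.2 hp.2).2 ((hA' p.1.1 hp.1 p.1.2 hp.2).2 ho2))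
      · have hex : ∃ S A', Cons d w N A' (setB X jj (neg S)) ∧ ¬ Agr d w A A' := by
          by_contra hno
          apply hall
          intro S A' hA'
          by_contra hn
          exact hno ⟨S, A', hA', hn⟩
        obtain ⟨S, A', hA', hn⟩ := hex
        obtain ⟨h1, h2⟩ := rk_mono hdep (hXle (neg S)) hA hA' d le_rfl
        refine ⟨setB X jj (neg S), A', ?_, ?_, hKset _ (hKn S), hA', ?_⟩
        · intro i hi v
          unfold setB
          have : i ≠ jj := by
            intro h
            rw [h, hjj] at hi
            omega
          simp only [this, if_false]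
          exact hX1 i (by omega) v
        · intro i
          rw [hblk]
          by_cases hi : i = jj
          · rw [if_pos hi]; exact hneg S
          · rw [if_neg hi]; exact hX2 i
        · rcases lt_or_eq_of_le h1 with hlt | heq
          · omega
          · exact absurd (h2 heq) hn
  obtain ⟨X, A, _, _, _, _, hrk⟩ := chain M le_rfl
  have := rk_lt w A d
  omega

end Pool.Agent.H589R2.MNL
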