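import Pool.Agent.H589R2.MNL.Lift
import Pool.Agent.H589R2.MNL.Rounds2

/-!
# Lifting reversible variable space to undirected networks
-/

open Finset

namespace Pool.Agent.H589R2.MNL

open Pool.Agent.H589R2.OV

/-- The program is an undirected network: all its edges go in both directions. -/
def NBP.Undirected {Var : Type*} {N : ℕ} (P : NBP Var N) : Prop :=
  ∀ q q' e, P.edge q q' e → P.edge q' q e

/-- **Lifting theorem for undirected networks.** -/
theorem lifting_rev {V : Type} [Fintype V] [DecidableEq V] {m : ℕ} {J Var : Type*}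
    (vio : J → (V → Bool) → Prop) (hV : 1 ≤ Fintype.card V)
    (hm : 1 ≤ m) (y : J → (V → Fin m) → Var) (xpos : (V → Fin m) → Var → Bool)
    (hxpos : ∀ l z, xpos l z = true → ∃ j, z = y j l) (xneg : Tab V m → Var → Bool)
    (hxneg : ∀ S j l, ¬ vio j (fun v => S (v, l v)) → xneg S (y j l) = true) (k : ℕ)
    (hard : ∀ (T : ℕ) (B : ℕ → Set (V → Bool)), (∀ c, c ∈ B 0) →
      (∀ i, i < T → (∀ c, c ∈ B i ↔ c ∈ B (i + 1)) ∨
        ∃ j, ∀ c, ¬ vio j c → (c ∈ B i ↔ c ∈ B (i + 1))) →
      (∀ i, i ≤ T → ∃ F : Finset V, F.card < k ∧ ∀ c c' : V → Bool, (∀ v ∈ F, c v = c' v) →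
        c ∈ B i → c' ∈ B i) → ∃ c, c ∈ B T)
    {N : ℕ} (P : NBP Var N) (hund : P.Undirected)
    (hacc : ∀ l, P.Accepts (xpos l)) (hrej : ∀ S, ¬ P.Accepts (xneg S))
    {ε : ℝ} (hε : 0 ≤ ε) {p : ℕ} (hp1 : 1 ≤ p)
    (hp : (1 - (1 / 2 : ℝ) ^ Fintype.card V) ^ p ≤ ε)
    (hsmall : (N * (2 ^ Fintype.card V * (m ^ Fintype.card V * 2 ^ Fintype.card V)) : ℕ) * ε
      < (1 / 2 : ℝ) ^ Fintype.card V) :
    m ^ k ≤ N * (2 ^ 2 ^ (2 * Fintype.card V) * (Fintype.card V * p) ^ Fintype.card V) := by
  classical
  by_contra hcon
  rw [not_le] at hcon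
  obtain ⟨R, hR⟩ : ∃ R : Fin N → Tab V m → Prop,
      R = fun q S => Relation.ReflTransGen (P.Step (xneg S)) P.src q := ⟨_, rfl⟩
  obtain ⟨Err, hErr, hcl⟩ := exists_closed R hε
  -- a labelling that is not lost at any state
  obtain ⟨l, hl⟩ : ∃ l : V → Fin m, ∀ q : Fin N, l ∉ lost (fun S => R q S ∨ Err S) k := by
    by_contra hno
    have hno' : ∀ l : V → Fin m, ∃ q : Fin N, l ∈ lost (fun S => R q S ∨ Err S) k := by
      intro l
      by_contra h
      exact hno ⟨l, fun q hq => h ⟨q, hq⟩⟩
    have hcov : (Finset.univ : Finset (V → Fin m)) ⊆ (Finset.univ : Finset (Fin N)).biUnion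
        (fun q => lost (fun S => R q S ∨ Err S) k) := by
      intro l _
      obtain ⟨q, hq⟩ := hno' l
      exact Finset.mem_biUnion.2 ⟨q, Finset.mem_univ _, hq⟩
    have h1 : m ^ Fintype.card V ≤ ∑ q : Fin N, (lost (fun S => R q S ∨ Err S) k).card := by
      have := (Finset.card_le_card hcov).trans Finset.card_biUnion_le
      rw [Finset.card_univ, Fintype.card_fun, Fintype.card_fin] at this
      exact this
    have h2 : m ^ Fintype.card V * m ^ k ≤ N * (2 ^ 2 ^ (2 * Fintype.card V) *
        ((Fintype.card V * p) ^ Fintype.card V * m ^ Fintype.card V)) := by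
      calc m ^ Fintype.card V * m ^ k
          ≤ (∑ q : Fin N, (lost (fun S => R q S ∨ Err S) k).card) * m ^ k :=
            Nat.mul_le_mul_right _ h1
        _ = ∑ q : Fin N, (lost (fun S => R q S ∨ Err S) k).card * m ^ k := Finset.sum_mul _ _ _
        _ ≤ ∑ _q : Fin N, 2 ^ 2 ^ (2 * Fintype.card V) *
            ((Fintype.card V * p) ^ Fintype.card V * m ^ Fintype.card V) :=
            Finset.sum_le_sum (fun q _ => lost_card (hcl q) hp1 hp hV hm k)
        _ = _ := by rw [Finset.sum_const, Finset.card_univ, Fintype.card_fin, smul_eq_mul]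
    have hmpos : 0 < m ^ Fintype.card V := Nat.pow_pos hm
    have h3 : m ^ Fintype.card V * m ^ k ≤ m ^ Fintype.card V *
        (N * (2 ^ 2 ^ (2 * Fintype.card V) * (Fintype.card V * p) ^ Fintype.card V)) := by
      refine h2.trans (le_of_eq ?_)
      ring
    have h4 := Nat.le_of_mul_le_mul_left h3 hmpos
    omega
  -- the chain along an accepting path
  obtain ⟨T, f, hf0, hfT, hf⟩ := exists_seq (hacc l)
  have hstepsym : ∀ (x : Var → Bool) q q', P.Step x q q' → P.Step x q' q := by
    rintro x q q' (h | ⟨z, h1, h2⟩)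
    · exact Or.inl (hund _ _ _ h)
    · exact Or.inr ⟨z, hund _ _ _ h1, h2⟩
  obtain ⟨c, hc⟩ := hard T (fun i => {c | ∀ S, cyl Finset.univ l c S → R (f i) S ∨ Err S})
    (by
      intro c S _
      left
      rw [hR, hf0])
    (by
      intro i hi
      rcases hf i hi with hfree | ⟨z, hz, hzx⟩
      · left
        intro c
        have key : ∀ S, R (f i) S ↔ R (f (i + 1)) S := by
          intro S
          rw [hR]
          constructor
          · intro h; exact Relation.ReflTransGen.tail h (Or.inl hfree)
          · intro h; exact Relation.ReflTransGen.tail h (Or.inl (hund _ _ _ hfree))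
        constructor
        · intro hc S hS
          rcases hc S hS with h | h
          · exact Or.inl ((key S).1 h)
          · exact Or.inr h
        · intro hc S hS
          rcases hc S hS with h | h
          · exact Or.inl ((key S).2 h)
          · exact Or.inr h
      · right
        obtain ⟨j, hj⟩ := hxpos l z hzx
        refine ⟨j, fun c hv => ?_⟩
        have key : ∀ S, cyl Finset.univ l c S → (R (f i) S ↔ R (f (i + 1)) S) := by
          intro S hS
          have hstep : P.Step (xneg S) (f i) (f (i + 1)) := by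
            refine Or.inr ⟨z, hz, ?_⟩
            rw [hj]
            apply hxneg
            have : (fun v => S (v, l v)) = c := funext fun v => hS v (Finset.mem_univ _)
            rw [this]
            exact hv
          rw [hR]
          constructor
          · intro h; exact Relation.ReflTransGen.tail h hstep
          · intro h; exact Relation.ReflTransGen.tail h (hstepsym _ _ _ hstep)
        constructor
        · intro hc S hS
          rcases hc S hS with h | h
          · exact Or.inl ((key S hS).1 h)
          · exact Or.inr h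
        · intro hc S hS
          rcases hc S hS with h | h
          · exact Or.inl ((key S hS).2 h)
          · exact Or.inr h)
    (by
      intro i _
      obtain ⟨F, hF, hF2⟩ := junta (hl (f i))
      exact ⟨F, hF, fun c c' h hc => hF2 c c' h hc⟩)
  have hsub : ∀ S, cyl Finset.univ l c S → Err S := by
    intro S hS
    rcases hc S hS with h | h
    · exfalso
      rw [hR, hfT] at h
      exact hrej S h
    · exact h
  have h1 := mea_mono hsub
  rw [mea_cyl, Finset.card_univ] at h1
  linarith

/-- Steps of the disjunction of undirected networks. -/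
def UStep {ι : Type} {Var : Type*} (N : ι → Net Var) (U : ι → Prop) (a b : OrSt N)
    (e : Option Var) : Prop := OrStep N U a b e ∨ OrStep N U b a e

/-- The disjunction of finitely many undirected networks, some of them disabled. -/
theorem exists_or_und {ι : Type} [Fintype ι] {Var : Type*} (N : ι → Net Var) (U : ι → Prop)
    (hN : ∀ i, (N i).prog.Undirected) :
    ∃ P : NBP Var ((∑ i, (N i).size) + 1 + 1), P.Undirected ∧
      ∀ x, P.Accepts x ↔ ∃ i, U i ∧ (N i).Accepts x := by
  classical
  have hcard : Fintype.card (OrSt N) = (∑ i, (N i).size) + 1 + 1 := by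
    rw [Fintype.card_option, Fintype.card_option, Fintype.card_sigma]
    simp
  obtain ⟨e⟩ : Nonempty (OrSt N ≃ Fin ((∑ i, (N i).size) + 1 + 1)) :=
    ⟨Fintype.equivFinOfCardEq hcard⟩
  refine ⟨⟨fun a b y => UStep N U (e.symm a) (e.symm b) y, e none, e (some none)⟩,
    fun q q' y h => Or.symm h, fun x => ?_⟩
  unfold NBP.Accepts
  constructor
  · intro h
    by_contra hno
    have key : ∀ b : Fin ((∑ i, (N i).size) + 1 + 1), Relation.ReflTransGen
        (NBP.Step ⟨fun a b y => UStep N U (e.symm a) (e.symm b) y, e none, e (some none)⟩ x)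
        (e none) b → e.symm b = none ∨ (∃ i, U i ∧ ∃ q, e.symm b = some (some ⟨i, q⟩) ∧
          Relation.ReflTransGen ((N i).prog.Step x) (N i).prog.src q) := by
      intro b hb
      induction hb with
      | refl => left; simp
      | @tail b c _ hbc ih =>
        have hcases : ∃ y, UStep N U (e.symm b) (e.symm c) y ∧ (y = none ∨ ∃ z, y = some z ∧
            x z = true) := by
          rcases hbc with h1 | ⟨z, h1, h2⟩
          · exact ⟨none, h1, Or.inl rfl⟩
          · exact ⟨some z, h1, Or.inr ⟨z, rfl, h2⟩⟩
        obtain ⟨y, hy, hyx⟩ := hcases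
        generalize e.symm c = c' at hy ⊢
        rcases ih with ih | ⟨i, hi, q, ih, hq⟩
        · rw [ih] at hy
          rcases hy with hy | hy
          · cases hy with
            | start i hi => exact Or.inr ⟨i, hi, _, rfl, Relation.ReflTransGen.refl⟩
          · cases hy
        · rw [ih] at hy
          have hrel : ∀ q q' : Fin (N i).size, (N i).prog.edge q q' y →
              (N i).prog.Step x q q' := by
            intro q q' hqq
            rcases hyx with rfl | ⟨z, rfl, hz⟩
            · exact Or.inl hqq
            · exact Or.inr ⟨z, hqq, hz⟩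
          rcases hy with hy | hy
          · cases hy with
            | stop => exact absurd ⟨i, hi, hq⟩ hno
            | mid _ _ q' _ he => exact Or.inr ⟨i, hi, q', rfl, hq.tail (hrel _ _ he)⟩
          · cases hy with
            | start => exact Or.inl rfl
            | mid _ q' _ _ he => exact Or.inr ⟨i, hi, q', rfl, hq.tail (hrel _ _ (hN i _ _ _ he))⟩
    rcases key _ h with h1 | ⟨i, _, q, h1, _⟩
    · simp at h1
    · simp at h1
  · intro h
    rw [← or_reach N U x] at h
    refine Relation.ReflTransGen.lift e (fun a b hab => ?_) _ _ h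
    rcases hab with hab | ⟨y, hab, hy⟩
    · left; left; simpa using hab
    · right; exact ⟨y, Or.inl (by simpa using hab), hy⟩

theorem pull_undirected {Var Var' : Type*} (ρ : Var → Bool ⊕ Var') {N : Net Var}
    (hN : N.prog.Undirected) : (N.pull ρ).prog.Undirected := by
  intro q q' e h
  rcases e with _ | y
  · have h' : N.prog.edge q q' none ∨ ∃ z, N.prog.edge q q' (some z) ∧ ρ z = Sum.inl true := h
    rcases h' with h' | ⟨z, h1, h2⟩
    · exact Or.inl (hN _ _ _ h')
    · exact Or.inr ⟨z, hN _ _ _ h1, h2⟩
  · have h' : ∃ z, N.prog.edge q q' (some z) ∧ ρ z = Sum.inr y := h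
    obtain ⟨z, h1, h2⟩ := h'
    exact ⟨z, hN _ _ _ h1, h2⟩

end Pool.Agent.H589R2.MNL
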