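import Mathlib

/-!
# Reversible variable space of a path

A chain of sets of colourings of `n` points on a line, from all colourings to none, in which
consecutive sets differ only in colourings violating one constraint of the path, contains a set that
depends on more than `d` points if `2 ^ d ≤ n`.
-/

open Finset

namespace Pool.Agent.H589R2.MNL

/-- Configurations of the reversible pebble game with `n` pebbles on the points `1, 2, …`. -/
def Inv : ℕ → Finset ℕ → Prop
  | 0, S => S = ∅
  | n + 1, S => S.card ≤ n + 1 ∧ ((S.filter (fun i => 2 ^ n < i) = ∅) ∨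
      (¬ Inv n (S.filter (fun i => i ≤ 2 ^ n)) ∧
        Inv n ((S.filter (fun i => 2 ^ n < i)).image (fun i => i - 2 ^ n))))

theorem inv_empty (n : ℕ) : Inv n ∅ := by
  cases n with
  | zero => exact rfl
  | succ n => exact ⟨by simp, Or.inl (by simp)⟩

theorem inv_card {n : ℕ} {S : Finset ℕ} (h : Inv n S) : S.card ≤ n := by
  cases n with
  | zero =>
    have h' : S = ∅ := h
    rw [h']; simp
  | succ n => exact h.1

theorem inv_lt (n : ℕ) : ∀ S : Finset ℕ, Inv n S → ∀ i ∈ S, i < 2 ^ n := by
  induction n with
  | zero =>
    intro S h i hi
    have h' : S = ∅ := h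
    rw [h'] at hi
    simp at hi
  | succ n ih =>
    rintro S ⟨_, h | ⟨_, h⟩⟩ i hi
    · have h1 : ¬ 2 ^ n < i := by
        intro hc
        have : i ∈ S.filter (fun i => 2 ^ n < i) := Finset.mem_filter.2 ⟨hi, hc⟩
        rw [h] at this
        simp at this
      have h2 : 2 ^ (n + 1) = 2 * 2 ^ n := by ring
      have h3 : 0 < 2 ^ n := by positivity
      omega
    · by_cases hc : 2 ^ n < i
      · have h1 := ih _ h (i - 2 ^ n) (Finset.mem_image_of_mem _ (Finset.mem_filter.2 ⟨hi, hc⟩))
        have h2 : 2 ^ (n + 1) = 2 * 2 ^ n := by ring
        omega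
      · have h2 : 2 ^ (n + 1) = 2 * 2 ^ n := by ring
        have h3 : 0 < 2 ^ n := by positivity
        omega

/-- The moves are reversible. -/
theorem inv_step (n : ℕ) : ∀ (S : Finset ℕ) (j : ℕ), j ∉ S → 1 ≤ j → (j = 1 ∨ j - 1 ∈ S) →
    S.card + 1 ≤ n → (Inv n S ↔ Inv n (insert j S)) := by
  induction n with
  | zero => intro S j _ _ _ h; omega
  | succ n ih =>
    intro S j hjS hj1 hleg hcard
    have hcard' : (insert j S).card ≤ n + 1 := by
      rw [Finset.card_insert_of_notMem hjS]; exact hcard
    have hcardS : S.card ≤ n + 1 := by omega
    obtain ⟨L, hL⟩ : ∃ L, L = S.filter (fun i => i ≤ 2 ^ n) := ⟨_, rfl⟩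
    obtain ⟨U, hU⟩ : ∃ U, U = S.filter (fun i => 2 ^ n < i) := ⟨_, rfl⟩
    have hLU : L.card + U.card = S.card := by
      rw [hL, hU]
      have := Finset.card_filter_add_card_filter_not (s := S) (p := fun i => i ≤ 2 ^ n)
      have h2 : S.filter (fun i => ¬ i ≤ 2 ^ n) = S.filter (fun i => 2 ^ n < i) := by
        apply Finset.filter_congr
        intro i _
        exact not_le
      rw [h2] at this
      exact this
    have hInvS : Inv (n + 1) S ↔ (U = ∅ ∨ (¬ Inv n L ∧ Inv n (U.image (fun i => i - 2 ^ n)))) := by
      rw [hL, hU]
      exact ⟨fun h => h.2, fun h => ⟨hcardS, h⟩⟩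
    by_cases hj : j ≤ 2 ^ n
    · -- a move in the lower part
      have hL' : (insert j S).filter (fun i => i ≤ 2 ^ n) = insert j L := by
        rw [hL, Finset.filter_insert, if_pos hj]
      have hU' : (insert j S).filter (fun i => 2 ^ n < i) = U := by
        rw [hU, Finset.filter_insert, if_neg (by omega)]
      have hInvS' : Inv (n + 1) (insert j S) ↔
          (U = ∅ ∨ (¬ Inv n (insert j L) ∧ Inv n (U.image (fun i => i - 2 ^ n)))) := by
        rw [← hL', ← hU']
        exact ⟨fun h => h.2, fun h => ⟨hcard', h⟩⟩
      rw [hInvS, hInvS']
      by_cases hUe : U = ∅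
      · simp [hUe]
      · have hUc : 1 ≤ U.card := Finset.card_pos.2 (Finset.nonempty_iff_ne_empty.2 hUe)
        have hjL : j ∉ L := by
          rw [hL, Finset.mem_filter]; exact fun h => hjS h.1
        have hlegL : j = 1 ∨ j - 1 ∈ L := by
          rcases hleg with h | h
          · exact Or.inl h
          · right
            rw [hL, Finset.mem_filter]
            exact ⟨h, by omega⟩
        rw [ih L j hjL hj1 hlegL (by omega)]
    · -- a move in the upper part
      have hj' : 2 ^ n < j := by omega
      have hL' : (insert j S).filter (fun i => i ≤ 2 ^ n) = L := by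
        rw [hL, Finset.filter_insert, if_neg hj]
      have hU' : (insert j S).filter (fun i => 2 ^ n < i) = insert j U := by
        rw [hU, Finset.filter_insert, if_pos hj']
      have hInvS' : Inv (n + 1) (insert j S) ↔
          (¬ Inv n L ∧ Inv n (insert (j - 2 ^ n) (U.image (fun i => i - 2 ^ n)))) := by
        have e : Inv (n + 1) (insert j S) ↔ (insert j U = ∅ ∨
            (¬ Inv n L ∧ Inv n ((insert j U).image (fun i => i - 2 ^ n)))) := by
          rw [← hL', ← hU']
          exact ⟨fun h => h.2, fun h => ⟨hcard', h⟩⟩
        rw [e, Finset.image_insert]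
        constructor
        · rintro (h | h)
          · exact absurd h (Finset.insert_ne_empty _ _)
          · exact h
        · intro h; exact Or.inr h
      rw [hInvS, hInvS']
      by_cases hInvL : Inv n L
      · -- then the upper part is empty and the move is impossible
        constructor
        · rintro (hUe | ⟨h, _⟩)
          · exfalso
            rcases hleg with h | h
            · have : 0 < 2 ^ n := by positivity
              omega
            · have h1 : ¬ 2 ^ n < j - 1 := by
                intro hc
                have : j - 1 ∈ U := by rw [hU]; exact Finset.mem_filter.2 ⟨h, hc⟩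
                rw [hUe] at this
                simp at this
              have h2 : j - 1 ∈ L := by
                rw [hL]; exact Finset.mem_filter.2 ⟨h, by omega⟩
              have h3 := inv_lt n L hInvL (j - 1) h2
              omega
          · exact absurd hInvL h
        · rintro ⟨h, _⟩
          exact absurd hInvL h
      · have hLne : L ≠ ∅ := by
          rintro rfl
          exact hInvL (inv_empty n)
        have hLc : 1 ≤ L.card := Finset.card_pos.2 (Finset.nonempty_iff_ne_empty.2 hLne)
        set U' := U.image (fun i => i - 2 ^ n) with hU''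
        have hjU' : j - 2 ^ n ∉ U' := by
          rw [hU'', Finset.mem_image]
          rintro ⟨i, hi, hij⟩
          rw [hU, Finset.mem_filter] at hi
          have : i = j := by omega
          exact hjS (this ▸ hi.1)
        have hU'c : U'.card ≤ U.card := Finset.card_image_le
        have hstep : (j - 2 ^ n = 1 ∨ j - 2 ^ n - 1 ∈ U') →
            (Inv n U' ↔ Inv n (insert (j - 2 ^ n) U')) :=
          fun hl => ih U' (j - 2 ^ n) hjU' (by omega) hl (by omega)
        have hUU' : U = ∅ ↔ U' = ∅ := by rw [hU'', Finset.image_eq_empty]
        have hlegU : j - 2 ^ n = 1 ∨ j - 2 ^ n - 1 ∈ U' := by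
          rcases hleg with h | h
          · have : 0 < 2 ^ n := by positivity
            omega
          · by_cases hc : 2 ^ n < j - 1
            · right
              rw [hU'', Finset.mem_image]
              exact ⟨j - 1, by rw [hU]; exact Finset.mem_filter.2 ⟨h, hc⟩, by omega⟩
            · left; omega
        constructor
        · rintro (hUe | ⟨_, h⟩)
          · refine ⟨hInvL, (hstep hlegU).1 ?_⟩
            rw [hUU'.1 hUe]
            exact inv_empty n
          · exact ⟨hInvL, (hstep hlegU).1 h⟩
        · rintro ⟨_, h⟩
          exact Or.inr ⟨hInvL, (hstep hlegU).2 h⟩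

section Moebius

variable {V : Type*} [Fintype V] [DecidableEq V]

/-- The colouring of a set. -/
def chi (T : Finset V) : V → Bool := fun v => decide (v ∈ T)

open Classical in
/-- The Möbius transform of a function on colourings. -/
noncomputable def mob (D : (V → Bool) → ℤ) (S : Finset V) : ℤ :=
  ∑ T ∈ S.powerset, (-1) ^ (S.card - T.card) * D (chi T)

theorem mob_insert (D : (V → Bool) → ℤ) {S : Finset V} {v : V} (hv : v ∉ S) :
    mob D (insert v S) = (∑ T ∈ S.powerset, (-1) ^ (S.card - T.card) * D (chi (insert v T)))
      - mob D S := by
  classical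
  unfold mob
  rw [Finset.sum_powerset_insert hv, Finset.card_insert_of_notMem hv]
  have h1 : ∑ T ∈ S.powerset, (-1 : ℤ) ^ (S.card + 1 - T.card) * D (chi T)
      = - ∑ T ∈ S.powerset, (-1 : ℤ) ^ (S.card - T.card) * D (chi T) := by
    rw [← Finset.sum_neg_distrib]
    refine Finset.sum_congr rfl (fun T hT => ?_)
    have hle := Finset.card_le_card (Finset.mem_powerset.1 hT)
    rw [show S.card + 1 - T.card = (S.card - T.card) + 1 by omega, pow_succ]
    ring
  have h2 : ∑ T ∈ S.powerset, (-1 : ℤ) ^ (S.card + 1 - (insert v T).card) * D (chi (insert v T))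
      = ∑ T ∈ S.powerset, (-1 : ℤ) ^ (S.card - T.card) * D (chi (insert v T)) := by
    refine Finset.sum_congr rfl (fun T hT => ?_)
    have hvT : v ∉ T := fun h => hv (Finset.mem_powerset.1 hT h)
    rw [Finset.card_insert_of_notMem hvT, Nat.add_sub_add_right]
  rw [h1, h2]
  ring

theorem mob_junta (D : (V → Bool) → ℤ) (F : Finset V)
    (hF : ∀ c c' : V → Bool, (∀ v ∈ F, c v = c' v) → D c = D c') {S : Finset V}
    (hS : ¬ S ⊆ F) : mob D S = 0 := by
  classical
  rw [Finset.not_subset] at hS
  obtain ⟨v, hvS, hvF⟩ := hS
  have h1 : S = insert v (S.erase v) := (Finset.insert_erase hvS).symm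
  rw [h1, mob_insert D (Finset.notMem_erase v S)]
  unfold mob
  rw [← Finset.sum_sub_distrib]
  apply Finset.sum_eq_zero
  intro T _
  have : D (chi (insert v T)) = D (chi T) := by
    apply hF
    intro u hu
    have huv : u ≠ v := fun h => hvF (h ▸ hu)
    simp [chi, huv]
  rw [this]
  ring

end Moebius

/-- The value of a colouring at the positions `0, …, n + 1` (position `i + 1` is the point `i`). -/
def cval (n : ℕ) (c : Fin n → Bool) (i : ℕ) : Bool :=
  if h : 1 ≤ i ∧ i ≤ n then c ⟨i - 1, by omega⟩ else decide (i = 0)

/-- Constraint `j` of the path is violated. -/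
def vioP (n : ℕ) (j : ℕ) (c : Fin n → Bool) : Prop :=
  cval n c j = true ∧ cval n c (j + 1) = false

/-- The configuration of a set of points. -/
def cf {n : ℕ} (S : Finset (Fin n)) : Finset ℕ := S.image (fun i => i.1 + 1)

theorem cf_card {n : ℕ} (S : Finset (Fin n)) : (cf S).card = S.card := by
  unfold cf
  apply Finset.card_image_of_injective
  intro a b h
  simp only at h
  exact Fin.ext (by omega)

theorem mem_cf {n : ℕ} (S : Finset (Fin n)) (i : Fin n) : i.1 + 1 ∈ cf S ↔ i ∈ S := by
  unfold cf
  rw [Finset.mem_image]
  constructor
  · rintro ⟨j, hj, h⟩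
    have : j = i := Fin.ext (by omega)
    exact this ▸ hj
  · intro h; exact ⟨i, h, rfl⟩

theorem cf_insert {n : ℕ} (S : Finset (Fin n)) (i : Fin n) :
    cf (insert i S) = insert (i.1 + 1) (cf S) := by
  unfold cf
  rw [Finset.image_insert]

/-- **Reversible variable space of the path.** -/
theorem rev_path {n d : ℕ} (hd : 2 ^ d ≤ n) (T : ℕ) (B : ℕ → Set (Fin n → Bool))
    (h0 : ∀ c, c ∈ B 0) (hT : ∀ c, c ∉ B T)
    (hstep : ∀ i, i < T → ∃ j, ∀ c, ¬ vioP n j c → (c ∈ B i ↔ c ∈ B (i + 1)))
    (hdep : ∀ i, i ≤ T → ∃ F : Finset (Fin n), F.card ≤ d ∧
      ∀ c c' : Fin n → Bool, (∀ v ∈ F, c v = c' v) → (c ∈ B i ↔ c' ∈ B i)) : False := by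
  classical
  set ind : ℕ → (Fin n → Bool) → ℤ := fun i c => if c ∈ B i then 1 else 0 with hind
  set μ : Finset (Fin n) → ℤ := fun S => if Inv d (cf S) then 1 else 0 with hμ
  set φ : ℕ → ℤ := fun i => ∑ S : Finset (Fin n), μ S * mob (ind i) S with hφ
  have hjun : ∀ i, i ≤ T → ∀ S : Finset (Fin n), mob (ind i) S ≠ 0 → S.card ≤ d := by
    intro i hi S hS
    obtain ⟨F, hF, hF2⟩ := hdep i hi
    by_contra hc
    apply hS
    apply mob_junta (ind i) F
    · intro c c' h
      simp only [hind]
      have := hF2 c c' h
      by_cases hc : c ∈ B i
      · rw [if_pos hc, if_pos (this.1 hc)]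
      · rw [if_neg hc, if_neg (fun h => hc (this.2 h))]
    · intro hsub
      have := Finset.card_le_card hsub
      omega
  have hφ0 : φ 0 = 1 := by
    have h1 : ∀ S : Finset (Fin n), S ≠ ∅ → mob (ind 0) S = 0 := by
      intro S hS
      apply mob_junta (ind 0) ∅
      · intro c c' _
        simp only [hind, h0, if_true]
      · intro h; exact hS (Finset.subset_empty.1 h)
    have h2 : φ 0 = μ ∅ * mob (ind 0) ∅ := by
      rw [hφ]
      apply Finset.sum_eq_single
      · intro S _ hS; rw [h1 S hS, mul_zero]
      · intro h; exact absurd (Finset.mem_univ _) h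
    rw [h2]
    have h3 : μ ∅ = 1 := by
      simp only [hμ]
      rw [if_pos]
      exact inv_empty d
    have h4 : mob (ind 0) ∅ = 1 := by
      unfold mob
      simp [hind, h0]
    rw [h3, h4, mul_one]
  have hφT : φ T = 0 := by
    rw [hφ]
    apply Finset.sum_eq_zero
    intro S _
    have : mob (ind T) S = 0 := by
      unfold mob
      apply Finset.sum_eq_zero
      intro R _
      simp only [hind, hT, if_false, mul_zero]
    rw [this, mul_zero]
  have hφs : ∀ i, i < T → φ i = φ (i + 1) := by
    intro i hi
    obtain ⟨j, hj⟩ := hstep i hi
    set D : (Fin n → Bool) → ℤ := fun c => ind i c - ind (i + 1) c with hD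
    have hDv : ∀ c, ¬ vioP n j c → D c = 0 := by
      intro c hc
      have := hj c hc
      simp only [hD, hind]
      by_cases h : c ∈ B i
      · rw [if_pos h, if_pos (this.1 h), sub_self]
      · rw [if_neg h, if_neg (fun h' => h (this.2 h')), sub_self]
    have hmobD : ∀ S, mob D S = mob (ind i) S - mob (ind (i + 1)) S := by
      intro S
      unfold mob
      rw [← Finset.sum_sub_distrib]
      refine Finset.sum_congr rfl (fun R _ => ?_)
      simp only [hD]
      ring
    have hcardD : ∀ S, mob D S ≠ 0 → S.card ≤ d := by
      intro S hS
      by_cases h : mob (ind i) S = 0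
      · apply hjun (i + 1) (by omega) S
        intro h'
        apply hS
        rw [hmobD, h, h', sub_self]
      · exact hjun i (by omega) S h
    have hsub : φ i - φ (i + 1) = ∑ S : Finset (Fin n), μ S * mob D S := by
      rw [hφ]
      simp only
      rw [← Finset.sum_sub_distrib]
      refine Finset.sum_congr rfl (fun S _ => ?_)
      rw [hmobD]
      ring
    have hzero : ∑ S : Finset (Fin n), μ S * mob D S = 0 := by
      by_cases hjn : n ≤ j
      · -- the last constraint, or none
        apply Finset.sum_eq_zero
        intro S _
        by_cases hS : mob D S = 0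
        · rw [hS, mul_zero]
        · have hcS := hcardD S hS
          have hn1 : 1 ≤ n := by
            have : 0 < 2 ^ d := by positivity
            omega
          have hlast : (⟨n - 1, by omega⟩ : Fin n) ∈ S := by
            by_contra hno
            apply hS
            unfold mob
            apply Finset.sum_eq_zero
            intro R hR
            have hRS := Finset.mem_powerset.1 hR
            rw [hDv, mul_zero]
            rintro ⟨h1, _⟩
            unfold cval at h1
            by_cases hjn2 : 1 ≤ j ∧ j ≤ n
            · rw [dif_pos hjn2] at h1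
              have h2 : (⟨j - 1, by omega⟩ : Fin n) = ⟨n - 1, by omega⟩ := Fin.ext (by simp; omega)
              rw [h2] at h1
              have h3 : (⟨n - 1, by omega⟩ : Fin n) ∈ R := by simpa [chi] using h1
              exact hno (hRS h3)
            · rw [dif_neg hjn2] at h1
              have : j ≠ 0 := by omega
              simp [this] at h1
          have hμ0 : μ S = 0 := by
            simp only [hμ]
            rw [if_neg]
            intro hI
            have h1 := inv_lt d _ hI (n - 1 + 1) ((mem_cf S ⟨n - 1, by omega⟩).2 hlast)
            omega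
          rw [hμ0, zero_mul]
      · -- the point `j`, at position `j + 1`
        rw [not_le] at hjn
        set v : Fin n := ⟨j, hjn⟩ with hv
        have hvT : ∀ R : Finset (Fin n), D (chi (insert v R)) = 0 := by
          intro R
          apply hDv
          rintro ⟨_, h2⟩
          unfold cval at h2
          rw [dif_pos (by omega)] at h2
          have h3 : (⟨j + 1 - 1, by omega⟩ : Fin n) = v := Fin.ext (by simp [hv])
          rw [h3] at h2
          simp [chi] at h2
        have hins : ∀ S : Finset (Fin n), v ∉ S → mob D (insert v S) = - mob D S := by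
          intro S hS
          rw [mob_insert D hS]
          have : ∑ R ∈ S.powerset, (-1 : ℤ) ^ (S.card - R.card) * D (chi (insert v R)) = 0 := by
            apply Finset.sum_eq_zero
            intro R _
            rw [hvT, mul_zero]
          rw [this, zero_sub]
        have hpair : ∀ S : Finset (Fin n), v ∉ S →
            μ S * mob D S + μ (insert v S) * mob D (insert v S) = 0 := by
          intro S hS
          rw [hins S hS]
          by_cases hD0 : mob D S = 0
          · rw [hD0]; ring
          · have hc : (insert v S).card ≤ d := by
              apply hcardD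
              rw [hins S hS]
              exact neg_ne_zero.2 hD0
            rw [Finset.card_insert_of_notMem hS] at hc
            have hleg : j + 1 = 1 ∨ j + 1 - 1 ∈ cf S := by
              by_cases hj0 : j = 0
              · left; omega
              · right
                by_contra hno
                apply hD0
                unfold mob
                apply Finset.sum_eq_zero
                intro R hR
                have hRS := Finset.mem_powerset.1 hR
                rw [hDv, mul_zero]
                rintro ⟨h1, _⟩
                unfold cval at h1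
                rw [dif_pos (by omega)] at h1
                have h3 : (⟨j - 1, by omega⟩ : Fin n) ∈ R := by simpa [chi] using h1
                apply hno
                have h4 := (mem_cf S ⟨j - 1, by omega⟩).2 (hRS h3)
                have h5 : j - 1 + 1 = j + 1 - 1 := by omega
                rw [← h5]
                exact h4
            have hiff := inv_step d (cf S) (j + 1) (by
              intro h
              exact hS ((mem_cf S v).1 h)) (by omega) hleg (by rw [cf_card]; exact hc)
            have hμeq : μ (insert v S) = μ S := by
              simp only [hμ]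
              rw [cf_insert]
              by_cases hI : Inv d (cf S)
              · rw [if_pos hI, if_pos (hiff.1 hI)]
              · rw [if_neg hI, if_neg (fun h => hI (hiff.2 h))]
            rw [hμeq]
            ring
        -- pair up the sets
        have huniv : (Finset.univ : Finset (Fin n)) = insert v (Finset.univ.erase v) :=
          (Finset.insert_erase (Finset.mem_univ v)).symm
        have hsum : ∑ S : Finset (Fin n), μ S * mob D S
            = ∑ S ∈ (Finset.univ : Finset (Fin n)).powerset, μ S * mob D S := by
          rw [Finset.powerset_univ]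
        rw [hsum, huniv, Finset.sum_powerset_insert (Finset.notMem_erase v _),
          ← Finset.sum_add_distrib]
        apply Finset.sum_eq_zero
        intro S hS
        apply hpair
        intro hvS
        exact Finset.notMem_erase v _ (Finset.mem_powerset.1 hS hvS)
    rw [hzero] at hsub
    omega
  have hall : ∀ i, i ≤ T → φ i = 1 := by
    intro i
    induction i with
    | zero => intro _; exact hφ0
    | succ i ih =>
      intro hi
      rw [← hφs i (by omega)]
      exact ih (by omega)
  have := hall T le_rfl
  rw [hφT] at this
  omega

end Pool.Agent.H589R2.MNL
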