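import Pool.Agent.H589R2.MNL.LinMach
import Pool.Agent.H589R2.MNL.LiftRev
import Pool.Agent.H589R2.MNL.Rev

/-!
# Words for layered reachability
-/

namespace Pool.Agent.H589R2.MNL

open Sk Lt Ls

/-- Variables: `(j, a, b)` is the arc from the vertex `a` of layer `j` to the vertex `b` of layer
`j + 1`. -/
abbrev Lv (m : ℕ) := ℕ × Fin m × Fin m

/-- Symbolic letters. -/
abbrev LL (m : ℕ) := Lt → Bool ⊕ Lv m

variable {m : ℕ}

/-- The value of a symbolic letter. -/
def lvl (x : Lv m → Bool) (g : LL m) : Lt → Bool := fun τ => Sum.elim id x (g τ)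

/-- A constant letter. -/
def lcst (w : Lt → Bool) : LL m := fun τ => Sum.inl (w τ)

/-- The first letter of a window. -/
def lsps (σ : Lt) (z : Lv m) : LL m := fun τ =>
  if τ = σ then Sum.inr z else Sum.inl (decide (τ = bl))

theorem lvl_cst (x : Lv m → Bool) (w : Lt → Bool) : lvl x (lcst w) = w := rfl

theorem lvl_sps (x : Lv m → Bool) (σ : Lt) (z : Lv m) : lvl x (lsps σ z) = ls σ (x z) := by
  funext τ
  unfold lvl lsps ls
  by_cases h : τ = σ
  · simp [h]
  · simp [h]

theorem map_lcst (x : Lv m → Bool) (w : List (Lt → Bool)) : (w.map lcst).map (lvl x) = w := by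
  rw [List.map_map]
  have : (lvl x ∘ lcst) = (id : (Lt → Bool) → (Lt → Bool)) := funext fun w => lvl_cst x w
  rw [this, List.map_id]

/-- All pairs. -/
def pairs (m : ℕ) : List (Fin m × Fin m) := (List.finRange m) ×ˢ (List.finRange m)

theorem mem_pairs (t : Fin m × Fin m) : t ∈ pairs m := by
  obtain ⟨a, b⟩ := t
  unfold pairs
  rw [List.mem_product]
  exact ⟨List.mem_finRange _, List.mem_finRange _⟩

/-- The table that pushes the arcs of layer `j`. -/
def tabP (m : ℕ) (j : ℕ) : List (LL m) :=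
  (pairs m).flatMap (fun t => lsps tr (j, t.1, t.2) :: (restW t.1 t.2).map lcst) ++ [lcst (lo fin)]

/-- The table that pops the arcs of layer `j`. -/
def tabQ (m : ℕ) (j : ℕ) : List (LL m) :=
  (pairs m).flatMap (fun t => lsps gl (j, t.1, t.2) :: (restW t.2 t.1).map lcst) ++ [lcst (lo fin)]

theorem ev_tabP (x : Lv m → Bool) (j : ℕ) : (tabP m j).map (lvl x) =
    (pairs m).flatMap (fun t => winP (x (j, t.1, t.2)) t.1 t.2) ++ [lo fin] := by
  unfold tabP
  rw [List.map_append, List.map_flatMap]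
  congr 1
  congr 1
  funext t
  rw [List.map_cons, lvl_sps, map_lcst]
  rfl

theorem ev_tabQ (x : Lv m → Bool) (j : ℕ) : (tabQ m j).map (lvl x) =
    (pairs m).flatMap (fun t => winQ (x (j, t.1, t.2)) t.1 t.2) ++ [lo fin] := by
  unfold tabQ
  rw [List.map_append, List.map_flatMap]
  congr 1
  congr 1
  funext t
  rw [List.map_cons, lvl_sps, map_lcst]
  rfl

theorem run_tabP (x : Lv m → Bool) (j : ℕ) (s : List Sk) (hs : s ≠ []) (c : Ls × List Sk) :
    lR ((tabP m j).map (lvl x)) (q0, s) c ↔
      ∃ a b : Fin m, x (j, a, b) = true ∧ c = (q0, lab b (lab a s)) := by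
  rw [ev_tabP, (lrun_block (Or.inl rfl) (fun s c h => ((lrun_fin_q1 s c).1 h).1)
    (fun t : Fin m × Fin m => winP (x (j, t.1, t.2)) t.1 t.2)
    (fun t s s' => x (j, t.1, t.2) = true ∧ s' = lab t.2 (lab t.1 s))
    (fun t => lwin_P _ _ _) (pairs m) s c).2 hs]
  constructor
  · rintro ⟨⟨a, b⟩, _, s', ⟨h1, rfl⟩, h2⟩
    exact ⟨a, b, h1, ((lrun_fin_q1 _ _).1 h2).2⟩
  · rintro ⟨a, b, h1, rfl⟩
    exact ⟨(a, b), mem_pairs _, _, ⟨h1, rfl⟩, (lrun_fin_q1 _ _).2 ⟨lab_ne _ _, rfl⟩⟩

theorem run_tabQ (x : Lv m → Bool) (j : ℕ) (a b : Fin m) (s : List Sk) (hs : s ≠ [])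
    (c : Ls × List Sk) :
    lR ((tabQ m j).map (lvl x)) (w0, lab b (lab a s)) c ↔
      x (j, a, b) = true ∧ c = (w0, s) := by
  rw [ev_tabQ, (lrun_block (Or.inr rfl) (fun s c h => ((lrun_fin_w1 s c).1 h).1)
    (fun t : Fin m × Fin m => winQ (x (j, t.1, t.2)) t.1 t.2)
    (fun t s s' => x (j, t.1, t.2) = true ∧ s = lab t.2 (lab t.1 s'))
    (fun t => lwin_Q _ _ _) (pairs m) _ c).2 (lab_ne _ _)]
  constructor
  · rintro ⟨⟨a', b'⟩, _, s', ⟨h1, h2⟩, h3⟩
    obtain ⟨h4, h5⟩ := lab_inj h2
    obtain ⟨h6, h7⟩ := lab_inj h5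
    have h4' : b = b' := Fin.ext h4
    have h6' : a = a' := Fin.ext h6
    subst h4' h6' h7
    exact ⟨h1, ((lrun_fin_w1 _ _).1 h3).2⟩
  · rintro ⟨h1, rfl⟩
    exact ⟨(a, b), mem_pairs _, s, ⟨h1, rfl⟩, (lrun_fin_w1 _ _).2 ⟨hs, rfl⟩⟩

/-- The stack of the labels `a 0, …, a n`. -/
def stk (s : List Sk) (a : ℕ → Fin m) : ℕ → List Sk
  | 0 => lab (a 0) s
  | n + 1 => lab (a (n + 1)) (stk s a n)

theorem stk_ne (s : List Sk) (a : ℕ → Fin m) (n : ℕ) : stk s a n ≠ [] := by
  cases n <;> exact lab_ne _ _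

theorem stk_congr (s : List Sk) {a a' : ℕ → Fin m} (n : ℕ) (h : ∀ i ≤ n, a i = a' i) :
    stk s a n = stk s a' n := by
  induction n with
  | zero =>
    unfold stk
    rw [h 0 le_rfl]
  | succ n ih =>
    unfold stk
    rw [h (n + 1) le_rfl, ih (fun i hi => h i (by omega))]

/-- The word of the pushes. -/
def spush (m : ℕ) : ℕ → List (LL m)
  | 0 => []
  | k + 1 => spush m k ++ tabP m (2 * k + 1)

/-- The word of the pops. -/
def spop (m : ℕ) : ℕ → List (LL m)
  | 0 => tabQ m 0
  | k + 1 => tabQ m (2 * k + 2) ++ spop m k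

theorem run_spush (x : Lv m → Bool) (hm : 0 < m) (s : List Sk) (k : ℕ) :
    ∀ c : Ls × List Sk, lR ((spush m k).map (lvl x)) (q0, X :: s) c ↔
      ∃ a : ℕ → Fin m, a 0 = ⟨0, hm⟩ ∧ (∀ i < k, x (2 * i + 1, a (2 * i + 1), a (2 * i + 2)) = true)
        ∧ c = (q0, stk s a (2 * k)) := by
  induction k with
  | zero =>
    intro c
    constructor
    · intro h
      have h' : (q0, X :: s) = c := h
      exact ⟨fun _ => ⟨0, hm⟩, rfl, fun i hi => absurd hi (by omega), h'.symm⟩
    · rintro ⟨a, ha, _, rfl⟩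
      have : stk s a (2 * 0) = X :: s := by
        change lab (a 0) s = X :: s
        rw [ha]
        rfl
      rw [this]
      exact rfl
  | succ k ih =>
    intro c
    unfold spush
    rw [List.map_append, lR_append]
    constructor
    · rintro ⟨d, h1, h2⟩
      obtain ⟨a, ha0, ha, rfl⟩ := (ih d).1 h1
      obtain ⟨p, q, hpq, rfl⟩ := (run_tabP x _ _ (stk_ne _ _ _) c).1 h2
      refine ⟨fun i => if i = 2 * k + 1 then p else if i = 2 * k + 2 then q else a i, ?_, ?_, ?_⟩
      · simp only [show (0 : ℕ) ≠ 2 * k + 1 by omega, show (0 : ℕ) ≠ 2 * k + 2 by omega, if_false]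
        exact ha0
      · intro i hi
        by_cases hik : i = k
        · subst hik
          simp only [if_true, show 2 * i + 2 ≠ 2 * i + 1 by omega, if_false]
          exact hpq
        · simp only [show 2 * i + 1 ≠ 2 * k + 1 by omega, show 2 * i + 1 ≠ 2 * k + 2 by omega,
            show 2 * i + 2 ≠ 2 * k + 1 by omega, show 2 * i + 2 ≠ 2 * k + 2 by omega, if_false]
          exact ha i (by omega)
      · have e : stk s (fun i => if i = 2 * k + 1 then p else if i = 2 * k + 2 then q else a i)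
            (2 * k) = stk s a (2 * k) := by
          apply stk_congr
          intro i hi
          simp only [show i ≠ 2 * k + 1 by omega, show i ≠ 2 * k + 2 by omega, if_false]
        rw [show 2 * (k + 1) = 2 * k + 1 + 1 by ring, stk, stk, e]
        simp
    · rintro ⟨a, ha0, ha, rfl⟩
      refine ⟨(q0, stk s a (2 * k)), (ih _).2 ⟨a, ha0, fun i hi => ha i (by omega), rfl⟩, ?_⟩
      rw [run_tabP x _ _ (stk_ne _ _ _)]
      exact ⟨a (2 * k + 1), a (2 * k + 2), ha k (by omega), rfl⟩

theorem run_spop (x : Lv m → Bool) (s : List Sk) (hs : s ≠ []) (a : ℕ → Fin m) (k : ℕ) :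
    ∀ c : Ls × List Sk, lR ((spop m k).map (lvl x)) (w0, stk s a (2 * k + 1)) c ↔
      (∀ i ≤ k, x (2 * i, a (2 * i), a (2 * i + 1)) = true) ∧ c = (w0, s) := by
  induction k with
  | zero =>
    intro c
    unfold spop
    change lR _ (w0, lab (a 1) (lab (a 0) s)) c ↔ _
    rw [run_tabQ x 0 (a 0) (a 1) s hs]
    constructor
    · rintro ⟨h1, h2⟩
      refine ⟨fun i hi => ?_, h2⟩
      have : i = 0 := by omega
      subst this
      exact h1
    · rintro ⟨h1, h2⟩
      exact ⟨h1 0 le_rfl, h2⟩
  | succ k ih =>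
    intro c
    unfold spop
    rw [List.map_append, lR_append]
    have e : stk s a (2 * (k + 1) + 1)
        = lab (a (2 * k + 3)) (lab (a (2 * k + 2)) (stk s a (2 * k + 1))) := rfl
    rw [e]
    constructor
    · rintro ⟨d, h1, h2⟩
      rw [run_tabQ x _ _ _ _ (stk_ne _ _ _)] at h1
      obtain ⟨h1, rfl⟩ := h1
      obtain ⟨h3, h4⟩ := (ih c).1 h2
      refine ⟨fun i hi => ?_, h4⟩
      by_cases hik : i = k + 1
      · subst hik
        exact h1
      · exact h3 i (by omega)
    · rintro ⟨h1, h2⟩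
      refine ⟨(w0, stk s a (2 * k + 1)), ?_, (ih c).2 ⟨fun i hi => h1 i (by omega), h2⟩⟩
      rw [run_tabQ x _ _ _ _ (stk_ne _ _ _)]
      exact ⟨h1 (k + 1) le_rfl, rfl⟩

/-- The vertex `0` of layer `2K + 1` is reachable from the vertex `0` of layer `0`. -/
def Con (hm : 0 < m) (K : ℕ) (x : Lv m → Bool) : Prop :=
  ∃ a : ℕ → Fin m, a 0 = ⟨0, hm⟩ ∧ a (2 * K + 1) = ⟨0, hm⟩ ∧
    ∀ i ≤ 2 * K, x (i, a i, a (i + 1)) = true

/-- The word of one system. -/
def slin (m K : ℕ) : List (LL m) :=
  lcst ln :: (spush m K ++ ([lcst (lo tu)] ++ (spop m K ++ [lcst (lo en)])))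

theorem lne_slin (x : Lv m → Bool) (K : ℕ) :
    LNE ((spush m K ++ ([lcst (lo tu)] ++ (spop m K ++ [lcst (lo en)]))).map (lvl x)) := by
  have h1 : ∀ j, LNE ((tabP m j).map (lvl x)) := by
    intro j a ha
    rw [ev_tabP, List.mem_append, List.mem_flatMap, List.mem_singleton] at ha
    rcases ha with ⟨t, _, ha⟩ | rfl
    · unfold winP at ha
      rcases List.mem_cons.1 ha with rfl | ha
      · exact ⟨⟨bl, by simp [ls]⟩, by simp [ls]⟩
      · rcases linert_rest _ _ a ha with rfl | rfl | rfl <;> exact ⟨⟨bl, by simp [lp]⟩, by simp [lp]⟩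
    · exact ⟨⟨fin, by simp [lo]⟩, by simp [lo]⟩
  have h2 : ∀ j, LNE ((tabQ m j).map (lvl x)) := by
    intro j a ha
    rw [ev_tabQ, List.mem_append, List.mem_flatMap, List.mem_singleton] at ha
    rcases ha with ⟨t, _, ha⟩ | rfl
    · unfold winQ at ha
      rcases List.mem_cons.1 ha with rfl | ha
      · exact ⟨⟨bl, by simp [ls]⟩, by simp [ls]⟩
      · rcases linert_rest _ _ a ha with rfl | rfl | rfl <;> exact ⟨⟨bl, by simp [lp]⟩, by simp [lp]⟩
    · exact ⟨⟨fin, by simp [lo]⟩, by simp [lo]⟩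
  have h3 : ∀ k, LNE ((spush m k).map (lvl x)) := by
    intro k
    induction k with
    | zero => intro a ha; simp [spush] at ha
    | succ k ih =>
      intro a ha
      unfold spush at ha
      rw [List.map_append, List.mem_append] at ha
      rcases ha with h | h
      · exact ih a h
      · exact h1 _ a h
  have h4 : ∀ k, LNE ((spop m k).map (lvl x)) := by
    intro k
    induction k with
    | zero => exact h2 0
    | succ k ih =>
      intro a ha
      unfold spop at ha
      rw [List.map_append, List.mem_append] at ha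
      rcases ha with h | h
      · exact h2 _ a h
      · exact ih a h
  intro a ha
  rw [List.map_append, List.map_append, List.map_append, List.mem_append, List.mem_append,
    List.mem_append] at ha
  rcases ha with h | h | h | h
  · exact h3 _ a h
  · rw [List.map_cons, List.map_nil, List.mem_singleton] at h
    subst h
    exact ⟨⟨tu, by simp [lvl_cst, lo]⟩, by simp [lvl_cst, lo]⟩
  · exact h4 _ a h
  · rw [List.map_cons, List.map_nil, List.mem_singleton] at h
    subst h
    exact ⟨⟨en, by simp [lvl_cst, lo]⟩, by simp [lvl_cst, lo]⟩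

/-- **The run on a block.** -/
theorem run_slin (hm : 0 < m) (K : ℕ) (x : Lv m → Bool) (c : Ls × List Sk) :
    lR ((slin m K).map (lvl x)) (sk, [B]) c ↔
      c = (sk, [B]) ∨ (c = (ff, [B]) ∧ Con hm K x) := by
  unfold slin
  rw [List.map_cons, lvl_cst, lR_cons]
  have hmain : ∀ c : Ls × List Sk, lR ((spush m K ++ ([lcst (lo tu)] ++
      (spop m K ++ [lcst (lo en)]))).map (lvl x)) (q0, X :: [B]) c ↔
      c = (ff, [B]) ∧ Con hm K x := by
    intro c
    rw [List.map_append, List.map_append, List.map_append, lR_append]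
    constructor
    · rintro ⟨d, h1, h2⟩
      obtain ⟨a, ha0, ha, rfl⟩ := (run_spush x hm [B] K d).1 h1
      rw [lR_append] at h2
      obtain ⟨d, h1, h2⟩ := h2
      obtain ⟨z, s, hz⟩ := List.exists_cons_of_ne_nil (stk_ne [B] a (2 * K))
      rw [hz] at h1
      have h1' := (lstep_tu z s d).1 h1
      rw [← hz] at h1'
      subst h1'
      set a' : ℕ → Fin m := fun i => if i = 2 * K + 1 then ⟨0, hm⟩ else a i with ha'
      have e : X :: stk [B] a (2 * K) = stk [B] a' (2 * K + 1) := by
        have e1 : stk [B] a (2 * K) = stk [B] a' (2 * K) := by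
          apply stk_congr
          intro i hi
          simp only [ha', show i ≠ 2 * K + 1 by omega, if_false]
        have e2 : a' (2 * K + 1) = ⟨0, hm⟩ := by simp [ha']
        rw [e1]
        change _ = lab (a' (2 * K + 1)) (stk [B] a' (2 * K))
        rw [e2]
        rfl
      rw [lR_append] at h2
      obtain ⟨d, h1, h2⟩ := h2
      rw [e] at h1
      obtain ⟨h3, rfl⟩ := (run_spop x [B] (by simp) a' K d).1 h1
      obtain ⟨_, h4⟩ := (lstep_en B [] c).1 h2
      refine ⟨h4, a', ?_, by simp [ha'], ?_⟩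
      · simp only [ha', show (0 : ℕ) ≠ 2 * K + 1 by omega, if_false]
        exact ha0
      · intro i hi
        rcases Nat.even_or_odd' i with ⟨t, rfl | rfl⟩
        · exact h3 t (by omega)
        · simp only [ha', show 2 * t + 1 ≠ 2 * K + 1 by omega,
            show 2 * t + 1 + 1 ≠ 2 * K + 1 by omega, if_false]
          exact ha t (by omega)
    · rintro ⟨rfl, a, ha0, haK, ha⟩
      refine ⟨(q0, stk [B] a (2 * K)), (run_spush x hm [B] K _).2 ⟨a, ha0, fun i hi =>
        ha (2 * i + 1) (by omega), rfl⟩, ?_⟩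
      rw [lR_append]
      refine ⟨(w0, stk [B] a (2 * K + 1)), ?_, ?_⟩
      · obtain ⟨z, s, hz⟩ := List.exists_cons_of_ne_nil (stk_ne [B] a (2 * K))
        have e : stk [B] a (2 * K + 1) = X :: z :: s := by
          change lab (a (2 * K + 1)) (stk [B] a (2 * K)) = _
          rw [haK, hz]
          rfl
        rw [e, hz]
        exact (lstep_tu z s _).2 rfl
      · rw [lR_append]
        refine ⟨(w0, [B]), (run_spop x [B] (by simp) a K _).2 ⟨fun i hi =>
          ha (2 * i) (by omega), rfl⟩, ?_⟩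
        exact (lstep_en B [] _).2 ⟨rfl, rfl⟩
  constructor
  · rintro ⟨d, h1, h2⟩
    rcases (lstep_ln _ _ _).1 h1 with rfl | rfl
    · left
      exact (lrun_sk _ (lne_slin x K) _ _ _).1 h2
    · right
      exact (hmain c).1 h2
  · rintro (rfl | hc)
    · exact ⟨(sk, [B]), (lstep_ln _ _ _).2 (Or.inl rfl),
        (lrun_sk _ (lne_slin x K) _ _ _).2 rfl⟩
    · exact ⟨(q0, X :: [B]), (lstep_ln _ _ _).2 (Or.inr rfl), (hmain c).2 hc⟩

/-- **The automaton decides the disjunction.** -/
theorem run_slins (hm : 0 < m) (K : ℕ) (L : List (Lv m → Bool)) :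
    (∃ s, lR (L.flatMap (fun x => (slin m K).map (lvl x))) (sk, [B]) (ff, s)) ↔
      ∃ x ∈ L, Con hm K x := by
  induction L with
  | nil =>
    constructor
    · rintro ⟨s, hrun⟩
      have h1 : (sk, [B]) = (ff, s) := hrun
      rw [Prod.mk.injEq] at h1
      exact absurd h1.1 (by decide)
    · rintro ⟨x, hx, _⟩
      simp at hx
  | cons x L ih =>
    rw [List.flatMap_cons]
    constructor
    · rintro ⟨s, hrun⟩
      obtain ⟨d, h1, h2⟩ := (lR_append _ _ _ _).1 hrun
      rcases (run_slin hm K x d).1 h1 with rfl | ⟨rfl, hg⟩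
      · obtain ⟨y, hy, hg⟩ := ih.1 ⟨s, h2⟩
        exact ⟨y, List.mem_cons_of_mem _ hy, hg⟩
      · exact ⟨x, List.mem_cons_self, hg⟩
    · rintro ⟨y, hy, hg⟩
      rcases List.mem_cons.1 hy with rfl | hy
      · refine ⟨[B], (lR_append _ _ _ _).2
          ⟨(ff, [B]), (run_slin hm K y _).2 (Or.inr ⟨rfl, hg⟩), ?_⟩⟩
        refine (lrun_ff _ ?_ _ _ _).2 rfl
        intro a ha
        obtain ⟨z, _, ha⟩ := List.mem_flatMap.1 ha
        unfold slin at ha
        rw [List.map_cons, lvl_cst] at ha
        rcases List.mem_cons.1 ha with rfl | ha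
        · exact ⟨ng, by simp [ln]⟩
        · exact (lne_slin z K a ha).1
      · obtain ⟨s, hrun⟩ := ih.2 ⟨y, hy, hg⟩
        exact ⟨s, (lR_append _ _ _ _).2 ⟨(sk, [B]), (run_slin hm K x _).2 (Or.inl rfl), hrun⟩⟩

theorem lmach_accepts (hm : 0 < m) (K : ℕ) (L : List (Lv m → Bool)) :
    lmach.Accepts (L.flatMap (fun x => (slin m K).map (lvl x))) ↔ ∃ x ∈ L, Con hm K x := by
  rw [← run_slins hm K L]
  constructor
  · rintro ⟨q, hq, s, hrun⟩
    have hq' : q = ff := hq
    subst hq'
    exact ⟨s, (lmach_run _ _ _).1 hrun⟩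
  · rintro ⟨s, hrun⟩
    exact ⟨ff, rfl, s, (lmach_run _ _ _).2 hrun⟩

/-- The symbolic word of `M` systems. -/
def slins (m M K : ℕ) : List (Lt → Bool ⊕ (Fin M × Lv m)) :=
  (List.finRange M).flatMap (fun j => (slin m K).map (fun g τ => Sum.map id (Prod.mk j) (g τ)))

theorem ev_slins (M K : ℕ) (X : Fin M × Lv m → Bool) :
    (slins m M K).map (fun g o => Sum.elim id X (g o))
      = ((List.finRange M).map (fun j => fun v => X (j, v))).flatMap
        (fun x => (slin m K).map (lvl x)) := by
  unfold slins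
  rw [List.map_flatMap, List.flatMap_map]
  congr 1
  funext j
  rw [List.map_map]
  apply List.map_congr_left
  intro g _
  funext o
  simp only [Function.comp_apply, lvl]
  rcases g o with b | v
  · rfl
  · rfl

theorem length_slins (M K : ℕ) : (slins m M K).length = M * (slin m K).length := by
  unfold slins
  rw [List.length_flatMap]
  simp

theorem length_tabP (j : ℕ) : (tabP m j).length ≤ m ^ 2 * (2 * m + 1) + 1 := by
  have h1 : ((pairs m).flatMap (fun t => (lsps tr (j, t.1, t.2) : LL m) ::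
      (restW t.1 t.2).map lcst)).length ≤ (pairs m).length * (2 * m + 1) := by
    apply length_flatMap_le
    rintro ⟨a, b⟩ _
    unfold restW
    have := a.2
    have := b.2
    simp only [List.length_cons, List.length_map, List.length_append, List.length_replicate,
      List.length_nil]
    omega
  have h2 : (pairs m).length = m ^ 2 := by
    unfold pairs
    rw [List.length_product, List.length_finRange]
    ring
  unfold tabP
  rw [List.length_append, List.length_cons, List.length_nil]
  rw [h2] at h1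
  omega

theorem length_tabQ (j : ℕ) : (tabQ m j).length ≤ m ^ 2 * (2 * m + 1) + 1 := by
  have h1 : ((pairs m).flatMap (fun t => (lsps gl (j, t.1, t.2) : LL m) ::
      (restW t.2 t.1).map lcst)).length ≤ (pairs m).length * (2 * m + 1) := by
    apply length_flatMap_le
    rintro ⟨a, b⟩ _
    unfold restW
    have := a.2
    have := b.2
    simp only [List.length_cons, List.length_map, List.length_append, List.length_replicate,
      List.length_nil]
    omega
  have h2 : (pairs m).length = m ^ 2 := by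
    unfold pairs
    rw [List.length_product, List.length_finRange]
    ring
  unfold tabQ
  rw [List.length_append, List.length_cons, List.length_nil]
  rw [h2] at h1
  omega

theorem le_length_tabQ (j : ℕ) : m ≤ (tabQ m j).length := by
  have h1 : (pairs m).length ≤ ((pairs m).flatMap (fun t => (lsps gl (j, t.1, t.2) : LL m) ::
      (restW t.2 t.1).map lcst)).length := by
    apply le_length_flatMap
    rintro ⟨a, b⟩ _
    rw [List.length_cons]
    omega
  have h2 : (pairs m).length = m * m := by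
    unfold pairs
    rw [List.length_product, List.length_finRange]
  unfold tabQ
  rw [List.length_append]
  rw [h2] at h1
  have h3 : m ≤ m * m := by
    rcases Nat.eq_zero_or_pos m with rfl | h
    · simp
    · exact Nat.le_mul_of_pos_left m h
  omega

theorem length_spush (k : ℕ) : (spush m k).length ≤ k * (m ^ 2 * (2 * m + 1) + 1) := by
  induction k with
  | zero => simp [spush]
  | succ k ih =>
    unfold spush
    rw [List.length_append]
    have := length_tabP (m := m) (2 * k + 1)
    rw [Nat.add_mul, one_mul]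
    omega

theorem length_spop (k : ℕ) : (spop m k).length ≤ (k + 1) * (m ^ 2 * (2 * m + 1) + 1) := by
  induction k with
  | zero =>
    unfold spop
    rw [zero_add, one_mul]
    exact length_tabQ 0
  | succ k ih =>
    unfold spop
    rw [List.length_append]
    have := length_tabQ (m := m) (2 * k + 2)
    rw [Nat.add_mul (k + 1), one_mul]
    omega

theorem le_length_spop (k : ℕ) : m ≤ (spop m k).length := by
  cases k with
  | zero => exact le_length_tabQ 0
  | succ k =>
    unfold spop
    rw [List.length_append]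
    have := le_length_tabQ (m := m) (2 * k + 2)
    omega

theorem length_slin (hm : 1 ≤ m) (K : ℕ) :
    (slin m K).length ≤ (2 * K + 2) * (8 * m ^ 4) := by
  have hm4 : 1 ≤ m ^ 4 := Nat.one_le_pow _ _ hm
  have hm24 : m ^ 2 ≤ m ^ 4 := Nat.pow_le_pow_right hm (by norm_num)
  have hm34 : m ^ 3 ≤ m ^ 4 := Nat.pow_le_pow_right hm (by norm_num)
  have h1 := length_spush (m := m) K
  have h2 := length_spop (m := m) K
  have h3 : m ^ 2 * (2 * m + 1) + 1 = 2 * m ^ 3 + m ^ 2 + 1 := by ring
  have h4 : m ^ 2 * (2 * m + 1) + 1 ≤ 8 * m ^ 4 := by rw [h3]; omega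
  have h5 : K * (m ^ 2 * (2 * m + 1) + 1) ≤ K * (8 * m ^ 4) := Nat.mul_le_mul_left _ h4
  have h6 : (K + 1) * (m ^ 2 * (2 * m + 1) + 1) ≤ (K + 1) * (8 * m ^ 4) :=
    Nat.mul_le_mul_left _ h4
  have h7 : (2 * K + 2) * (8 * m ^ 4) = K * (8 * m ^ 4) + (K + 1) * (8 * m ^ 4) + 8 * m ^ 4 := by
    ring
  unfold slin
  simp only [List.length_cons, List.length_append, List.length_nil]
  omega

theorem le_length_slin (K : ℕ) : m ≤ (slin m K).length := by
  have h1 := le_length_spop (m := m) K
  unfold slin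
  simp only [List.length_cons, List.length_append, List.length_nil]
  omega

end Pool.Agent.H589R2.MNL
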