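import Pool.Agent.H589R2.MNL.TreeLB

/-!
# The lower bound for one program
-/

namespace Pool.Agent.H589R2.MNL

open Filter Topology

theorem pow_half (Q : ℕ) (hQ : 1 ≤ Q) (k : ℕ) : (1 - 1 / (Q : ℝ)) ^ (Q * k) ≤ (1 / 2 : ℝ) ^ k := by
  have hQ' : (0 : ℝ) < Q := by exact_mod_cast hQ
  have h0 : (0 : ℝ) ≤ 1 - 1 / (Q : ℝ) := by
    rw [sub_nonneg, div_le_one hQ']; exact_mod_cast hQ
  rw [pow_mul]
  refine pow_le_pow_left₀ (pow_nonneg h0 _) ?_ k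
  have h1 : 1 - 1 / (Q : ℝ) ≤ Real.exp (-(1 / (Q : ℝ))) := Real.one_sub_le_exp_neg _
  calc (1 - 1 / (Q : ℝ)) ^ Q ≤ (Real.exp (-(1 / (Q : ℝ)))) ^ Q := pow_le_pow_left₀ h0 h1 Q
    _ = Real.exp (-1) := by
      rw [← Real.exp_nat_mul]
      congr 1
      field_simp
    _ ≤ 1 / 2 := by
      have := Real.exp_neg_one_lt_d9
      linarith

/-- Polynomials in `L` are eventually below `2 ^ L`. -/
theorem poly_lt_pow (c K e : ℕ) : ∃ L0 : ℕ, ∀ L ≥ L0, c * (K * L + 1) ^ e < 2 ^ L := by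
  have h := tendsto_pow_const_mul_const_pow_of_abs_lt_one (r := (1 / 2 : ℝ)) e
    (by rw [abs_of_pos] <;> norm_num)
  obtain ⟨Z, hZ⟩ : ∃ Z : ℕ, Z = c * (K + 1) ^ e := ⟨_, rfl⟩
  have h2 := h.eventually (gt_mem_nhds (show (0 : ℝ) < 1 / (Z + 1) by positivity))
  obtain ⟨L1, hL1⟩ := Filter.eventually_atTop.1 h2
  refine ⟨L1 + 1, fun L hL => ?_⟩
  have hLpos : 1 ≤ L := by omega
  have h3 := hL1 L (by omega)
  have h4 : c * (K * L + 1) ^ e ≤ Z * L ^ e := by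
    have h5 : K * L + 1 ≤ (K + 1) * L := by nlinarith
    calc c * (K * L + 1) ^ e ≤ c * ((K + 1) * L) ^ e := by gcongr
      _ = Z * L ^ e := by rw [hZ, mul_pow, mul_assoc]
  refine lt_of_le_of_lt h4 ?_
  have h5 : (Z : ℝ) * (L : ℝ) ^ e < (2 : ℝ) ^ L := by
    rw [lt_div_iff₀ (by positivity)] at h3
    have h8 : (1 / 2 : ℝ) ^ L * 2 ^ L = 1 := by rw [← mul_pow]; norm_num
    have h10 : (0 : ℝ) < 2 ^ L := by positivity
    have h11 : (L : ℝ) ^ e * (Z + 1) < 2 ^ L := by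
      calc (L : ℝ) ^ e * (Z + 1)
          = (L : ℝ) ^ e * (1 / 2) ^ L * (Z + 1) * 2 ^ L := by
            rw [show (L : ℝ) ^ e * (1 / 2) ^ L * (Z + 1) * 2 ^ L
              = (L : ℝ) ^ e * (Z + 1) * ((1 / 2) ^ L * 2 ^ L) by ring, h8, mul_one]
        _ < 1 * 2 ^ L := mul_lt_mul_of_pos_right h3 h10
        _ = 2 ^ L := one_mul _
    have h12 : (0 : ℝ) ≤ (L : ℝ) ^ e := by positivity
    nlinarith
  exact_mod_cast h5

/-- **The lower bound for one program.** -/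
theorem single (E n₀ : ℕ) : ∃ h s : ℕ, n₀ ≤ s ∧ 1 ≤ s ∧ ∀ m, m = 2 ^ s → ∀ hm1 : 1 ≤ m,
    ∀ r ≤ 2 ^ ((h + 5 + 4 * s) * E + 2), ∀ P : NBP (Vr m) r,
    (∀ l, P.Accepts (xpos hm1 h l)) → ¬ ∀ S, ¬ P.Accepts (xneg h S) := by
  classical
  obtain ⟨nn, hnn⟩ : ∃ nn, nn = 4 * E + 1 := ⟨_, rfl⟩
  obtain ⟨h, hh⟩ : ∃ h, h = 2 * nn := ⟨_, rfl⟩
  obtain ⟨v, hv⟩ : ∃ v, v = Fintype.card (Nd h) := ⟨_, rfl⟩
  have hv1 : 1 ≤ v := by
    rw [hv]
    exact Fintype.card_pos_iff.2 ⟨⟨[], by simp⟩⟩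
  obtain ⟨K, hK⟩ : ∃ K, K = 4 * E + v + ((h + 5) * E + 2) + 3 * v + 1 := ⟨_, rfl⟩
  obtain ⟨c, hc⟩ : ∃ c, c = 2 ^ ((h + 5) * E + 2) * 2 ^ 2 ^ (2 * v) * (v * 2 ^ v) ^ v := ⟨_, rfl⟩
  obtain ⟨L0, hL0⟩ := poly_lt_pow c K v
  obtain ⟨s, hs⟩ : ∃ s, s = max (max L0 n₀) 1 := ⟨_, rfl⟩
  have hs1 : 1 ≤ s := by rw [hs]; exact le_max_right _ _
  have hsL : L0 ≤ s := by rw [hs]; exact (le_max_left _ _).trans (le_max_left _ _)
  have hsn : n₀ ≤ s := by rw [hs]; exact (le_max_right _ _).trans (le_max_left _ _)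
  refine ⟨h, s, hsn, hs1, fun m hm hm1 r hr P hP1 hP2 => ?_⟩
  obtain ⟨t, ht⟩ : ∃ t, t = ((h + 5 + 4 * s) * E + 2) + 3 * v + s * v + 1 := ⟨_, rfl⟩
  have hQ1 : 1 ≤ 2 ^ v := Nat.one_le_two_pow
  have hkey := lifting (V := Nd h) (m := m) (J := Option (List Bool)) (Var := Vr m)
    (fun j c => viol h j (ext h c)) (by rw [← hv]; exact hv1) hm1
    (fun j l => yv hm1 h j l) (fun l => xpos hm1 h l)
    (fun l z hz => (xpos_iff hm1 h l z).1 hz)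
    (fun S => xneg h S) (fun S j l hvl => xneg_of hm1 h S j l hvl) (nn + 1)
    (by subst hh; exact hard_tree nn) P hP1 hP2
    (ε := (1 / 2 : ℝ) ^ t) (by positivity) (p := 2 ^ v * t)
    (by
      have : 1 ≤ t := by rw [ht]; omega
      exact Nat.mul_le_mul hQ1 this)
    (by
      rw [← hv]
      have h1 := pow_half (2 ^ v) hQ1 t
      have h2 : (1 / 2 : ℝ) ^ v = 1 / ((2 ^ v : ℕ) : ℝ) := by
        push_cast
        rw [div_pow, one_pow]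
      rw [h2]
      exact h1)
    (by
      rw [← hv]
      have h1 : r * (2 ^ v * (m ^ v * 2 ^ v))
          ≤ 2 ^ (((h + 5 + 4 * s) * E + 2) + 2 * v + s * v) := by
        calc r * (2 ^ v * (m ^ v * 2 ^ v))
            ≤ 2 ^ ((h + 5 + 4 * s) * E + 2) * (2 ^ v * (m ^ v * 2 ^ v)) :=
              Nat.mul_le_mul_right _ hr
          _ = _ := by
            rw [hm, ← pow_mul, ← pow_add, ← pow_add, ← pow_add]
            congr 1
            ring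
      have h2 : ((r * (2 ^ v * (m ^ v * 2 ^ v)) : ℕ) : ℝ)
          ≤ (2 : ℝ) ^ (((h + 5 + 4 * s) * E + 2) + 2 * v + s * v) := by exact_mod_cast h1
      have h3 : (0 : ℝ) < (1 / 2) ^ t := by positivity
      have h4 : (1 / 2 : ℝ) ^ t = (1 / 2) ^ (((h + 5 + 4 * s) * E + 2) + 2 * v + s * v)
          * ((1 / 2) ^ v * (1 / 2)) := by
        rw [ht, ← pow_succ, ← pow_add]
        congr 1
        ring
      calc ((r * (2 ^ v * (m ^ v * 2 ^ v)) : ℕ) : ℝ) * (1 / 2) ^ t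
          ≤ (2 : ℝ) ^ (((h + 5 + 4 * s) * E + 2) + 2 * v + s * v) * (1 / 2) ^ t :=
            mul_le_mul_of_nonneg_right h2 h3.le
        _ = ((2 : ℝ) ^ (((h + 5 + 4 * s) * E + 2) + 2 * v + s * v)
            * (1 / 2) ^ (((h + 5 + 4 * s) * E + 2) + 2 * v + s * v)) * ((1 / 2) ^ v * (1 / 2)) := by
            rw [h4]; ring
        _ = (1 / 2) ^ v * (1 / 2) := by
            rw [← mul_pow]
            norm_num
        _ < (1 / 2) ^ v := by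
            have : (0 : ℝ) < (1 / 2) ^ v := by positivity
            linarith)
  rw [← hv] at hkey
  -- arithmetic
  have hbig : 2 ^ (s * (nn + 1)) ≤ 2 ^ (4 * E * s) * (c * (K * s + 1) ^ v) := by
    have ht2 : t ≤ K * s + 1 := by
      have h1 : ((h + 5) * E + 2) ≤ ((h + 5) * E + 2) * s := Nat.le_mul_of_pos_right _ hs1
      have h2 : 3 * v ≤ 3 * v * s := Nat.le_mul_of_pos_right _ hs1
      rw [ht, hK]
      nlinarith
    calc 2 ^ (s * (nn + 1)) = m ^ (nn + 1) := by rw [hm, ← pow_mul]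
      _ ≤ r * (2 ^ 2 ^ (2 * v) * (v * (2 ^ v * t)) ^ v) := hkey
      _ ≤ 2 ^ ((h + 5 + 4 * s) * E + 2)
          * (2 ^ 2 ^ (2 * v) * (v * (2 ^ v * (K * s + 1))) ^ v) := by
          gcongr
      _ = _ := by
          rw [hc]
          have e1 : (h + 5 + 4 * s) * E + 2 = 4 * E * s + ((h + 5) * E + 2) := by ring
          have e2 : v * (2 ^ v * (K * s + 1)) = (v * 2 ^ v) * (K * s + 1) := by ring
          rw [e1, pow_add, e2, mul_pow]
          ring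
  have hsmall := hL0 s hsL
  have h1 : 2 ^ (s * (nn + 1)) < 2 ^ (4 * E * s) * 2 ^ s := by
    refine lt_of_le_of_lt hbig ?_
    exact Nat.mul_lt_mul_of_pos_left hsmall (by positivity)
  rw [← pow_add] at h1
  have h2 := (Nat.pow_lt_pow_iff_right (show 1 < 2 by norm_num)).1 h1
  rw [hnn] at h2
  nlinarith

end Pool.Agent.H589R2.MNL
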