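import Pool.Agent.H589R2.MNL.LinEnc
import Pool.Agent.H589R2.MNL.Single

/-!
# Undirected networks for layered reachability
-/

open Finset

namespace Pool.Agent.H589R2.MNL

variable {m : ℕ}

/-- The labels of all layers. -/
def lxv (hm : 0 < m) (n : ℕ) (l : Fin n → Fin m) (i : ℕ) : Fin m :=
  if h : 1 ≤ i ∧ i ≤ n then l ⟨i - 1, by omega⟩ else ⟨0, hm⟩

/-- The arc of layer `j` along a labelling. -/
def yL (hm : 0 < m) (n : ℕ) (j : ℕ) (l : Fin n → Fin m) : Lv m :=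
  (j, lxv hm n l j, lxv hm n l (j + 1))

open Classical in
/-- The positive input of a labelling. -/
noncomputable def xposL (hm : 0 < m) (n : ℕ) (l : Fin n → Fin m) (z : Lv m) : Bool :=
  decide (∃ j, z = yL hm n j l)

theorem xposL_iff (hm : 0 < m) (n : ℕ) (l : Fin n → Fin m) (z : Lv m) :
    xposL hm n l z = true ↔ ∃ j, z = yL hm n j l := by
  classical
  unfold xposL
  exact decide_eq_true_iff

/-- The value of a sign table. -/
def svL (n : ℕ) (S : Tab (Fin n) m) (i : ℕ) (a : Fin m) : Bool :=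
  if h : 1 ≤ i ∧ i ≤ n then S (⟨i - 1, by omega⟩, a) else decide (i = 0)

/-- The negative input of a sign table. -/
def xnegL (n : ℕ) (S : Tab (Fin n) m) (z : Lv m) : Bool :=
  !(svL n S z.1 z.2.1 && !(svL n S (z.1 + 1) z.2.2))

theorem svL_lxv (hm : 0 < m) (n : ℕ) (S : Tab (Fin n) m) (l : Fin n → Fin m) (i : ℕ) :
    svL n S i (lxv hm n l i) = cval n (fun v => S (v, l v)) i := by
  unfold svL lxv cval
  by_cases h : 1 ≤ i ∧ i ≤ n
  · simp only [h, dif_pos, and_self]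
  · simp only [h, dif_neg, not_false_iff]

theorem xnegL_of (hm : 0 < m) (n : ℕ) (S : Tab (Fin n) m) (j : ℕ) (l : Fin n → Fin m)
    (hv : ¬ vioP n j (fun v => S (v, l v))) : xnegL n S (yL hm n j l) = true := by
  unfold xnegL yL
  simp only [svL_lxv]
  unfold vioP at hv
  cases h1 : cval n (fun v => S (v, l v)) j <;>
    cases h2 : cval n (fun v => S (v, l v)) (j + 1) <;> simp_all

theorem con_xpos (hm : 0 < m) (K : ℕ) (l : Fin (2 * K) → Fin m) :
    Con hm K (xposL hm (2 * K) l) := by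
  refine ⟨lxv hm (2 * K) l, ?_, ?_, fun i _ => ?_⟩
  · unfold lxv
    rw [dif_neg (by omega)]
  · unfold lxv
    rw [dif_neg (by omega)]
  · rw [xposL_iff]
    exact ⟨i, rfl⟩

theorem not_con_xneg (hm : 0 < m) (K : ℕ) (S : Tab (Fin (2 * K)) m) :
    ¬ Con hm K (xnegL (2 * K) S) := by
  rintro ⟨a, _, _, ha⟩
  have key : ∀ i ≤ 2 * K + 1, svL (2 * K) S i (a i) = true := by
    intro i
    induction i with
    | zero =>
      intro _
      unfold svL
      rw [dif_neg (by omega)]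
      rfl
    | succ i ih =>
      intro hi
      have h1 := ih (by omega)
      have h2 := ha i (by omega)
      unfold xnegL at h2
      simp only [h1, Bool.true_and, Bool.not_not] at h2
      exact h2
  have h3 := key (2 * K + 1) le_rfl
  unfold svL at h3
  rw [dif_neg (by omega)] at h3
  simp at h3

theorem not_con_zero (hm : 0 < m) (K : ℕ) : ¬ Con hm K (fun _ : Lv m => false) := by
  rintro ⟨a, _, _, ha⟩
  exact absurd (ha 0 (by omega)) (by simp)

/-- **The lower bound for one undirected network.** -/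
theorem single_lin (E n₀ : ℕ) : ∃ K s : ℕ, ∃ cc : ℕ, 2 * K + 2 ≤ 2 ^ cc ∧ n₀ ≤ s ∧ 1 ≤ s ∧
    ∀ m, m = 2 ^ s → ∀ hm : 0 < m, ∀ r ≤ 2 ^ ((cc + 3 + 4 * s) * E + 2), ∀ P : NBP (Lv m) r,
    P.Undirected → (∀ x, Con hm K x → P.Accepts x) →
      ¬ ∀ S, ¬ P.Accepts (xnegL (2 * K) S) := by
  classical
  obtain ⟨d, hd⟩ : ∃ d, d = 4 * E + 1 := ⟨_, rfl⟩
  obtain ⟨K, hK⟩ : ∃ K, K = 2 ^ d := ⟨_, rfl⟩
  obtain ⟨cc, hcc⟩ : ∃ cc, cc = d + 2 := ⟨_, rfl⟩
  have hKcc : 2 * K + 2 ≤ 2 ^ cc := by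
    have h1 : 2 ^ cc = 4 * 2 ^ d := by rw [hcc]; ring
    have h2 : 1 ≤ 2 ^ d := Nat.one_le_two_pow
    rw [h1, hK]
    omega
  obtain ⟨v, hv⟩ : ∃ v, v = 2 * K := ⟨_, rfl⟩
  have hcard : Fintype.card (Fin (2 * K)) = v := by rw [Fintype.card_fin, hv]
  have hv1 : 1 ≤ v := by
    have h2 : 1 ≤ 2 ^ d := Nat.one_le_two_pow
    rw [hv, hK]
    omega
  obtain ⟨K', hK'⟩ : ∃ K', K' = 4 * E + v + ((cc + 3) * E + 2) + 3 * v + 1 := ⟨_, rfl⟩
  obtain ⟨c, hc⟩ : ∃ c, c = 2 ^ ((cc + 3) * E + 2) * 2 ^ 2 ^ (2 * v) * (v * 2 ^ v) ^ v := ⟨_, rfl⟩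
  obtain ⟨L0, hL0⟩ := poly_lt_pow c K' v
  obtain ⟨s, hs⟩ : ∃ s, s = max (max L0 n₀) 1 := ⟨_, rfl⟩
  have hs1 : 1 ≤ s := by rw [hs]; exact le_max_right _ _
  have hsL : L0 ≤ s := by rw [hs]; exact (le_max_left _ _).trans (le_max_left _ _)
  have hsn : n₀ ≤ s := by rw [hs]; exact (le_max_right _ _).trans (le_max_left _ _)
  refine ⟨K, s, cc, hKcc, hsn, hs1, fun m hm hm1 r hr P hund hP1 hP2 => ?_⟩
  obtain ⟨t, ht⟩ : ∃ t, t = ((cc + 3 + 4 * s) * E + 2) + 3 * v + s * v + 1 := ⟨_, rfl⟩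
  have hQ1 : 1 ≤ 2 ^ v := Nat.one_le_two_pow
  have hkey := lifting_rev (V := Fin (2 * K)) (m := m) (J := ℕ) (Var := Lv m)
    (fun j c => vioP (2 * K) j c) (by rw [hcard]; exact hv1) hm1
    (fun j l => yL hm1 (2 * K) j l) (fun l => xposL hm1 (2 * K) l)
    (fun l z hz => (xposL_iff hm1 (2 * K) l z).1 hz)
    (fun S => xnegL (2 * K) S) (fun S j l hvl => xnegL_of hm1 (2 * K) S j l hvl) (d + 1)
    (by
      intro T B h0 hstep hdep
      by_contra hno
      refine rev_path (n := 2 * K) (d := d) (by rw [hK]; omega) T B h0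
        (fun c hc => hno ⟨c, hc⟩) (fun i hi => ?_) (fun i hi => ?_)
      · rcases hstep i hi with h | ⟨j, hj⟩
        · exact ⟨0, fun c _ => h c⟩
        · exact ⟨j, hj⟩
      · obtain ⟨F, hF, hF2⟩ := hdep i hi
        exact ⟨F, by omega, fun c c' hag => ⟨hF2 c c' hag, hF2 c' c (fun v hv => (hag v hv).symm)⟩⟩)
    P hund (fun l => hP1 _ (con_xpos hm1 K l)) hP2
    (ε := (1 / 2 : ℝ) ^ t) (by positivity) (p := 2 ^ v * t)
    (by
      have : 1 ≤ t := by rw [ht]; omega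
      exact Nat.mul_le_mul hQ1 this)
    (by
      rw [hcard]
      have h1 := pow_half (2 ^ v) hQ1 t
      have h2 : (1 / 2 : ℝ) ^ v = 1 / ((2 ^ v : ℕ) : ℝ) := by
        push_cast
        rw [div_pow, one_pow]
      rw [h2]
      exact h1)
    (by
      rw [hcard]
      have h1 : r * (2 ^ v * (m ^ v * 2 ^ v))
          ≤ 2 ^ (((cc + 3 + 4 * s) * E + 2) + 2 * v + s * v) := by
        calc r * (2 ^ v * (m ^ v * 2 ^ v))
            ≤ 2 ^ ((cc + 3 + 4 * s) * E + 2) * (2 ^ v * (m ^ v * 2 ^ v)) :=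
              Nat.mul_le_mul_right _ hr
          _ = _ := by
            rw [hm, ← pow_mul, ← pow_add, ← pow_add, ← pow_add]
            congr 1
            ring
      have h2 : ((r * (2 ^ v * (m ^ v * 2 ^ v)) : ℕ) : ℝ)
          ≤ (2 : ℝ) ^ (((cc + 3 + 4 * s) * E + 2) + 2 * v + s * v) := by exact_mod_cast h1
      have h3 : (0 : ℝ) < (1 / 2) ^ t := by positivity
      have h4 : (1 / 2 : ℝ) ^ t = (1 / 2) ^ (((cc + 3 + 4 * s) * E + 2) + 2 * v + s * v)
          * ((1 / 2) ^ v * (1 / 2)) := by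
        rw [ht, ← pow_succ, ← pow_add]
        congr 1
        ring
      calc ((r * (2 ^ v * (m ^ v * 2 ^ v)) : ℕ) : ℝ) * (1 / 2) ^ t
          ≤ (2 : ℝ) ^ (((cc + 3 + 4 * s) * E + 2) + 2 * v + s * v) * (1 / 2) ^ t :=
            mul_le_mul_of_nonneg_right h2 h3.le
        _ = ((2 : ℝ) ^ (((cc + 3 + 4 * s) * E + 2) + 2 * v + s * v)
            * (1 / 2) ^ (((cc + 3 + 4 * s) * E + 2) + 2 * v + s * v)) * ((1 / 2) ^ v * (1 / 2)) := by
            rw [h4]; ring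
        _ = (1 / 2) ^ v * (1 / 2) := by
            rw [← mul_pow]
            norm_num
        _ < (1 / 2) ^ v := by
            have : (0 : ℝ) < (1 / 2) ^ v := by positivity
            linarith)
  rw [hcard] at hkey
  -- arithmetic
  have hbig : 2 ^ (s * (d + 1)) ≤ 2 ^ (4 * E * s) * (c * (K' * s + 1) ^ v) := by
    have ht2 : t ≤ K' * s + 1 := by
      have h1 : ((cc + 3) * E + 2) ≤ ((cc + 3) * E + 2) * s := Nat.le_mul_of_pos_right _ hs1
      have h2 : 3 * v ≤ 3 * v * s := Nat.le_mul_of_pos_right _ hs1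
      rw [ht, hK']
      nlinarith
    calc 2 ^ (s * (d + 1)) = m ^ (d + 1) := by rw [hm, ← pow_mul]
      _ ≤ r * (2 ^ 2 ^ (2 * v) * (v * (2 ^ v * t)) ^ v) := hkey
      _ ≤ 2 ^ ((cc + 3 + 4 * s) * E + 2)
          * (2 ^ 2 ^ (2 * v) * (v * (2 ^ v * (K' * s + 1))) ^ v) := by
          gcongr
      _ = _ := by
          rw [hc]
          have e1 : (cc + 3 + 4 * s) * E + 2 = 4 * E * s + ((cc + 3) * E + 2) := by ring
          have e2 : v * (2 ^ v * (K' * s + 1)) = (v * 2 ^ v) * (K' * s + 1) := by ring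
          rw [e1, pow_add, e2, mul_pow]
          ring
  have hsmall := hL0 s hsL
  have h1 : 2 ^ (s * (d + 1)) < 2 ^ (4 * E * s) * 2 ^ s := by
    refine lt_of_le_of_lt hbig ?_
    exact Nat.mul_lt_mul_of_pos_left hsmall (by positivity)
  rw [← pow_add] at h1
  have h2 := (Nat.pow_lt_pow_iff_right (show 1 < 2 by norm_num)).1 h1
  rw [hd] at h2
  nlinarith

end Pool.Agent.H589R2.MNL
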