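import Pool.Agent.H589R2.MNL.Mach2

/-!
# A pushdown automaton with one reversal for layered reachability
-/

namespace Pool.Agent.H589R2.MNL

open Sk

/-- The pushdown makes at most one reversal: a set `down` of states is never left, outside it no
step shortens the stack, and inside it no step lengthens the stack. -/
def PDA.OneTurn {Γ : Type} (M : PDA Γ) : Prop :=
  ∃ down : Set M.Q, ∀ q a z, ∀ c ∈ M.δ q a z,
    (q ∉ down → 1 ≤ c.2.length) ∧ (q ∈ down → c.1 ∈ down ∧ c.2.length ≤ 1)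

/-- letters -/
inductive Lt | bl | tr | gl | one | sep | rb | fin | ng | ns | tu | en
  deriving DecidableEq

/-- states -/
inductive Ls | sk | q0 | pa | pb | q1 | w0 | wc | wb | w1 | ff
  deriving DecidableEq

open Lt Ls

instance : Fintype Lt := ⟨{bl, tr, gl, one, sep, rb, fin, ng, ns, tu, en},
  by intro x; cases x <;> simp⟩

instance : Fintype Ls := ⟨{sk, q0, pa, pb, q1, w0, wc, wb, w1, ff}, by intro x; cases x <;> simp⟩

/-- The moves. -/
def ld : Ls → Lt → Sk → Option (Ls × List Sk)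
  | sk, ng, z => some (q0, [X, z])
  | sk, _, z => some (sk, [z])
  | q0, bl, z => some (q0, [z])
  | q0, tr, z => some (pa, [X, z])
  | q0, tu, z => some (w0, [X, z])
  | pa, one, z => some (pa, [I, z])
  | pa, sep, z => some (pb, [X, z])
  | pb, one, z => some (pb, [I, z])
  | pb, rb, z => some (q1, [z])
  | q1, bl, z => some (q1, [z])
  | q1, fin, z => some (q0, [z])
  | w0, bl, z => some (w0, [z])
  | w0, gl, z => some (wc, [z])
  | w0, en, B => some (ff, [B])
  | wc, one, I => some (wc, [])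
  | wc, sep, X => some (wb, [])
  | wb, one, I => some (wb, [])
  | wb, rb, X => some (w1, [])
  | w1, bl, z => some (w1, [z])
  | w1, fin, z => some (w0, [z])
  | ff, _, z => some (ff, [z])
  | _, _, _ => none

/-- The nondeterministic moves: the automaton guesses an element of the set of letters it reads. -/
def ldelta (q : Ls) (a : Lt → Bool) (z : Sk) : Set (Ls × List Sk) :=
  {c | ∃ σ, a σ = true ∧ ld q σ z = some c}

/-- The automaton. -/
def lmach : PDA (Lt → Bool) where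
  Q := Ls
  Z := Sk
  finQ := inferInstance
  finZ := inferInstance
  start := sk
  bot := B
  acc := {ff}
  δ := ldelta
  finδ := by
    intro q a z
    refine Set.Finite.subset (Set.finite_range (fun σ : Lt => (ld q σ z).getD (q0, []))) ?_
    rintro c ⟨σ, _, h⟩
    refine ⟨σ, ?_⟩
    simp only
    rw [h]
    rfl

theorem lmach_mono (q : lmach.Q) (a b : Lt → Bool) (z : lmach.Z) (h : a ≤ b) :
    lmach.δ q a z ⊆ lmach.δ q b z := by
  rintro c ⟨σ, h1, h2⟩
  exact ⟨σ, h σ h1, h2⟩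

theorem lmach_oneTurn : lmach.OneTurn := by
  refine ⟨{w0, wc, wb, w1, ff}, ?_⟩
  rintro q a z c ⟨σ, _, h⟩
  have key : ∀ (q : Ls) (σ : Lt) (z : Sk) (c : Ls × List Sk), ld q σ z = some c →
      (q ∉ ({w0, wc, wb, w1, ff} : Set Ls) → 1 ≤ c.2.length) ∧
      (q ∈ ({w0, wc, wb, w1, ff} : Set Ls) →
        c.1 ∈ ({w0, wc, wb, w1, ff} : Set Ls) ∧ c.2.length ≤ 1) := by
    intro q σ z c h
    cases q <;> cases σ <;> cases z <;> simp [ld] at h <;> subst h <;> simp
  exact key q σ z c h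

/-- One step. -/
def lS (a : Lt → Bool) : Ls × List Sk → Ls × List Sk → Prop
  | (_, []), _ => False
  | (q, z :: s), c => ∃ t, (c.1, t) ∈ ldelta q a z ∧ c.2 = t ++ s

/-- Reading a word. -/
def lR : List (Lt → Bool) → Ls × List Sk → Ls × List Sk → Prop
  | [], c, c' => c = c'
  | a :: w, c, c' => ∃ d, lS a c d ∧ lR w d c'

theorem lmach_run (w : List (Lt → Bool)) (c c' : Ls × List Sk) :
    lmach.Run w c c' ↔ lR w c c' := by
  induction w generalizing c with
  | nil => exact Iff.rfl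
  | cons a w ih =>
    have hS : ∀ d : Ls × List Sk, lmach.Step a c d ↔ lS a c d := by
      intro d
      rcases c with ⟨q, _ | ⟨z, s⟩⟩
      · exact Iff.rfl
      · exact Iff.rfl
    constructor
    · rintro ⟨d, h1, h2⟩
      exact ⟨d, (hS d).1 h1, (ih d).1 h2⟩
    · rintro ⟨d, h1, h2⟩
      exact ⟨d, (hS d).2 h1, (ih d).2 h2⟩

/-- steps -/
theorem lS_iff (a : Lt → Bool) (q : Ls) (z : Sk) (s : List Sk) (c : Ls × List Sk) :
    lS a (q, z :: s) c ↔ ∃ σ, a σ = true ∧ ∃ d, ld q σ z = some d ∧ c = (d.1, d.2 ++ s) := by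
  constructor
  · rintro ⟨t, ⟨σ, h1, h2⟩, h3⟩
    exact ⟨σ, h1, (c.1, t), h2, Prod.ext rfl h3⟩
  · rintro ⟨σ, h1, d, h2, rfl⟩
    exact ⟨d.2, ⟨σ, h1, h2⟩, rfl⟩

theorem lR_append (w₁ w₂ : List (Lt → Bool)) (c c' : Ls × List Sk) :
    lR (w₁ ++ w₂) c c' ↔ ∃ d : Ls × List Sk, lR w₁ c d ∧ lR w₂ d c' := by
  induction w₁ generalizing c with
  | nil =>
    constructor
    · intro h; exact ⟨c, rfl, h⟩
    · rintro ⟨d, h1, h2⟩
      have h1' : c = d := h1
      rw [h1']; exact h2
  | cons a w ih =>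
    constructor
    · rintro ⟨d, h1, h2⟩
      obtain ⟨e, h3, h4⟩ := (ih d).1 h2
      exact ⟨e, ⟨d, h1, h3⟩, h4⟩
    · rintro ⟨e, ⟨d, h1, h3⟩, h4⟩
      exact ⟨d, h1, (ih d).2 ⟨e, h3, h4⟩⟩

theorem lR_cons (a : Lt → Bool) (w : List (Lt → Bool)) (c c' : Ls × List Sk) :
    lR (a :: w) c c' ↔ ∃ d : Ls × List Sk, lS a c d ∧ lR w d c' := Iff.rfl

theorem lR_nil (c c' : Ls × List Sk) : lR [] c c' ↔ c = c' := Iff.rfl

/-- the set consisting of the blank and `σ` -/
def lp (σ : Lt) : Lt → Bool := fun τ => decide (τ = bl ∨ τ = σ)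

/-- the set consisting of the blank, and of `σ` if `x` -/
def ls (σ : Lt) (x : Bool) : Lt → Bool := fun τ => if τ = σ then x else decide (τ = bl)

/-- the set consisting of `σ` -/
def lo (σ : Lt) : Lt → Bool := fun τ => decide (τ = σ)

/-- the letter before a block -/
def ln : Lt → Bool := fun τ => decide (τ = ng ∨ τ = ns)

/-- inert letters -/
def LInert (w : List (Lt → Bool)) : Prop := ∀ a ∈ w, a = lp one ∨ a = lp sep ∨ a = lp rb

/-- idle states -/
def LIdle (q : Ls) : Prop := q = q0 ∨ q = q1 ∨ q = w0 ∨ q = w1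

theorem lidle_step {q : Ls} (h : LIdle q) {a : Lt → Bool}
    (ha : a = lp one ∨ a = lp sep ∨ a = lp rb) (z : Sk) (s : List Sk) (c : Ls × List Sk) :
    lS a (q, z :: s) c ↔ c = (q, z :: s) := by
  rw [lS_iff]
  constructor
  · rintro ⟨σ, h1, d, h2, rfl⟩
    rcases h with rfl | rfl | rfl | rfl <;> rcases ha with rfl | rfl | rfl <;> cases σ <;>
      simp [lp, ld] at h1 h2 <;> (subst h2; rfl)
  · rintro rfl
    refine ⟨bl, ?_, (q, [z]), ?_, rfl⟩
    · rcases ha with rfl | rfl | rfl <;> simp [lp]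
    · rcases h with rfl | rfl | rfl | rfl <;> rfl

theorem lidle_run {q : Ls} (h : LIdle q) {w : List (Lt → Bool)} (hw : LInert w) (z : Sk)
    (s : List Sk) (c : Ls × List Sk) : lR w (q, z :: s) c ↔ c = (q, z :: s) := by
  induction w with
  | nil =>
    constructor
    · intro h'; exact (show (q, z :: s) = c from h').symm
    · intro h'; exact (show (q, z :: s) = c from h'.symm)
  | cons a w ih =>
    have hw' : LInert w := fun b hb => hw b (List.mem_cons_of_mem _ hb)
    constructor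
    · rintro ⟨d, h1, h2⟩
      rw [lidle_step h (hw a (List.mem_cons_self))] at h1
      rw [h1] at h2
      exact (ih hw').1 h2
    · intro h'
      exact ⟨(q, z :: s), (lidle_step h (hw a (List.mem_cons_self)) _ _ _).2 rfl, (ih hw').2 h'⟩

/-- pushing ones -/
theorem lrun_push {q : Ls} (hq : q = pa ∨ q = pb) (n : ℕ) (s : List Sk) (hs : s ≠ [])
    (c : Ls × List Sk) :
    lR (List.replicate n (lp one)) (q, s) c ↔ c = (q, List.replicate n I ++ s) := by
  induction n generalizing s with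
  | zero =>
    constructor
    · intro h; exact (show (q, s) = c from h).symm
    · intro h; exact (show (q, s) = c from h.symm)
  | succ n ih =>
    obtain ⟨z, s, rfl⟩ := List.exists_cons_of_ne_nil hs
    have hrep : List.replicate (n + 1) I ++ (z :: s) = List.replicate n I ++ (I :: z :: s) := by
      rw [List.replicate_succ']
      simp
    rw [List.replicate_succ, hrep]
    constructor
    · rintro ⟨d, h1, h2⟩
      rw [lS_iff] at h1
      obtain ⟨σ, h3, e, h4, rfl⟩ := h1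
      have : e = (q, [I, z]) := by
        rcases hq with rfl | rfl <;> cases σ <;> cases z <;> simp [lp, ld] at h3 h4 <;> simp [h4]
      rw [this] at h2
      exact (ih (I :: z :: s) (by simp)).1 h2
    · intro h
      refine ⟨(q, I :: z :: s), ?_, (ih (I :: z :: s) (by simp)).2 h⟩
      rw [lS_iff]
      refine ⟨one, by simp [lp], (q, [I, z]), ?_, rfl⟩
      rcases hq with rfl | rfl <;> rfl

/-- popping ones -/
theorem lrun_pop {q : Ls} (hq : q = wc ∨ q = wb) (n : ℕ) (s : List Sk)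
    (c : Ls × List Sk) :
    lR (List.replicate n (lp one)) (q, s) c ↔
      ∃ s', s = List.replicate n I ++ s' ∧ c = (q, s') := by
  induction n generalizing s with
  | zero =>
    constructor
    · intro h; exact ⟨s, rfl, (show (q, s) = c from h).symm⟩
    · rintro ⟨s', h1, h2⟩
      have : s = s' := h1
      rw [this, h2]; exact rfl
  | succ n ih =>
    rw [List.replicate_succ, List.replicate_succ]
    constructor
    · rintro ⟨d, h1, h2⟩
      rcases s with _ | ⟨z, s⟩
      · exact h1.elim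
      · rw [lS_iff] at h1
        obtain ⟨σ, h3, e, h4, rfl⟩ := h1
        have : z = I ∧ e = (q, []) := by
          rcases hq with rfl | rfl <;> cases σ <;> cases z <;> simp [lp, ld] at h3 h4 <;>
            simp [h4]
        obtain ⟨rfl, rfl⟩ := this
        obtain ⟨s', h5, h6⟩ := (ih s).1 h2
        exact ⟨s', by rw [h5]; rfl, h6⟩
    · rintro ⟨s', rfl, rfl⟩
      refine ⟨(q, List.replicate n I ++ s'), ?_, (ih _).2 ⟨s', rfl, rfl⟩⟩
      rw [List.cons_append, lS_iff]
      refine ⟨one, by simp [lp], (q, []), ?_, rfl⟩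
      rcases hq with rfl | rfl <;> rfl

theorem lstep_sep_pa (z : Sk) (s : List Sk) (c : Ls × List Sk) :
    lS (lp sep) (pa, z :: s) c ↔ c = (pb, X :: z :: s) := by
  rw [lS_iff]
  constructor
  · rintro ⟨σ, h1, d, h2, rfl⟩
    cases σ <;> simp [lp, ld] at h1 h2 <;> (subst h2; rfl)
  · rintro rfl
    exact ⟨sep, by simp [lp], (pb, [X, z]), rfl, rfl⟩

theorem lstep_rb_pb (z : Sk) (s : List Sk) (c : Ls × List Sk) :
    lS (lp rb) (pb, z :: s) c ↔ c = (q1, z :: s) := by
  rw [lS_iff]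
  constructor
  · rintro ⟨σ, h1, d, h2, rfl⟩
    cases σ <;> simp [lp, ld] at h1 h2 <;> (subst h2; rfl)
  · rintro rfl
    exact ⟨rb, by simp [lp], (q1, [z]), rfl, rfl⟩

theorem lstep_sep_wc (s : List Sk) (c : Ls × List Sk) :
    lS (lp sep) (wc, s) c ↔ ∃ s', s = X :: s' ∧ c = (wb, s') := by
  rcases s with _ | ⟨z, s⟩
  · constructor
    · intro h; exact h.elim
    · rintro ⟨s', h, _⟩; exact absurd h (by simp)
  · rw [lS_iff]
    constructor
    · rintro ⟨σ, h1, d, h2, rfl⟩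
      cases σ <;> cases z <;> simp [lp, ld] at h1 h2
      subst h2
      exact ⟨s, rfl, rfl⟩
    · rintro ⟨s', h, rfl⟩
      simp only [List.cons.injEq] at h
      obtain ⟨rfl, rfl⟩ := h
      exact ⟨sep, by simp [lp], (wb, []), rfl, rfl⟩

theorem lstep_rb_wb (s : List Sk) (c : Ls × List Sk) :
    lS (lp rb) (wb, s) c ↔ ∃ s', s = X :: s' ∧ c = (w1, s') := by
  rcases s with _ | ⟨z, s⟩
  · constructor
    · intro h; exact h.elim
    · rintro ⟨s', h, _⟩; exact absurd h (by simp)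
  · rw [lS_iff]
    constructor
    · rintro ⟨σ, h1, d, h2, rfl⟩
      cases σ <;> cases z <;> simp [lp, ld] at h1 h2
      subst h2
      exact ⟨s, rfl, rfl⟩
    · rintro ⟨s', h, rfl⟩
      simp only [List.cons.injEq] at h
      obtain ⟨rfl, rfl⟩ := h
      exact ⟨rb, by simp [lp], (w1, []), rfl, rfl⟩

/-- the rest of a window -/
def restW (a b : ℕ) : List (Lt → Bool) :=
  List.replicate a (lp one) ++ (lp sep :: (List.replicate b (lp one) ++ [lp rb]))

theorem lrun_restP (a b : ℕ) (s : List Sk) (c : Ls × List Sk) :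
    lR (restW a b) (pa, X :: s) c ↔ c = (q1, lab b (lab a s)) := by
  unfold restW
  rw [lR_append]
  constructor
  · rintro ⟨d, h1, h2⟩
    rw [lrun_push (Or.inl rfl) a _ (by simp)] at h1
    subst h1
    rw [lR_cons] at h2
    obtain ⟨d, h1, h2⟩ := h2
    obtain ⟨z, s1, hz⟩ := List.exists_cons_of_ne_nil (lab_ne a s)
    change lS (lp sep) (pa, lab a s) d at h1
    rw [hz, lstep_sep_pa, ← hz] at h1
    subst h1
    rw [lR_append] at h2
    obtain ⟨d, h1, h2⟩ := h2
    rw [lrun_push (Or.inr rfl) b _ (by simp)] at h1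
    subst h1
    rw [lR_cons] at h2
    obtain ⟨d, h1, h2⟩ := h2
    obtain ⟨z, s2, hz2⟩ := List.exists_cons_of_ne_nil (lab_ne b (lab a s))
    change lS (lp rb) (pb, lab b (lab a s)) d at h1
    rw [hz2, lstep_rb_pb, ← hz2] at h1
    subst h1
    exact ((lR_nil _ _).1 h2).symm
  · rintro rfl
    refine ⟨(pa, lab a s), (lrun_push (Or.inl rfl) a _ (by simp) _).2 rfl, ?_⟩
    rw [lR_cons]
    obtain ⟨z, s1, hz⟩ := List.exists_cons_of_ne_nil (lab_ne a s)
    refine ⟨(pb, X :: lab a s), ?_, ?_⟩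
    · rw [hz, lstep_sep_pa]
    · rw [lR_append]
      refine ⟨(pb, lab b (lab a s)), (lrun_push (Or.inr rfl) b _ (by simp) _).2 rfl, ?_⟩
      rw [lR_cons]
      obtain ⟨z, s2, hz2⟩ := List.exists_cons_of_ne_nil (lab_ne b (lab a s))
      refine ⟨(q1, lab b (lab a s)), ?_, rfl⟩
      rw [hz2, lstep_rb_pb]

theorem lrun_restQ (b a : ℕ) (s : List Sk) (c : Ls × List Sk) :
    lR (restW b a) (wc, s) c ↔ ∃ s', s = lab b (lab a s') ∧ c = (w1, s') := by
  unfold restW
  rw [lR_append]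
  constructor
  · rintro ⟨d, h1, h2⟩
    rw [lrun_pop (Or.inl rfl)] at h1
    obtain ⟨s1, rfl, rfl⟩ := h1
    rw [lR_cons] at h2
    obtain ⟨d, h1, h2⟩ := h2
    rw [lstep_sep_wc] at h1
    obtain ⟨s2, rfl, rfl⟩ := h1
    rw [lR_append] at h2
    obtain ⟨d, h1, h2⟩ := h2
    rw [lrun_pop (Or.inr rfl)] at h1
    obtain ⟨s3, rfl, rfl⟩ := h1
    rw [lR_cons] at h2
    obtain ⟨d, h1, h2⟩ := h2
    rw [lstep_rb_wb] at h1
    obtain ⟨s4, rfl, rfl⟩ := h1
    exact ⟨s4, rfl, ((lR_nil _ _).1 h2).symm⟩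
  · rintro ⟨s4, rfl, rfl⟩
    refine ⟨(wc, X :: lab a s4), (lrun_pop (Or.inl rfl) _ _ _).2 ⟨_, rfl, rfl⟩, ?_⟩
    rw [lR_cons]
    refine ⟨(wb, lab a s4), (lstep_sep_wc _ _).2 ⟨_, rfl, rfl⟩, ?_⟩
    rw [lR_append]
    refine ⟨(wb, X :: s4), (lrun_pop (Or.inr rfl) _ _ _).2 ⟨_, rfl, rfl⟩, ?_⟩
    rw [lR_cons]
    exact ⟨(w1, s4), (lstep_rb_wb _ _).2 ⟨_, rfl, rfl⟩, rfl⟩

theorem linert_rest (a b : ℕ) : LInert (restW a b) := by
  intro c hc
  unfold restW at hc
  rw [List.mem_append, List.mem_cons, List.mem_append, List.mem_singleton] at hc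
  rcases hc with h | rfl | h | rfl
  · exact Or.inl (List.eq_of_mem_replicate h)
  · exact Or.inr (Or.inl rfl)
  · exact Or.inl (List.eq_of_mem_replicate h)
  · exact Or.inr (Or.inr rfl)

/-- a window that pushes the labels `a`, `b` -/
def winP (x : Bool) (a b : ℕ) : List (Lt → Bool) := ls tr x :: restW a b

/-- a window that pops the labels `b`, `a` -/
def winQ (x : Bool) (a b : ℕ) : List (Lt → Bool) := ls gl x :: restW b a

/-- `w` is a window: in the state `b` it can be skipped, or used (leading to the state `u`) to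
change the stack according to `ρ`; in the state `u` it can only be skipped. -/
def LWin (b u : Ls) (w : List (Lt → Bool)) (ρ : List Sk → List Sk → Prop) : Prop :=
  (∀ s, s ≠ [] → ∀ c : Ls × List Sk, lR w (b, s) c ↔ c = (b, s) ∨ ∃ s', ρ s s' ∧ c = (u, s')) ∧
  (∀ s, ∀ c : Ls × List Sk, lR w (u, s) c ↔ s ≠ [] ∧ c = (u, s))

theorem lwin_u {u : Ls} (hu : u = q1 ∨ u = w1) {σ : Lt} (hσ : σ = tr ∨ σ = gl) (x : Bool)
    (a b : ℕ) (s : List Sk) (c : Ls × List Sk) :
    lR (ls σ x :: restW a b) (u, s) c ↔ s ≠ [] ∧ c = (u, s) := by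
  have hid : LIdle u := by
    rcases hu with rfl | rfl
    · exact Or.inr (Or.inl rfl)
    · exact Or.inr (Or.inr (Or.inr rfl))
  rw [lR_cons]
  constructor
  · rintro ⟨d, h1, h2⟩
    rcases s with _ | ⟨z, s⟩
    · exact h1.elim
    · rw [lS_iff] at h1
      obtain ⟨τ, h3, e, h4, rfl⟩ := h1
      have he : e = (u, [z]) := by
        rcases hu with rfl | rfl <;> rcases hσ with rfl | rfl <;> cases τ <;>
          simp [ls, ld] at h3 h4 <;> simp [h4]
      subst he
      exact ⟨by simp, (lidle_run hid (linert_rest a b) _ _ _).1 h2⟩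
  · rintro ⟨h1, rfl⟩
    obtain ⟨z, s, rfl⟩ := List.exists_cons_of_ne_nil h1
    refine ⟨(u, z :: s), ?_, (lidle_run hid (linert_rest a b) _ _ _).2 rfl⟩
    rw [lS_iff]
    refine ⟨bl, ?_, (u, [z]), ?_, rfl⟩
    · rcases hσ with rfl | rfl <;> simp [ls]
    · rcases hu with rfl | rfl <;> rfl

theorem lwin_P (x : Bool) (a b : ℕ) :
    LWin q0 q1 (winP x a b) (fun s s' => x = true ∧ s' = lab b (lab a s)) := by
  refine ⟨fun s hs c => ?_, fun s c => lwin_u (Or.inl rfl) (Or.inl rfl) x a b s c⟩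
  obtain ⟨z, s, rfl⟩ := List.exists_cons_of_ne_nil hs
  unfold winP
  rw [lR_cons]
  constructor
  · rintro ⟨d, h1, h2⟩
    rw [lS_iff] at h1
    obtain ⟨τ, h3, e, h4, rfl⟩ := h1
    by_cases hτ : τ = tr
    · subst hτ
      have hx : x = true := by simpa [ls] using h3
      simp only [ld, Option.some.injEq] at h4
      subst h4
      exact Or.inr ⟨_, ⟨hx, rfl⟩, (lrun_restP a b (z :: s) c).1 h2⟩
    · have hτ' : τ = bl := by simpa [ls, hτ] using h3
      subst hτ'
      simp only [ld, Option.some.injEq] at h4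
      subst h4
      exact Or.inl ((lidle_run (Or.inl rfl) (linert_rest a b) _ _ _).1 h2)
  · rintro (rfl | ⟨s', ⟨hx, rfl⟩, rfl⟩)
    · refine ⟨(q0, z :: s), ?_, (lidle_run (Or.inl rfl) (linert_rest a b) _ _ _).2 rfl⟩
      rw [lS_iff]
      exact ⟨bl, by simp [ls], (q0, [z]), rfl, rfl⟩
    · refine ⟨(pa, X :: z :: s), ?_, (lrun_restP a b (z :: s) _).2 rfl⟩
      rw [lS_iff]
      exact ⟨tr, by simp [ls, hx], (pa, [X, z]), rfl, rfl⟩

theorem lwin_Q (x : Bool) (a b : ℕ) :
    LWin w0 w1 (winQ x a b) (fun s s' => x = true ∧ s = lab b (lab a s')) := by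
  refine ⟨fun s hs c => ?_, fun s c => lwin_u (Or.inr rfl) (Or.inr rfl) x b a s c⟩
  obtain ⟨z, s, rfl⟩ := List.exists_cons_of_ne_nil hs
  unfold winQ
  rw [lR_cons]
  constructor
  · rintro ⟨d, h1, h2⟩
    rw [lS_iff] at h1
    obtain ⟨τ, h3, e, h4, rfl⟩ := h1
    by_cases hτ : τ = gl
    · subst hτ
      have hx : x = true := by simpa [ls] using h3
      simp only [ld, Option.some.injEq] at h4
      subst h4
      obtain ⟨s', h5, h6⟩ := (lrun_restQ b a (z :: s) c).1 h2
      exact Or.inr ⟨s', ⟨hx, h5⟩, h6⟩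
    · have hτ' : τ = bl := by simpa [ls, hτ] using h3
      subst hτ'
      simp only [ld, Option.some.injEq] at h4
      subst h4
      exact Or.inl ((lidle_run (Or.inr (Or.inr (Or.inl rfl))) (linert_rest b a) _ _ _).1 h2)
  · rintro (rfl | ⟨s', ⟨hx, h5⟩, rfl⟩)
    · refine ⟨(w0, z :: s), ?_,
        (lidle_run (Or.inr (Or.inr (Or.inl rfl))) (linert_rest b a) _ _ _).2 rfl⟩
      rw [lS_iff]
      exact ⟨bl, by simp [ls], (w0, [z]), rfl, rfl⟩
    · refine ⟨(wc, z :: s), ?_, (lrun_restQ b a (z :: s) _).2 ⟨s', h5, rfl⟩⟩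
      rw [lS_iff]
      exact ⟨gl, by simp [ls, hx], (wc, [z]), rfl, rfl⟩

/-- A table: windows followed by the end letter. -/
theorem lrun_block {ι : Type*} {b u : Ls} (hb : b = q0 ∨ b = w0)
    (hok : ∀ s, ∀ c : Ls × List Sk, lR [lo fin] (u, s) c → s ≠ [])
    (w : ι → List (Lt → Bool)) (ρ : ι → List Sk → List Sk → Prop)
    (hw : ∀ i, LWin b u (w i) (ρ i)) (L : List ι) (s : List Sk) (c : Ls × List Sk) :
    (lR (L.flatMap w ++ [lo fin]) (u, s) c ↔ lR [lo fin] (u, s) c) ∧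
    (s ≠ [] → (lR (L.flatMap w ++ [lo fin]) (b, s) c ↔
      ∃ i ∈ L, ∃ s', ρ i s s' ∧ lR [lo fin] (u, s') c)) := by
  induction L generalizing s with
  | nil =>
    refine ⟨by rw [List.flatMap_nil, List.nil_append], fun hs => ?_⟩
    rw [List.flatMap_nil, List.nil_append]
    constructor
    · intro h
      exfalso
      rw [lR_cons] at h
      obtain ⟨d, h1, _⟩ := h
      obtain ⟨z, s, rfl⟩ := List.exists_cons_of_ne_nil hs
      rw [lS_iff] at h1
      obtain ⟨σ, h3, e, h4, _⟩ := h1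
      rcases hb with rfl | rfl <;> cases σ <;> simp [lo, ld] at h3 h4
    · rintro ⟨i, hi, _⟩
      simp at hi
  | cons i L ih =>
    rw [List.flatMap_cons, List.append_assoc]
    refine ⟨?_, fun hs => ?_⟩
    · rw [lR_append]
      constructor
      · rintro ⟨d, h1, h2⟩
        rw [(hw i).2] at h1
        obtain ⟨_, rfl⟩ := h1
        exact (ih s).1.1 h2
      · intro h
        exact ⟨(u, s), ((hw i).2 s _).2 ⟨hok s c h, rfl⟩, (ih s).1.2 h⟩
    · rw [lR_append]
      constructor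
      · rintro ⟨d, h1, h2⟩
        rw [(hw i).1 s hs] at h1
        rcases h1 with rfl | ⟨s', h3, rfl⟩
        · obtain ⟨j, hj, s', h4, h5⟩ := ((ih s).2 hs).1 h2
          exact ⟨j, List.mem_cons_of_mem _ hj, s', h4, h5⟩
        · exact ⟨i, List.mem_cons_self, s', h3, (ih s').1.1 h2⟩
      · rintro ⟨j, hj, s', h4, h5⟩
        rcases List.mem_cons.1 hj with rfl | hj
        · exact ⟨(u, s'), ((hw j).1 s hs _).2 (Or.inr ⟨s', h4, rfl⟩), (ih s').1.2 h5⟩
        · exact ⟨(b, s), ((hw i).1 s hs _).2 (Or.inl rfl),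
            ((ih s).2 hs).2 ⟨j, hj, s', h4, h5⟩⟩

theorem lrun_fin_q1 (s : List Sk) (c : Ls × List Sk) :
    lR [lo fin] (q1, s) c ↔ s ≠ [] ∧ c = (q0, s) := by
  rw [lR_cons]
  constructor
  · rintro ⟨d, h1, h2⟩
    rw [lR_nil] at h2
    subst h2
    rcases s with _ | ⟨z, s⟩
    · exact h1.elim
    · rw [lS_iff] at h1
      obtain ⟨σ, h3, e, h4, rfl⟩ := h1
      refine ⟨by simp, ?_⟩
      cases σ <;> simp [lo, ld] at h3 h4
      subst h4
      rfl
  · rintro ⟨h, rfl⟩
    obtain ⟨z, s, rfl⟩ := List.exists_cons_of_ne_nil h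
    refine ⟨(q0, z :: s), ?_, rfl⟩
    rw [lS_iff]
    exact ⟨fin, by simp [lo], (q0, [z]), rfl, rfl⟩

theorem lrun_fin_w1 (s : List Sk) (c : Ls × List Sk) :
    lR [lo fin] (w1, s) c ↔ s ≠ [] ∧ c = (w0, s) := by
  rw [lR_cons]
  constructor
  · rintro ⟨d, h1, h2⟩
    rw [lR_nil] at h2
    subst h2
    rcases s with _ | ⟨z, s⟩
    · exact h1.elim
    · rw [lS_iff] at h1
      obtain ⟨σ, h3, e, h4, rfl⟩ := h1
      refine ⟨by simp, ?_⟩
      cases σ <;> simp [lo, ld] at h3 h4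
      subst h4
      rfl
  · rintro ⟨h, rfl⟩
    obtain ⟨z, s, rfl⟩ := List.exists_cons_of_ne_nil h
    refine ⟨(w0, z :: s), ?_, rfl⟩
    rw [lS_iff]
    exact ⟨fin, by simp [lo], (w0, [z]), rfl, rfl⟩

theorem lstep_tu (z : Sk) (s : List Sk) (c : Ls × List Sk) :
    lR [lo tu] (q0, z :: s) c ↔ c = (w0, X :: z :: s) := by
  rw [lR_cons]
  constructor
  · rintro ⟨d, h1, h2⟩
    rw [lR_nil] at h2
    subst h2
    rw [lS_iff] at h1
    obtain ⟨σ, h3, e, h4, rfl⟩ := h1
    cases σ <;> simp [lo, ld] at h3 h4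
    subst h4
    rfl
  · rintro rfl
    refine ⟨(w0, X :: z :: s), ?_, rfl⟩
    rw [lS_iff]
    exact ⟨tu, by simp [lo], (w0, [X, z]), rfl, rfl⟩

theorem lstep_en (z : Sk) (s : List Sk) (c : Ls × List Sk) :
    lR [lo en] (w0, z :: s) c ↔ z = B ∧ c = (ff, z :: s) := by
  rw [lR_cons]
  constructor
  · rintro ⟨d, h1, h2⟩
    rw [lR_nil] at h2
    subst h2
    rw [lS_iff] at h1
    obtain ⟨σ, h3, e, h4, rfl⟩ := h1
    cases σ <;> cases z <;> simp [lo, ld] at h3 h4
    subst h4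
    exact ⟨rfl, rfl⟩
  · rintro ⟨rfl, rfl⟩
    refine ⟨(ff, B :: s), ?_, rfl⟩
    rw [lS_iff]
    exact ⟨en, by simp [lo], (ff, [B]), rfl, rfl⟩

theorem lstep_ln (s : List Sk) (z : Sk) (c : Ls × List Sk) :
    lS ln (sk, z :: s) c ↔ c = (sk, z :: s) ∨ c = (q0, X :: z :: s) := by
  rw [lS_iff]
  constructor
  · rintro ⟨σ, h3, e, h4, rfl⟩
    cases σ <;> simp [ln, ld] at h3 h4
    · subst h4; right; rfl
    · subst h4; left; rfl
  · rintro (rfl | rfl)
    · exact ⟨ns, by simp [ln], (sk, [z]), rfl, rfl⟩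
    · exact ⟨ng, by simp [ln], (q0, [X, z]), rfl, rfl⟩

/-- letters that are nonempty and do not contain `ng` -/
def LNE (w : List (Lt → Bool)) : Prop := ∀ a ∈ w, (∃ σ, a σ = true) ∧ a ng = false

theorem lrun_sk (w : List (Lt → Bool)) (hw : LNE w) (z : Sk) (s : List Sk) (c : Ls × List Sk) :
    lR w (sk, z :: s) c ↔ c = (sk, z :: s) := by
  induction w with
  | nil =>
    constructor
    · intro h; exact (show (sk, z :: s) = c from h).symm
    · intro h; exact (show (sk, z :: s) = c from h.symm)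
  | cons a w ih =>
    have hw' : LNE w := fun b hb => hw b (List.mem_cons_of_mem _ hb)
    obtain ⟨⟨τ, hτ⟩, hng⟩ := hw a List.mem_cons_self
    have hld : ∀ σ, σ ≠ ng → ld sk σ z = some (sk, [z]) := by
      intro σ hσ
      cases σ <;> simp at hσ <;> rfl
    rw [lR_cons]
    constructor
    · rintro ⟨d, h1, h2⟩
      rw [lS_iff] at h1
      obtain ⟨σ, h3, e, h4, rfl⟩ := h1
      have hσ : σ ≠ ng := by
        rintro rfl
        rw [hng] at h3
        simp at h3
      rw [hld σ hσ, Option.some.injEq] at h4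
      subst h4
      exact (ih hw').1 h2
    · rintro rfl
      have hτ' : τ ≠ ng := by
        rintro rfl
        rw [hng] at hτ
        simp at hτ
      refine ⟨(sk, z :: s), ?_, (ih hw').2 rfl⟩
      rw [lS_iff]
      exact ⟨τ, hτ, (sk, [z]), hld τ hτ', rfl⟩

theorem lrun_ff (w : List (Lt → Bool)) (hw : ∀ a ∈ w, ∃ σ, a σ = true) (z : Sk) (s : List Sk)
    (c : Ls × List Sk) : lR w (ff, z :: s) c ↔ c = (ff, z :: s) := by
  induction w with
  | nil =>
    constructor
    · intro h; exact (show (ff, z :: s) = c from h).symm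
    · intro h; exact (show (ff, z :: s) = c from h.symm)
  | cons a w ih =>
    have hw' : ∀ a ∈ w, ∃ σ, a σ = true := fun b hb => hw b (List.mem_cons_of_mem _ hb)
    obtain ⟨τ, hτ⟩ := hw a List.mem_cons_self
    have hld : ∀ σ, ld ff σ z = some (ff, [z]) := by
      intro σ
      cases σ <;> rfl
    rw [lR_cons]
    constructor
    · rintro ⟨d, h1, h2⟩
      rw [lS_iff] at h1
      obtain ⟨σ, h3, e, h4, rfl⟩ := h1
      rw [hld σ, Option.some.injEq] at h4
      subst h4
      exact (ih hw').1 h2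
    · rintro rfl
      refine ⟨(ff, z :: s), ?_, (ih hw').2 rfl⟩
      rw [lS_iff]
      exact ⟨τ, hτ, (ff, [z]), hld τ, rfl⟩

end Pool.Agent.H589R2.MNL
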