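import Pool.Agent.H589R2.MNL.PDADef

/-!
# A monotone pushdown automaton evaluating tree-shaped constraint systems
-/

namespace Pool.Agent.H589R2.MNL

/-- letters -/
inductive Sy | bl | lf | tr | gl | rb | one | sep | fin
  deriving DecidableEq

/-- states -/
inductive St | q0 | qc | qb | qa | qg | q1 | r | f
  deriving DecidableEq

/-- stack symbols -/
inductive Sk | I | X | B
  deriving DecidableEq

open Sy St Sk

instance : Fintype Sy := ⟨{bl, lf, tr, gl, rb, one, sep, fin}, by intro x; cases x <;> simp⟩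

instance : Fintype St := ⟨{q0, qc, qb, qa, qg, q1, r, f}, by intro x; cases x <;> simp⟩

instance : Fintype Sk := ⟨{I, X, B}, by intro x; cases x <;> simp⟩

/-- The deterministic moves. -/
def dstep : St → Sy → Sk → Option (St × List Sk)
  | q0, bl, z => some (q0, [z])
  | q0, lf, z => some (qa, [X, z])
  | q0, tr, z => some (qc, [z])
  | q0, gl, z => some (qg, [z])
  | qc, one, I => some (qc, [])
  | qc, sep, X => some (qb, [])
  | qb, one, I => some (qb, [])
  | qb, sep, X => some (qa, [X])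
  | qa, one, z => some (qa, [I, z])
  | qa, rb, z => some (q1, [z])
  | q1, bl, z => some (q1, [z])
  | q1, fin, z => some (q0, [z])
  | qg, one, I => some (qg, [])
  | qg, rb, X => some (r, [])
  | r, bl, B => some (r, [B])
  | r, fin, B => some (f, [B])
  | _, _, _ => none

/-- The nondeterministic moves: the automaton guesses an element of the set of letters it reads. -/
def ndelta (q : St) (a : Sy → Bool) (z : Sk) : Set (St × List Sk) :=
  {c | ∃ σ, a σ = true ∧ dstep q σ z = some c}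

/-- The pushdown automaton. -/
def mach : PDA (Sy → Bool) where
  Q := St
  Z := Sk
  finQ := inferInstance
  finZ := inferInstance
  start := q0
  bot := B
  acc := {f}
  δ := ndelta
  finδ := by
    intro q a z
    refine Set.Finite.subset (Set.finite_range (fun σ : Sy => (dstep q σ z).getD (q0, []))) ?_
    rintro c ⟨σ, _, h⟩
    refine ⟨σ, ?_⟩
    simp only
    rw [h]
    rfl

theorem mach_mono (q : mach.Q) (a b : Sy → Bool) (z : mach.Z) (h : a ≤ b) :
    mach.δ q a z ⊆ mach.δ q b z := by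
  rintro c ⟨σ, h1, h2⟩
  exact ⟨σ, h σ h1, h2⟩

/-- One step. -/
def mS (a : Sy → Bool) : St × List Sk → St × List Sk → Prop
  | (_, []), _ => False
  | (q, z :: s), c => ∃ t, (c.1, t) ∈ ndelta q a z ∧ c.2 = t ++ s

/-- Reading a word. -/
def mR : List (Sy → Bool) → St × List Sk → St × List Sk → Prop
  | [], c, c' => c = c'
  | a :: w, c, c' => ∃ d, mS a c d ∧ mR w d c'

theorem mach_run (w : List (Sy → Bool)) (c c' : St × List Sk) :
    mach.Run w c c' ↔ mR w c c' := by
  induction w generalizing c with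
  | nil => exact Iff.rfl
  | cons a w ih =>
    have hS : ∀ d : St × List Sk, mach.Step a c d ↔ mS a c d := by
      intro d
      rcases c with ⟨q, _ | ⟨z, s⟩⟩
      · exact Iff.rfl
      · exact Iff.rfl
    constructor
    · rintro ⟨d, h1, h2⟩
      exact ⟨d, (hS d).1 h1, (ih d).1 h2⟩
    · rintro ⟨d, h1, h2⟩
      exact ⟨d, (hS d).2 h1, (ih d).2 h2⟩

/-- steps of `mach` -/
theorem step_iff (a : Sy → Bool) (q : St) (z : Sk) (s : List Sk) (c : St × List Sk) :
    mS a (q, z :: s) c ↔ ∃ σ, a σ = true ∧ ∃ d, dstep q σ z = some d ∧ c = (d.1, d.2 ++ s) := by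
  constructor
  · rintro ⟨t, ⟨σ, h1, h2⟩, h3⟩
    exact ⟨σ, h1, (c.1, t), h2, Prod.ext rfl h3⟩
  · rintro ⟨σ, h1, d, h2, rfl⟩
    exact ⟨d.2, ⟨σ, h1, h2⟩, rfl⟩

theorem run_append (w₁ w₂ : List (Sy → Bool)) (c c' : St × List Sk) :
    mR (w₁ ++ w₂) c c' ↔ ∃ d : St × List Sk, mR w₁ c d ∧ mR w₂ d c' := by
  induction w₁ generalizing c with
  | nil =>
    constructor
    · intro h; exact ⟨c, rfl, h⟩
    · rintro ⟨d, h1, h2⟩
      have h1' : c = d := h1
      rw [h1']; exact h2
  | cons a w ih =>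
    constructor
    · rintro ⟨d, h1, h2⟩
      obtain ⟨e, h3, h4⟩ := (ih d).1 h2
      exact ⟨e, ⟨d, h1, h3⟩, h4⟩
    · rintro ⟨e, ⟨d, h1, h3⟩, h4⟩
      exact ⟨d, h1, (ih d).2 ⟨e, h3, h4⟩⟩

/-- the set consisting of the blank and `σ` -/
def pp (σ : Sy) : Sy → Bool := fun τ => decide (τ = bl ∨ τ = σ)

/-- the set consisting of the blank, and of `σ` if `x` -/
def ps (σ : Sy) (x : Bool) : Sy → Bool := fun τ => if τ = σ then x else decide (τ = bl)

/-- the set consisting of `σ` -/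
def po (σ : Sy) : Sy → Bool := fun τ => decide (τ = σ)

/-- the rest of a window -/
def restC (a b c : ℕ) : List (Sy → Bool) :=
  List.replicate c (pp one) ++ (pp sep :: (List.replicate b (pp one) ++
    (pp sep :: (List.replicate a (pp one) ++ [pp rb]))))

/-- a window offering the triple `(a, b, c)` -/
def win (x : Bool) (a b c : ℕ) : List (Sy → Bool) := ps tr x :: restC a b c

/-- a window offering the leaf label `a` -/
def winL (x : Bool) (a : ℕ) : List (Sy → Bool) :=
  ps lf x :: (List.replicate a (pp one) ++ [pp rb])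

/-- a window offering the goal `a` -/
def winG (x : Bool) (a : ℕ) : List (Sy → Bool) :=
  ps gl x :: (List.replicate a (pp one) ++ [pp rb])

/-- The stack in which the label `a` lies on `s`. -/
def lab (a : ℕ) (s : List Sk) : List Sk := List.replicate a I ++ (X :: s)

theorem lab_ne (a : ℕ) (s : List Sk) : lab a s ≠ [] := by
  unfold lab; simp

/-- letters offering the blank and one of `one`, `sep`, `rb` -/
def Inert (w : List (Sy → Bool)) : Prop := ∀ a ∈ w, a = pp one ∨ a = pp sep ∨ a = pp rb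

/-- The idle configurations. -/
def Idle (q : St) (s : List Sk) : Prop :=
  (q = q0 ∧ s ≠ []) ∨ (q = q1 ∧ s ≠ []) ∨ (q = r ∧ ∃ s', s = B :: s')

theorem idle_step {q : St} {s : List Sk} (h : Idle q s) {a : Sy → Bool}
    (ha : a = pp one ∨ a = pp sep ∨ a = pp rb) (c : St × List Sk) :
    mS a (q, s) c ↔ c = (q, s) := by
  rcases h with ⟨rfl, hs⟩ | ⟨rfl, hs⟩ | ⟨rfl, s', rfl⟩
  · obtain ⟨z, s, rfl⟩ := List.exists_cons_of_ne_nil hs
    rw [step_iff]
    constructor
    · rintro ⟨σ, h1, d, h2, rfl⟩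
      rcases ha with rfl | rfl | rfl <;> cases σ <;> simp [pp, dstep] at h1 h2 <;>
        (subst h2; rfl)
    · rintro rfl
      refine ⟨bl, ?_, (q0, [z]), rfl, rfl⟩
      rcases ha with rfl | rfl | rfl <;> simp [pp]
  · obtain ⟨z, s, rfl⟩ := List.exists_cons_of_ne_nil hs
    rw [step_iff]
    constructor
    · rintro ⟨σ, h1, d, h2, rfl⟩
      rcases ha with rfl | rfl | rfl <;> cases σ <;> simp [pp, dstep] at h1 h2 <;>
        (subst h2; rfl)
    · rintro rfl
      refine ⟨bl, ?_, (q1, [z]), rfl, rfl⟩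
      rcases ha with rfl | rfl | rfl <;> simp [pp]
  · rw [step_iff]
    constructor
    · rintro ⟨σ, h1, d, h2, rfl⟩
      rcases ha with rfl | rfl | rfl <;> cases σ <;> simp [pp, dstep] at h1 h2 <;>
        (subst h2; rfl)
    · rintro rfl
      refine ⟨bl, ?_, (r, [B]), rfl, rfl⟩
      rcases ha with rfl | rfl | rfl <;> simp [pp]

theorem idle_run {q : St} {s : List Sk} (h : Idle q s) {w : List (Sy → Bool)} (hw : Inert w)
    (c : St × List Sk) : mR w (q, s) c ↔ c = (q, s) := by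
  induction w with
  | nil =>
    constructor
    · intro h'; exact (show (q, s) = c from h').symm
    · intro h'; exact (show (q, s) = c from h'.symm)
  | cons a w ih =>
    have hw' : Inert w := fun b hb => hw b (List.mem_cons_of_mem _ hb)
    constructor
    · rintro ⟨d, h1, h2⟩
      rw [idle_step h (hw a (List.mem_cons_self))] at h1
      rw [h1] at h2
      exact (ih hw').1 h2
    · intro h'
      exact ⟨(q, s), (idle_step h (hw a (List.mem_cons_self)) _).2 rfl, (ih hw').2 h'⟩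

theorem dead_r {a : Sy → Bool} {z : Sk} (hz : z ≠ B) (s : List Sk) (c : St × List Sk) :
    ¬ mS a (r, z :: s) c := by
  rw [step_iff]
  rintro ⟨σ, h1, d, h2, rfl⟩
  cases σ <;> cases z <;> simp [dstep] at h2 hz

/-- popping ones -/
theorem run_pop {q : St} (hq : q = qc ∨ q = qb ∨ q = qg) (n : ℕ) (s : List Sk)
    (c : St × List Sk) :
    mR (List.replicate n (pp one)) (q, s) c ↔
      ∃ s', s = List.replicate n I ++ s' ∧ c = (q, s') := by
  induction n generalizing s with
  | zero =>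
    constructor
    · intro h; exact ⟨s, rfl, (show (q, s) = c from h).symm⟩
    · rintro ⟨s', h1, h2⟩
      have : s = s' := h1
      rw [this, h2]; exact rfl
  | succ n ih =>
    rw [List.replicate_succ, List.replicate_succ]
    constructor
    · rintro ⟨d, h1, h2⟩
      rcases s with _ | ⟨z, s⟩
      · exact h1.elim
      · rw [step_iff] at h1
        obtain ⟨σ, h3, e, h4, rfl⟩ := h1
        have : z = I ∧ e = (q, []) := by
          rcases hq with rfl | rfl | rfl <;> cases σ <;> cases z <;> simp [pp, dstep] at h3 h4 <;>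
            simp [h4]
        obtain ⟨rfl, rfl⟩ := this
        obtain ⟨s', h5, h6⟩ := (ih s).1 h2
        exact ⟨s', by rw [h5]; rfl, h6⟩
    · rintro ⟨s', rfl, rfl⟩
      refine ⟨(q, List.replicate n I ++ s'), ?_, (ih _).2 ⟨s', rfl, rfl⟩⟩
      rw [List.cons_append, step_iff]
      refine ⟨one, by simp [pp], (q, []), ?_, rfl⟩
      rcases hq with rfl | rfl | rfl <;> rfl

/-- pushing ones -/
theorem run_push (n : ℕ) (s : List Sk) (hs : s ≠ []) (c : St × List Sk) :
    mR (List.replicate n (pp one)) (qa, s) c ↔ c = (qa, List.replicate n I ++ s) := by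
  induction n generalizing s with
  | zero =>
    constructor
    · intro h; exact (show (qa, s) = c from h).symm
    · intro h; exact (show (qa, s) = c from h.symm)
  | succ n ih =>
    obtain ⟨z, s, rfl⟩ := List.exists_cons_of_ne_nil hs
    have hrep : List.replicate (n + 1) I ++ (z :: s) = List.replicate n I ++ (I :: z :: s) := by
      rw [List.replicate_succ']
      simp
    rw [List.replicate_succ, hrep]
    constructor
    · rintro ⟨d, h1, h2⟩
      rw [step_iff] at h1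
      obtain ⟨σ, h3, e, h4, rfl⟩ := h1
      have : e = (qa, [I, z]) := by
        cases σ <;> cases z <;> simp [pp, dstep] at h3 h4 <;> simp [h4]
      rw [this] at h2
      exact (ih (I :: z :: s) (by simp)).1 h2
    · intro h
      refine ⟨(qa, I :: z :: s), ?_, (ih (I :: z :: s) (by simp)).2 h⟩
      rw [step_iff]
      exact ⟨one, by simp [pp], (qa, [I, z]), rfl, rfl⟩

theorem step_rb_qa (s : List Sk) (hs : s ≠ []) (c : St × List Sk) :
    mS (pp rb) (qa, s) c ↔ c = (q1, s) := by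
  obtain ⟨z, s, rfl⟩ := List.exists_cons_of_ne_nil hs
  rw [step_iff]
  constructor
  · rintro ⟨σ, h1, d, h2, rfl⟩
    cases σ <;> simp [pp, dstep] at h1 h2 <;> (subst h2; rfl)
  · rintro rfl
    exact ⟨rb, by simp [pp], (q1, [z]), rfl, rfl⟩

theorem step_rb_qg (s : List Sk) (c : St × List Sk) :
    mS (pp rb) (qg, s) c ↔ ∃ s', s = X :: s' ∧ c = (r, s') := by
  rcases s with _ | ⟨z, s⟩
  · constructor
    · intro h; exact h.elim
    · rintro ⟨s', h, _⟩; exact absurd h (by simp)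
  · rw [step_iff]
    constructor
    · rintro ⟨σ, h1, d, h2, rfl⟩
      cases σ <;> cases z <;> simp [pp, dstep] at h1 h2
      subst h2
      exact ⟨s, rfl, rfl⟩
    · rintro ⟨s', h, rfl⟩
      simp only [List.cons.injEq] at h
      obtain ⟨rfl, rfl⟩ := h
      exact ⟨rb, by simp [pp], (r, []), rfl, rfl⟩

theorem step_sep_qc (s : List Sk) (c : St × List Sk) :
    mS (pp sep) (qc, s) c ↔ ∃ s', s = X :: s' ∧ c = (qb, s') := by
  rcases s with _ | ⟨z, s⟩
  · constructor
    · intro h; exact h.elim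
    · rintro ⟨s', h, _⟩; exact absurd h (by simp)
  · rw [step_iff]
    constructor
    · rintro ⟨σ, h1, d, h2, rfl⟩
      cases σ <;> cases z <;> simp [pp, dstep] at h1 h2
      subst h2
      exact ⟨s, rfl, rfl⟩
    · rintro ⟨s', h, rfl⟩
      simp only [List.cons.injEq] at h
      obtain ⟨rfl, rfl⟩ := h
      exact ⟨sep, by simp [pp], (qb, []), rfl, rfl⟩

theorem step_sep_qb (s : List Sk) (c : St × List Sk) :
    mS (pp sep) (qb, s) c ↔ ∃ s', s = X :: s' ∧ c = (qa, X :: s') := by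
  rcases s with _ | ⟨z, s⟩
  · constructor
    · intro h; exact h.elim
    · rintro ⟨s', h, _⟩; exact absurd h (by simp)
  · rw [step_iff]
    constructor
    · rintro ⟨σ, h1, d, h2, rfl⟩
      cases σ <;> cases z <;> simp [pp, dstep] at h1 h2
      subst h2
      exact ⟨s, rfl, rfl⟩
    · rintro ⟨s', h, rfl⟩
      simp only [List.cons.injEq] at h
      obtain ⟨rfl, rfl⟩ := h
      exact ⟨sep, by simp [pp], (qa, [X]), rfl, rfl⟩

theorem run_cons (a : Sy → Bool) (w : List (Sy → Bool)) (c c' : St × List Sk) :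
    mR (a :: w) c c' ↔ ∃ d : St × List Sk, mS a c d ∧ mR w d c' := Iff.rfl

theorem run_nil (c c' : St × List Sk) : mR [] c c' ↔ c = c' := Iff.rfl

/-- pushing a label -/
theorem run_tail (a : ℕ) (s : List Sk) (hs : s ≠ []) (c : St × List Sk) :
    mR (List.replicate a (pp one) ++ [pp rb]) (qa, s) c ↔
      c = (q1, List.replicate a I ++ s) := by
  have hne : List.replicate a I ++ s ≠ [] := by simp [hs]
  rw [run_append]
  constructor
  · rintro ⟨d, h1, h2⟩
    rw [run_push a s hs] at h1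
    rw [h1, run_cons] at h2
    obtain ⟨e, h3, h4⟩ := h2
    rw [step_rb_qa _ hne] at h3
    rw [run_nil] at h4
    rw [← h4, h3]
  · rintro rfl
    refine ⟨(qa, List.replicate a I ++ s), (run_push a s hs _).2 rfl, ?_⟩
    rw [run_cons]
    exact ⟨(q1, List.replicate a I ++ s), (step_rb_qa _ hne _).2 rfl, rfl⟩

/-- using a triple -/
theorem run_restC (a b c : ℕ) (s : List Sk) (e : St × List Sk) :
    mR (restC a b c) (qc, s) e ↔ ∃ s', s = lab c (lab b s') ∧ e = (q1, lab a s') := by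
  unfold restC
  rw [run_append]
  constructor
  · rintro ⟨d, h1, h2⟩
    rw [run_pop (Or.inl rfl)] at h1
    obtain ⟨s1, rfl, rfl⟩ := h1
    rw [run_cons] at h2
    obtain ⟨d, h1, h2⟩ := h2
    rw [step_sep_qc] at h1
    obtain ⟨s2, rfl, rfl⟩ := h1
    rw [run_append] at h2
    obtain ⟨d, h1, h2⟩ := h2
    rw [run_pop (Or.inr (Or.inl rfl))] at h1
    obtain ⟨s3, rfl, rfl⟩ := h1
    rw [run_cons] at h2
    obtain ⟨d, h1, h2⟩ := h2
    rw [step_sep_qb] at h1
    obtain ⟨s4, rfl, rfl⟩ := h1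
    rw [run_tail _ _ (by simp)] at h2
    exact ⟨s4, rfl, h2⟩
  · rintro ⟨s4, rfl, rfl⟩
    refine ⟨(qc, X :: lab b s4), (run_pop (Or.inl rfl) _ _ _).2 ⟨_, rfl, rfl⟩, ?_⟩
    rw [run_cons]
    refine ⟨(qb, lab b s4), (step_sep_qc _ _).2 ⟨_, rfl, rfl⟩, ?_⟩
    rw [run_append]
    refine ⟨(qb, X :: s4), (run_pop (Or.inr (Or.inl rfl)) _ _ _).2 ⟨_, rfl, rfl⟩, ?_⟩
    rw [run_cons]
    refine ⟨(qa, X :: s4), (step_sep_qb _ _).2 ⟨_, rfl, rfl⟩, ?_⟩
    exact (run_tail _ _ (by simp) _).2 rfl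

theorem inert_rep (n : ℕ) : Inert (List.replicate n (pp one)) := by
  intro a ha
  exact Or.inl (List.eq_of_mem_replicate ha)

theorem inert_append {w₁ w₂ : List (Sy → Bool)} (h₁ : Inert w₁) (h₂ : Inert w₂) :
    Inert (w₁ ++ w₂) := by
  intro a ha
  rcases List.mem_append.1 ha with h | h
  · exact h₁ a h
  · exact h₂ a h

theorem inert_cons {a : Sy → Bool} {w : List (Sy → Bool)}
    (ha : a = pp one ∨ a = pp sep ∨ a = pp rb) (h : Inert w) : Inert (a :: w) := by
  intro b hb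
  rcases List.mem_cons.1 hb with rfl | hb
  · exact ha
  · exact h b hb

theorem inert_tail (a : ℕ) : Inert (List.replicate a (pp one) ++ [pp rb]) :=
  inert_append (inert_rep a) (inert_cons (Or.inr (Or.inr rfl)) (fun _ h => by simp at h))

theorem inert_restC (a b c : ℕ) : Inert (restC a b c) :=
  inert_append (inert_rep c) (inert_cons (Or.inr (Or.inl rfl))
    (inert_append (inert_rep b) (inert_cons (Or.inr (Or.inl rfl)) (inert_tail a))))

/-- `w` is a window: in the state `q0` it can be skipped, or used (leading to the state `u`) to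
change the stack according to `ρ`; in the state `u` it can only be skipped. -/
def IsWin (u : St) (ok : List Sk → Prop) (w : List (Sy → Bool)) (ρ : List Sk → List Sk → Prop) :
    Prop :=
  (∀ s, s ≠ [] → ∀ c : St × List Sk, mR w (q0, s) c ↔
    c = (q0, s) ∨ ∃ s', ρ s s' ∧ c = (u, s')) ∧
  (∀ s, ∀ c : St × List Sk, mR w (u, s) c ↔ ok s ∧ c = (u, s))

/-- nonempty stacks -/
def okL (s : List Sk) : Prop := s ≠ []

/-- stacks with the bottom symbol on top -/
def okG (s : List Sk) : Prop := ∃ s', s = B :: s'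

theorem step_ps_q0 (σ₀ : Sy) (hσ : σ₀ = lf ∨ σ₀ = tr ∨ σ₀ = gl) (x : Bool) (z : Sk) (s : List Sk)
    (c : St × List Sk) : mS (ps σ₀ x) (q0, z :: s) c ↔
      c = (q0, z :: s) ∨ (x = true ∧ ∃ d, dstep q0 σ₀ z = some d ∧ c = (d.1, d.2 ++ s)) := by
  rw [step_iff]
  constructor
  · rintro ⟨σ, h1, d, h2, rfl⟩
    by_cases h : σ = σ₀
    · subst h
      right
      have : x = true := by simpa [ps] using h1
      exact ⟨this, d, h2, rfl⟩
    · left
      have : σ = bl := by simpa [ps, h] using h1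
      subst this
      simp only [dstep, Option.some.injEq] at h2
      subst h2
      rfl
  · rintro (rfl | ⟨hx, d, h2, rfl⟩)
    · refine ⟨bl, ?_, (q0, [z]), rfl, rfl⟩
      rcases hσ with rfl | rfl | rfl <;> simp [ps]
    · exact ⟨σ₀, by simp [ps, hx], d, h2, rfl⟩

theorem step_ps_q1 (σ₀ : Sy) (hσ : σ₀ = lf ∨ σ₀ = tr ∨ σ₀ = gl) (x : Bool) (s : List Sk)
    (c : St × List Sk) : mS (ps σ₀ x) (q1, s) c ↔ okL s ∧ c = (q1, s) := by
  rcases s with _ | ⟨z, s⟩
  · constructor
    · intro h; exact h.elim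
    · rintro ⟨h, _⟩; exact absurd rfl h
  · rw [step_iff]
    constructor
    · rintro ⟨σ, h1, d, h2, rfl⟩
      refine ⟨by simp [okL], ?_⟩
      rcases hσ with rfl | rfl | rfl <;> cases σ <;> simp [ps, dstep] at h1 h2 <;> (subst h2; rfl)
    · rintro ⟨_, rfl⟩
      refine ⟨bl, ?_, (q1, [z]), rfl, rfl⟩
      rcases hσ with rfl | rfl | rfl <;> simp [ps]

theorem step_ps_r (x : Bool) (s : List Sk) (c : St × List Sk) :
    mS (ps gl x) (r, s) c ↔ okG s ∧ c = (r, s) := by
  rcases s with _ | ⟨z, s⟩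
  · constructor
    · intro h; exact h.elim
    · rintro ⟨⟨s', h⟩, _⟩; exact absurd h (by simp)
  · rw [step_iff]
    constructor
    · rintro ⟨σ, h1, d, h2, rfl⟩
      cases σ <;> cases z <;> simp [ps, dstep] at h1 h2
      subst h2
      exact ⟨⟨s, rfl⟩, rfl⟩
    · rintro ⟨⟨s', h⟩, rfl⟩
      simp only [List.cons.injEq] at h
      obtain ⟨rfl, rfl⟩ := h
      exact ⟨bl, by simp [ps], (r, [B]), rfl, rfl⟩

theorem win_q1 {w : List (Sy → Bool)} (hw : Inert w) (σ₀ : Sy)
    (hσ : σ₀ = lf ∨ σ₀ = tr ∨ σ₀ = gl) (x : Bool) (s : List Sk) (c : St × List Sk) :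
    mR (ps σ₀ x :: w) (q1, s) c ↔ okL s ∧ c = (q1, s) := by
  rw [run_cons]
  constructor
  · rintro ⟨d, h1, h2⟩
    rw [step_ps_q1 σ₀ hσ] at h1
    obtain ⟨h3, rfl⟩ := h1
    rw [idle_run (Or.inr (Or.inl ⟨rfl, h3⟩)) hw] at h2
    exact ⟨h3, h2⟩
  · rintro ⟨h3, rfl⟩
    exact ⟨(q1, s), (step_ps_q1 σ₀ hσ x s _).2 ⟨h3, rfl⟩,
      (idle_run (Or.inr (Or.inl ⟨rfl, h3⟩)) hw _).2 rfl⟩

theorem isWin_win (x : Bool) (a b c : ℕ) :
    IsWin q1 okL (win x a b c)
      (fun s s' => x = true ∧ ∃ s'', s = lab c (lab b s'') ∧ s' = lab a s'') := by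
  refine ⟨fun s hs e => ?_, fun s e => win_q1 (inert_restC a b c) tr (Or.inr (Or.inl rfl)) x s e⟩
  obtain ⟨z, s, rfl⟩ := List.exists_cons_of_ne_nil hs
  unfold win
  rw [run_cons]
  constructor
  · rintro ⟨d, h1, h2⟩
    rw [step_ps_q0 tr (Or.inr (Or.inl rfl))] at h1
    rcases h1 with rfl | ⟨hx, d', h3, rfl⟩
    · rw [idle_run (Or.inl ⟨rfl, hs⟩) (inert_restC a b c)] at h2
      exact Or.inl h2
    · simp only [dstep, Option.some.injEq] at h3
      subst h3
      have h4 := (run_restC a b c _ _).1 h2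
      obtain ⟨s'', h5, h6⟩ := h4
      exact Or.inr ⟨lab a s'', ⟨hx, s'', h5, rfl⟩, h6⟩
  · rintro (rfl | ⟨s', ⟨hx, s'', h5, rfl⟩, rfl⟩)
    · exact ⟨(q0, z :: s), (step_ps_q0 tr (Or.inr (Or.inl rfl)) _ _ _ _).2 (Or.inl rfl),
        (idle_run (Or.inl ⟨rfl, hs⟩) (inert_restC a b c) _).2 rfl⟩
    · refine ⟨(qc, z :: s), (step_ps_q0 tr (Or.inr (Or.inl rfl)) _ _ _ _).2
        (Or.inr ⟨hx, (qc, [z]), rfl, rfl⟩), ?_⟩
      exact (run_restC a b c _ _).2 ⟨s'', h5, rfl⟩

theorem isWin_winL (x : Bool) (a : ℕ) :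
    IsWin q1 okL (winL x a) (fun s s' => x = true ∧ s' = lab a s) := by
  refine ⟨fun s hs e => ?_, fun s e => win_q1 (inert_tail a) lf (Or.inl rfl) x s e⟩
  obtain ⟨z, s, rfl⟩ := List.exists_cons_of_ne_nil hs
  unfold winL
  rw [run_cons]
  constructor
  · rintro ⟨d, h1, h2⟩
    rw [step_ps_q0 lf (Or.inl rfl)] at h1
    rcases h1 with rfl | ⟨hx, d', h3, rfl⟩
    · rw [idle_run (Or.inl ⟨rfl, hs⟩) (inert_tail a)] at h2
      exact Or.inl h2
    · simp only [dstep, Option.some.injEq] at h3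
      subst h3
      have h4 := (run_tail a (X :: z :: s) (by simp) _).1 h2
      exact Or.inr ⟨lab a (z :: s), ⟨hx, rfl⟩, h4⟩
  · rintro (rfl | ⟨s', ⟨hx, rfl⟩, rfl⟩)
    · exact ⟨(q0, z :: s), (step_ps_q0 lf (Or.inl rfl) _ _ _ _).2 (Or.inl rfl),
        (idle_run (Or.inl ⟨rfl, hs⟩) (inert_tail a) _).2 rfl⟩
    · refine ⟨(qa, X :: z :: s), (step_ps_q0 lf (Or.inl rfl) _ _ _ _).2
        (Or.inr ⟨hx, (qa, [X, z]), rfl, rfl⟩), ?_⟩
      exact (run_tail a (X :: z :: s) (by simp) _).2 rfl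

theorem isWin_winG (x : Bool) (a : ℕ) :
    IsWin r okG (winG x a) (fun s s' => x = true ∧ s = lab a s') := by
  refine ⟨fun s hs e => ?_, fun s e => ?_⟩
  · obtain ⟨z, s, rfl⟩ := List.exists_cons_of_ne_nil hs
    unfold winG
    rw [run_cons]
    constructor
    · rintro ⟨d, h1, h2⟩
      rw [step_ps_q0 gl (Or.inr (Or.inr rfl))] at h1
      rcases h1 with rfl | ⟨hx, d', h3, rfl⟩
      · rw [idle_run (Or.inl ⟨rfl, hs⟩) (inert_tail a)] at h2
        exact Or.inl h2
      · simp only [dstep, Option.some.injEq] at h3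
        subst h3
        rw [run_append] at h2
        obtain ⟨d, h4, h5⟩ := h2
        have h4' := (run_pop (Or.inr (Or.inr rfl)) a (z :: s) d).1 h4
        obtain ⟨s1, h6, rfl⟩ := h4'
        rw [run_cons] at h5
        obtain ⟨d, h7, h8⟩ := h5
        rw [step_rb_qg] at h7
        obtain ⟨s2, rfl, rfl⟩ := h7
        rw [run_nil] at h8
        exact Or.inr ⟨s2, ⟨hx, h6⟩, h8.symm⟩
    · rintro (rfl | ⟨s', ⟨hx, h6⟩, rfl⟩)
      · exact ⟨(q0, z :: s), (step_ps_q0 gl (Or.inr (Or.inr rfl)) _ _ _ _).2 (Or.inl rfl),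
          (idle_run (Or.inl ⟨rfl, hs⟩) (inert_tail a) _).2 rfl⟩
      · refine ⟨(qg, z :: s), (step_ps_q0 gl (Or.inr (Or.inr rfl)) _ _ _ _).2
          (Or.inr ⟨hx, (qg, [z]), rfl, rfl⟩), ?_⟩
        rw [run_append]
        refine ⟨(qg, X :: s'), (run_pop (Or.inr (Or.inr rfl)) a (z :: s) _).2 ⟨_, h6, rfl⟩, ?_⟩
        rw [run_cons]
        exact ⟨(r, s'), (step_rb_qg _ _).2 ⟨s', rfl, rfl⟩, rfl⟩
  · unfold winG
    rw [run_cons]
    constructor
    · rintro ⟨d, h1, h2⟩
      rw [step_ps_r] at h1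
      obtain ⟨h3, rfl⟩ := h1
      rw [idle_run (Or.inr (Or.inr ⟨rfl, h3⟩)) (inert_tail a)] at h2
      exact ⟨h3, h2⟩
    · rintro ⟨h3, rfl⟩
      exact ⟨(r, s), (step_ps_r x s _).2 ⟨h3, rfl⟩,
        (idle_run (Or.inr (Or.inr ⟨rfl, h3⟩)) (inert_tail a) _).2 rfl⟩

/-- A block: windows followed by the end letter. -/
theorem run_block {ι : Type*} (u : St) (ok : List Sk → Prop)
    (hok : ∀ s, ∀ c : St × List Sk, mR [po fin] (u, s) c → ok s)
    (w : ι → List (Sy → Bool)) (ρ : ι → List Sk → List Sk → Prop)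
    (hw : ∀ i, IsWin u ok (w i) (ρ i)) (L : List ι) (s : List Sk) (c : St × List Sk) :
    (mR (L.flatMap w ++ [po fin]) (u, s) c ↔ mR [po fin] (u, s) c) ∧
    (s ≠ [] → (mR (L.flatMap w ++ [po fin]) (q0, s) c ↔
      ∃ i ∈ L, ∃ s', ρ i s s' ∧ mR [po fin] (u, s') c)) := by
  induction L generalizing s with
  | nil =>
    refine ⟨by rw [List.flatMap_nil, List.nil_append], fun hs => ?_⟩
    rw [List.flatMap_nil, List.nil_append]
    constructor
    · intro h
      exfalso
      rw [run_cons] at h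
      obtain ⟨d, h1, _⟩ := h
      obtain ⟨z, s, rfl⟩ := List.exists_cons_of_ne_nil hs
      rw [step_iff] at h1
      obtain ⟨σ, h3, e, h4, _⟩ := h1
      cases σ <;> simp [po, dstep] at h3 h4
    · rintro ⟨i, hi, _⟩
      simp at hi
  | cons i L ih =>
    rw [List.flatMap_cons, List.append_assoc]
    refine ⟨?_, fun hs => ?_⟩
    · rw [run_append]
      constructor
      · rintro ⟨d, h1, h2⟩
        rw [(hw i).2] at h1
        obtain ⟨_, rfl⟩ := h1
        exact (ih s).1.1 h2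
      · intro h
        exact ⟨(u, s), ((hw i).2 s _).2 ⟨hok s c h, rfl⟩, (ih s).1.2 h⟩
    · rw [run_append]
      constructor
      · rintro ⟨d, h1, h2⟩
        rw [(hw i).1 s hs] at h1
        rcases h1 with rfl | ⟨s', h3, rfl⟩
        · obtain ⟨j, hj, s', h4, h5⟩ := ((ih s).2 hs).1 h2
          exact ⟨j, List.mem_cons_of_mem _ hj, s', h4, h5⟩
        · exact ⟨i, List.mem_cons_self, s', h3, (ih s').1.1 h2⟩
      · rintro ⟨j, hj, s', h4, h5⟩
        rcases List.mem_cons.1 hj with rfl | hj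
        · exact ⟨(u, s'), ((hw j).1 s hs _).2 (Or.inr ⟨s', h4, rfl⟩), (ih s').1.2 h5⟩
        · exact ⟨(q0, s), ((hw i).1 s hs _).2 (Or.inl rfl),
            ((ih s).2 hs).2 ⟨j, hj, s', h4, h5⟩⟩

theorem run_fin_q1 (s : List Sk) (c : St × List Sk) :
    mR [po fin] (q1, s) c ↔ okL s ∧ c = (q0, s) := by
  rw [run_cons]
  constructor
  · rintro ⟨d, h1, h2⟩
    rw [run_nil] at h2
    subst h2
    rcases s with _ | ⟨z, s⟩
    · exact h1.elim
    · rw [step_iff] at h1
      obtain ⟨σ, h3, e, h4, rfl⟩ := h1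
      refine ⟨by simp [okL], ?_⟩
      cases σ <;> simp [po, dstep] at h3 h4
      subst h4
      rfl
  · rintro ⟨h, rfl⟩
    obtain ⟨z, s, rfl⟩ := List.exists_cons_of_ne_nil h
    refine ⟨(q0, z :: s), ?_, rfl⟩
    rw [step_iff]
    exact ⟨fin, by simp [po], (q0, [z]), rfl, rfl⟩

theorem run_fin_r (s : List Sk) (c : St × List Sk) :
    mR [po fin] (r, s) c ↔ okG s ∧ c = (f, s) := by
  rw [run_cons]
  constructor
  · rintro ⟨d, h1, h2⟩
    rw [run_nil] at h2
    subst h2
    rcases s with _ | ⟨z, s⟩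
    · exact h1.elim
    · rw [step_iff] at h1
      obtain ⟨σ, h3, e, h4, rfl⟩ := h1
      cases σ <;> cases z <;> simp [po, dstep] at h3 h4
      subst h4
      exact ⟨⟨s, rfl⟩, rfl⟩
  · rintro ⟨⟨s', rfl⟩, rfl⟩
    refine ⟨(f, B :: s'), ?_, rfl⟩
    rw [step_iff]
    exact ⟨fin, by simp [po], (f, [B]), rfl, rfl⟩

end Pool.Agent.H589R2.MNL
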