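import Pool.Agent.H589R2.MNL.Enc

/-!
# A pushdown automaton for disjunctions
-/

namespace Pool.Agent.H589R2.MNL

open Sy St Sk

/-- Running the automaton `mach` on an encoded system. -/
theorem run_enc {m : ℕ} (x : Vr m → Bool) (h : ℕ) (c : St × List Sk) :
    mR ((senc m h).map (evl x)) (q0, [B]) c ↔
      c = (f, [B]) ∧ ∃ a : Fin m, Der x h [] a ∧ x (none, a, a, a) = true := by
  have e : (senc m h).map (evl x) = (sseg m h []).map (evl x) ++
      ((List.finRange m).flatMap (fun a => winG (x (none, a, a, a)) a) ++ [po fin]) := by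
    unfold senc
    rw [List.map_append, List.map_append, List.map_flatMap]
    simp only [ev_swinG]
    rfl
  have hblock : ∀ s, s ≠ [] → ∀ c : St × List Sk, (mR ((List.finRange m).flatMap
      (fun a => winG (x (none, a, a, a)) a) ++ [po fin]) (q0, s) c ↔
      ∃ a ∈ List.finRange m, ∃ s', (x (none, a, a, a) = true ∧ s = lab a s') ∧
        mR [po fin] (r, s') c) :=
    fun s hs c => (run_block r okG (fun s c h => ((run_fin_r s c).1 h).1)
      (fun a : Fin m => winG (x (none, a, a, a)) a)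
      (fun a s s' => x (none, a, a, a) = true ∧ s = lab a s')
      (fun a => isWin_winG _ _) (List.finRange m) s c).2 hs
  constructor
  · intro hrun
    rw [e, run_append] at hrun
    obtain ⟨d, h1, h2⟩ := hrun
    obtain ⟨a, ha, rfl⟩ := (run_seg x h [] [B] (by simp) _).1 h1
    obtain ⟨a', _, s', ⟨hx, h3⟩, h5⟩ := (hblock _ (lab_ne _ _) _).1 h2
    obtain ⟨h4, h6⟩ := lab_inj h3
    have h4' : a = a' := Fin.ext h4
    subst h4' h6
    exact ⟨((run_fin_r _ _).1 h5).2, a, ha, hx⟩
  · rintro ⟨rfl, a, ha, hx⟩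
    rw [e, run_append]
    refine ⟨(q0, lab a [B]), (run_seg x h [] [B] (by simp) _).2 ⟨a, ha, rfl⟩, ?_⟩
    exact (hblock _ (lab_ne _ _) _).2 ⟨a, List.mem_finRange _, [B], ⟨hx, rfl⟩,
      (run_fin_r _ _).2 ⟨⟨[], rfl⟩, rfl⟩⟩

/-- states of the second automaton: `sk` skips, `run q` works on a block, `ff` has accepted -/
inductive St2 | sk | ff | run (q : St)
  deriving DecidableEq

open St2

instance : Fintype St2 :=
  ⟨{sk, ff} ∪ Finset.univ.image run, by intro x; cases x <;> simp⟩

/-- moves of the second automaton; the new letter is `none` -/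
def step2 : St2 → Option Sy → Sk → Set (St2 × List Sk)
  | sk, none, z => {(sk, [z]), (run q0, [z])}
  | sk, some _, z => {(sk, [z])}
  | ff, _, z => {(ff, [z])}
  | run q, some σ, z => {c | ∃ d, dstep q σ z = some d ∧ c = (run d.1, d.2)}
  | run q, none, z => {c | q = f ∧ c = (ff, [z])}

theorem step2_finite (q : St2) (σ : Option Sy) (z : Sk) : (step2 q σ z).Finite := by
  rcases q with _ | _ | q <;> rcases σ with _ | σ
  · exact (Set.finite_singleton ((run q0, [z]) : St2 × List Sk)).insert (sk, [z])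
  · exact Set.finite_singleton _
  · exact Set.finite_singleton _
  · exact Set.finite_singleton _
  · refine Set.Finite.subset (Set.finite_singleton ((ff, [z]) : St2 × List Sk)) ?_
    rintro c ⟨_, rfl⟩
    exact rfl
  · refine Set.Finite.subset (Set.finite_singleton
      ((run ((dstep q σ z).getD (q0, [])).1, ((dstep q σ z).getD (q0, [])).2) :
        St2 × List Sk)) ?_
    rintro c ⟨d, h, rfl⟩
    rw [h]
    exact rfl

/-- The second automaton: it guesses one element of every letter. -/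
def mach2 : PDA (Option Sy → Bool) where
  Q := St2
  Z := Sk
  finQ := inferInstance
  finZ := inferInstance
  start := sk
  bot := B
  acc := {run f, ff}
  δ := fun q a z => {c | ∃ σ, a σ = true ∧ c ∈ step2 q σ z}
  finδ := by
    intro q a z
    refine Set.Finite.subset (Set.finite_iUnion (fun σ : Option Sy => step2_finite q σ z)) ?_
    rintro c ⟨σ, _, h⟩
    exact Set.mem_iUnion.2 ⟨σ, h⟩

theorem mach2_mono (q : mach2.Q) (a b : Option Sy → Bool) (z : mach2.Z) (h : a ≤ b) :
    mach2.δ q a z ⊆ mach2.δ q b z := by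
  rintro c ⟨σ, h1, h2⟩
  exact ⟨σ, h σ h1, h2⟩

/-- One step. -/
def nS (a : Option Sy → Bool) : St2 × List Sk → St2 × List Sk → Prop
  | (_, []), _ => False
  | (q, z :: s), c => ∃ σ, a σ = true ∧ ∃ d ∈ step2 q σ z, c = (d.1, d.2 ++ s)

/-- Reading a word. -/
def nR : List (Option Sy → Bool) → St2 × List Sk → St2 × List Sk → Prop
  | [], c, c' => c = c'
  | a :: w, c, c' => ∃ d, nS a c d ∧ nR w d c'

theorem mach2_run (w : List (Option Sy → Bool)) (c c' : St2 × List Sk) :
    mach2.Run w c c' ↔ nR w c c' := by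
  induction w generalizing c with
  | nil => exact Iff.rfl
  | cons a w ih =>
    have hS : ∀ d : St2 × List Sk, mach2.Step a c d ↔ nS a c d := by
      intro d
      rcases c with ⟨q, _ | ⟨z, s⟩⟩
      · exact Iff.rfl
      · constructor
        · rintro ⟨t, ⟨σ, h1, h2⟩, h3⟩
          exact ⟨σ, h1, (d.1, t), h2, Prod.ext rfl h3⟩
        · rintro ⟨σ, h1, e, h2, rfl⟩
          exact ⟨e.2, ⟨σ, h1, h2⟩, rfl⟩
    constructor
    · rintro ⟨d, h1, h2⟩
      exact ⟨d, (hS d).1 h1, (ih d).1 h2⟩
    · rintro ⟨d, h1, h2⟩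
      exact ⟨d, (hS d).2 h1, (ih d).2 h2⟩

theorem nR_cons (a : Option Sy → Bool) (w : List (Option Sy → Bool)) (c c' : St2 × List Sk) :
    nR (a :: w) c c' ↔ ∃ d : St2 × List Sk, nS a c d ∧ nR w d c' := Iff.rfl

theorem nR_nil (c c' : St2 × List Sk) : nR [] c c' ↔ c = c' := Iff.rfl

theorem nR_append (w₁ w₂ : List (Option Sy → Bool)) (c c' : St2 × List Sk) :
    nR (w₁ ++ w₂) c c' ↔ ∃ d : St2 × List Sk, nR w₁ c d ∧ nR w₂ d c' := by
  induction w₁ generalizing c with
  | nil =>
    constructor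
    · intro h; exact ⟨c, rfl, h⟩
    · rintro ⟨d, h1, h2⟩
      have h1' : c = d := h1
      rw [h1']; exact h2
  | cons a w ih =>
    constructor
    · rintro ⟨d, h1, h2⟩
      obtain ⟨e, h3, h4⟩ := (ih d).1 h2
      exact ⟨e, ⟨d, h1, h3⟩, h4⟩
    · rintro ⟨e, ⟨d, h1, h3⟩, h4⟩
      exact ⟨d, h1, (ih d).2 ⟨e, h3, h4⟩⟩

/-- A letter of the first automaton as a letter of the second. -/
def up (a : Sy → Bool) : Option Sy → Bool := fun o => match o with
  | none => false
  | some σ => a σ

/-- the new letter -/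
def nx : Option Sy → Bool := fun o => match o with
  | none => true
  | some _ => false

theorem nS_run (a : Sy → Bool) (q : St) (s : List Sk) (c : St2 × List Sk) :
    nS (up a) (run q, s) c ↔ ∃ d : St × List Sk, mS a (q, s) d ∧ c = (run d.1, d.2) := by
  rcases s with _ | ⟨z, s⟩
  · constructor
    · intro h; exact h.elim
    · rintro ⟨d, h, _⟩; exact h.elim
  · constructor
    · rintro ⟨σ, h1, e, h2, rfl⟩
      rcases σ with _ | σ
      · exact absurd h1 (by simp [up])
      · obtain ⟨d, h3, rfl⟩ := h2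
        exact ⟨(d.1, d.2 ++ s), (step_iff _ _ _ _ _).2 ⟨σ, h1, d, h3, rfl⟩, rfl⟩
    · rintro ⟨d, h1, rfl⟩
      obtain ⟨σ, h2, e, h3, rfl⟩ := (step_iff _ _ _ _ _).1 h1
      exact ⟨some σ, h2, (run e.1, e.2), ⟨e, h3, rfl⟩, rfl⟩

theorem nR_run (w : List (Sy → Bool)) (q : St) (s : List Sk) (c : St2 × List Sk) :
    nR (w.map up) (run q, s) c ↔ ∃ d : St × List Sk, mR w (q, s) d ∧ c = (run d.1, d.2) := by
  induction w generalizing q s with
  | nil =>
    constructor
    · intro h
      exact ⟨(q, s), rfl, (show (run q, s) = c from h).symm⟩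
    · rintro ⟨d, h1, rfl⟩
      have h1' : (q, s) = d := h1
      rw [← h1']
      exact rfl
  | cons a w ih =>
    rw [List.map_cons, nR_cons]
    constructor
    · rintro ⟨d, h1, h2⟩
      obtain ⟨e, h3, rfl⟩ := (nS_run a q s d).1 h1
      obtain ⟨d', h4, rfl⟩ := (ih e.1 e.2).1 h2
      exact ⟨d', ⟨e, h3, h4⟩, rfl⟩
    · rintro ⟨d, ⟨e, h1, h2⟩, rfl⟩
      exact ⟨(run e.1, e.2), (nS_run a q s _).2 ⟨e, h1, rfl⟩, (ih e.1 e.2).2 ⟨d, h2, rfl⟩⟩

/-- All letters are nonempty. -/
def NE (w : List (Option Sy → Bool)) : Prop := ∀ a ∈ w, ∃ σ, a σ = true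

theorem nR_sk (w : List (Sy → Bool)) (hw : NE (w.map up)) (s : List Sk) (z : Sk)
    (c : St2 × List Sk) : nR (w.map up) (sk, z :: s) c ↔ c = (sk, z :: s) := by
  induction w with
  | nil =>
    constructor
    · intro h; exact (show (sk, z :: s) = c from h).symm
    · intro h; exact (show (sk, z :: s) = c from h.symm)
  | cons a w ih =>
    rw [List.map_cons] at hw ⊢
    have hw' : NE (w.map up) := fun b hb => hw b (List.mem_cons_of_mem _ hb)
    rw [nR_cons]
    constructor
    · rintro ⟨d, ⟨σ, h1, e, h2, rfl⟩, h3⟩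
      rcases σ with _ | σ
      · exact absurd h1 (by simp [up])
      · have h2' : e = (sk, [z]) := h2
        subst h2'
        exact (ih hw').1 h3
    · rintro rfl
      obtain ⟨σ, hσ⟩ := hw _ List.mem_cons_self
      rcases σ with _ | σ
      · exact absurd hσ (by simp [up])
      · exact ⟨(sk, z :: s), ⟨some σ, hσ, (sk, [z]), rfl, rfl⟩, (ih hw').2 rfl⟩

theorem nR_ff (w : List (Option Sy → Bool)) (hw : NE w) (s : List Sk) (z : Sk)
    (c : St2 × List Sk) : nR w (ff, z :: s) c ↔ c = (ff, z :: s) := by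
  induction w with
  | nil =>
    constructor
    · intro h; exact (show (ff, z :: s) = c from h).symm
    · intro h; exact (show (ff, z :: s) = c from h.symm)
  | cons a w ih =>
    have hw' : NE w := fun b hb => hw b (List.mem_cons_of_mem _ hb)
    rw [nR_cons]
    constructor
    · rintro ⟨d, ⟨σ, h1, e, h2, rfl⟩, h3⟩
      have h2' : e = (ff, [z]) := by
        rcases σ with _ | σ <;> exact h2
      subst h2'
      exact (ih hw').1 h3
    · rintro rfl
      obtain ⟨σ, hσ⟩ := hw _ List.mem_cons_self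
      refine ⟨(ff, z :: s), ⟨σ, hσ, (ff, [z]), ?_, rfl⟩, (ih hw').2 rfl⟩
      rcases σ with _ | σ <;> exact rfl

theorem nS_nx_sk (s : List Sk) (z : Sk) (c : St2 × List Sk) :
    nS nx (sk, z :: s) c ↔ c = (sk, z :: s) ∨ c = (run q0, z :: s) := by
  constructor
  · rintro ⟨σ, h1, e, h2, rfl⟩
    rcases σ with _ | σ
    · rcases h2 with h2 | h2
      · left; rw [h2]; rfl
      · right
        have h2' : e = (run q0, [z]) := h2
        rw [h2']; rfl
    · exact absurd h1 (by simp [nx])
  · rintro (rfl | rfl)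
    · exact ⟨none, rfl, (sk, [z]), Or.inl rfl, rfl⟩
    · exact ⟨none, rfl, (run q0, [z]), Or.inr rfl, rfl⟩

theorem nS_nx_f (s : List Sk) (z : Sk) (c : St2 × List Sk) :
    nS nx (run f, z :: s) c ↔ c = (ff, z :: s) := by
  constructor
  · rintro ⟨σ, h1, e, h2, rfl⟩
    rcases σ with _ | σ
    · obtain ⟨_, rfl⟩ := h2
      rfl
    · exact absurd h1 (by simp [nx])
  · rintro rfl
    exact ⟨none, rfl, (ff, [z]), ⟨rfl, rfl⟩, rfl⟩

/-- The system is solvable. -/
def Good {m : ℕ} (h : ℕ) (x : Vr m → Bool) : Prop :=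
  ∃ a : Fin m, Der x h [] a ∧ x (none, a, a, a) = true

theorem inert_ne {w : List (Sy → Bool)} (hw : Inert w) : NE (w.map up) := by
  intro a ha
  obtain ⟨b, hb, rfl⟩ := List.mem_map.1 ha
  refine ⟨some bl, ?_⟩
  rcases hw b hb with rfl | rfl | rfl <;> simp [up, pp]

theorem ne_append {w₁ w₂ : List (Option Sy → Bool)} (h₁ : NE w₁) (h₂ : NE w₂) : NE (w₁ ++ w₂) := by
  intro a ha
  rcases List.mem_append.1 ha with h | h
  · exact h₁ a h
  · exact h₂ a h

theorem ne_ps (σ : Sy) (hσ : σ ≠ bl) (x : Bool) {w : List (Sy → Bool)} (hw : Inert w) :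
    NE ((ps σ x :: w).map up) := by
  intro a ha
  rw [List.map_cons] at ha
  rcases List.mem_cons.1 ha with rfl | ha
  · exact ⟨some bl, by simp [up, ps, hσ.symm]⟩
  · exact inert_ne hw a ha

theorem ne_flatMap {ι : Type*} (L : List ι) (w : ι → List (Sy → Bool))
    (hw : ∀ i ∈ L, NE ((w i).map up)) : NE ((L.flatMap w).map up) := by
  intro a ha
  obtain ⟨b, hb, rfl⟩ := List.mem_map.1 ha
  obtain ⟨i, hi, hb⟩ := List.mem_flatMap.1 hb
  exact hw i hi _ (List.mem_map_of_mem hb)

theorem ne_fin : NE ([po fin].map up) := by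
  intro a ha
  rw [List.map_cons, List.map_nil, List.mem_singleton] at ha
  subst ha
  exact ⟨some fin, by simp [up, po]⟩

variable {m : ℕ}

theorem ne_sseg (x : Vr m → Bool) (k : ℕ) :
    ∀ u : List Bool, NE (((sseg m k u).map (evl x)).map up) := by
  induction k with
  | zero =>
    intro u
    have e : (sseg m 0 u).map (evl x)
        = (List.finRange m).flatMap (fun a => winL (x (some u, a, a, a)) a) ++ [po fin] := by
      unfold sseg
      rw [List.map_append, List.map_flatMap]
      simp only [ev_swinL]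
      rfl
    rw [e, List.map_append]
    exact ne_append (ne_flatMap _ _ fun a _ => ne_ps lf (by decide) _ (inert_tail _)) ne_fin
  | succ k ih =>
    intro u
    have e : (sseg m (k + 1) u).map (evl x) = (sseg m k (u ++ [false])).map (evl x) ++
        ((sseg m k (u ++ [true])).map (evl x) ++
        ((triples m).flatMap (fun t => win (x (some u, t)) t.1 t.2.1 t.2.2) ++ [po fin])) := by
      rw [sseg, List.map_append, List.map_append, List.map_append, List.map_flatMap]
      simp only [ev_swin]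
      rfl
    rw [e, List.map_append, List.map_append, List.map_append]
    exact ne_append (ih _) (ne_append (ih _)
      (ne_append (ne_flatMap _ _ fun a _ => ne_ps tr (by decide) _ (inert_restC _ _ _)) ne_fin))

theorem ne_senc (x : Vr m → Bool) (h : ℕ) : NE (((senc m h).map (evl x)).map up) := by
  have e : (senc m h).map (evl x) = (sseg m h []).map (evl x) ++
      ((List.finRange m).flatMap (fun a => winG (x (none, a, a, a)) a) ++ [po fin]) := by
    unfold senc
    rw [List.map_append, List.map_append, List.map_flatMap]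
    simp only [ev_swinG]
    rfl
  rw [e, List.map_append, List.map_append]
  exact ne_append (ne_sseg _ _ _)
    (ne_append (ne_flatMap _ _ fun a _ => ne_ps gl (by decide) _ (inert_tail _)) ne_fin)

/-- The block of one system. -/
def blk (h : ℕ) (x : Vr m → Bool) : List (Option Sy → Bool) :=
  nx :: ((senc m h).map (evl x)).map up

theorem ne_blk (h : ℕ) (x : Vr m → Bool) : NE (blk h x) := by
  intro a ha
  rcases List.mem_cons.1 ha with rfl | ha
  · exact ⟨none, rfl⟩
  · exact ne_senc x h a ha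

theorem ne_blks (h : ℕ) (L : List (Vr m → Bool)) : NE (L.flatMap (blk h)) := by
  intro a ha
  obtain ⟨x, _, ha⟩ := List.mem_flatMap.1 ha
  exact ne_blk h x a ha

/-- From the skipping state. -/
theorem run_blk_sk (h : ℕ) (x : Vr m → Bool) (c : St2 × List Sk) :
    nR (blk h x) (sk, [B]) c ↔ c = (sk, [B]) ∨ (c = (run f, [B]) ∧ Good h x) := by
  unfold blk
  rw [nR_cons]
  constructor
  · rintro ⟨d, h1, h2⟩
    rcases (nS_nx_sk _ _ _).1 h1 with rfl | rfl
    · left
      exact (nR_sk _ (ne_senc x h) _ _ _).1 h2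
    · right
      obtain ⟨d, h3, rfl⟩ := (nR_run _ _ _ _).1 h2
      obtain ⟨rfl, h4⟩ := (run_enc x h d).1 h3
      exact ⟨rfl, h4⟩
  · rintro (rfl | ⟨rfl, hg⟩)
    · exact ⟨(sk, [B]), (nS_nx_sk _ _ _).2 (Or.inl rfl), (nR_sk _ (ne_senc x h) _ _ _).2 rfl⟩
    · exact ⟨(run q0, [B]), (nS_nx_sk _ _ _).2 (Or.inr rfl),
        (nR_run _ _ _ _).2 ⟨(f, [B]), (run_enc x h _).2 ⟨rfl, hg⟩, rfl⟩⟩

/-- From the accepting state of a block. -/
theorem run_blks_f (h : ℕ) (L : List (Vr m → Bool)) :
    ∃ q : St2, (q = run f ∨ q = ff) ∧ nR (L.flatMap (blk h)) (run f, [B]) (q, [B]) := by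
  rcases L with _ | ⟨x, L⟩
  · exact ⟨run f, Or.inl rfl, rfl⟩
  · refine ⟨ff, Or.inr rfl, ?_⟩
    rw [List.flatMap_cons]
    unfold blk
    rw [List.cons_append, nR_cons]
    refine ⟨(ff, [B]), (nS_nx_f _ _ _).2 rfl, ?_⟩
    refine (nR_ff _ ?_ _ _ _).2 rfl
    exact ne_append (ne_senc x h) (ne_blks h L)

/-- **The second automaton decides the disjunction.** -/
theorem run_blks (h : ℕ) (L : List (Vr m → Bool)) :
    (∃ q : St2, (q = run f ∨ q = ff) ∧ ∃ s, nR (L.flatMap (blk h)) (sk, [B]) (q, s)) ↔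
      ∃ x ∈ L, Good h x := by
  induction L with
  | nil =>
    constructor
    · rintro ⟨q, hq, s, hrun⟩
      have h1 : (sk, [B]) = (q, s) := hrun
      rw [Prod.mk.injEq] at h1
      obtain ⟨rfl, _⟩ := h1
      rcases hq with hq | hq <;> exact absurd hq (by simp)
    · rintro ⟨x, hx, _⟩
      simp at hx
  | cons x L ih =>
    rw [List.flatMap_cons]
    constructor
    · rintro ⟨q, hq, s, hrun⟩
      obtain ⟨d, h1, h2⟩ := (nR_append _ _ _ _).1 hrun
      rcases (run_blk_sk h x d).1 h1 with rfl | ⟨rfl, hg⟩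
      · obtain ⟨y, hy, hg⟩ := ih.1 ⟨q, hq, s, h2⟩
        exact ⟨y, List.mem_cons_of_mem _ hy, hg⟩
      · exact ⟨x, List.mem_cons_self, hg⟩
    · rintro ⟨y, hy, hg⟩
      rcases List.mem_cons.1 hy with rfl | hy
      · obtain ⟨q, hq, hrun⟩ := run_blks_f h L
        exact ⟨q, hq, [B], (nR_append _ _ _ _).2
          ⟨(run f, [B]), (run_blk_sk h y _).2 (Or.inr ⟨rfl, hg⟩), hrun⟩⟩
      · obtain ⟨q, hq, s, hrun⟩ := ih.2 ⟨y, hy, hg⟩
        exact ⟨q, hq, s, (nR_append _ _ _ _).2
          ⟨(sk, [B]), (run_blk_sk h x _).2 (Or.inl rfl), hrun⟩⟩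

theorem mach2_accepts (h : ℕ) (L : List (Vr m → Bool)) :
    mach2.Accepts (L.flatMap (blk h)) ↔ ∃ x ∈ L, Good h x := by
  rw [← run_blks h L]
  constructor
  · rintro ⟨q, hq, s, hrun⟩
    exact ⟨q, hq, s, (mach2_run _ _ _).1 hrun⟩
  · rintro ⟨q, hq, s, hrun⟩
    exact ⟨q, hq, s, (mach2_run _ _ _).2 hrun⟩

/-- A symbolic letter of block `j`. -/
def ups {M : ℕ} (j : Fin M) (g : SL m) : Option Sy → Bool ⊕ (Fin M × Vr m) := fun o => match o with
  | none => Sum.inl false
  | some σ => Sum.map id (Prod.mk j) (g σ)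

/-- The symbolic new letter. -/
def snx {M : ℕ} : Option Sy → Bool ⊕ (Fin M × Vr m) := fun o => Sum.inl (nx o)

/-- The symbolic word. -/
def sblks (m M h : ℕ) : List (Option Sy → Bool ⊕ (Fin M × Vr m)) :=
  (List.finRange M).flatMap (fun j => snx :: (senc m h).map (ups j))

theorem ev_sblks (M h : ℕ) (X : Fin M × Vr m → Bool) :
    (sblks m M h).map (fun g o => Sum.elim id X (g o))
      = ((List.finRange M).map (fun j => fun v => X (j, v))).flatMap (blk h) := by
  unfold sblks blk
  rw [List.map_flatMap, List.flatMap_map]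
  congr 1
  funext j
  rw [List.map_cons, List.map_map, List.map_map]
  congr 1
  apply List.map_congr_left
  intro g _
  funext o
  rcases o with _ | σ
  · rfl
  · simp only [Function.comp_apply, ups, up, evl]
    rcases g σ with b | v
    · rfl
    · rfl

theorem length_sblks (M h : ℕ) : (sblks m M h).length = M * ((senc m h).length + 1) := by
  unfold sblks
  rw [List.length_flatMap]
  simp

end Pool.Agent.H589R2.MNL
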