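import Pool.Agent.H589R2.MNL.DPDADef
import Pool.Agent.H589R2.MNL.Mach2

/-!
# A deterministic pushdown automaton evaluating tree-shaped systems
-/

namespace Pool.Agent.H589R2.MNL

open Sk

/-- tags -/
inductive Tg | tN | tL | tT | tG | tS | tR | tE | tF
  deriving DecidableEq

/-- states -/
inductive S3 | q0 | qc | qb | qa | q1 | qg | dead | f
  deriving DecidableEq

open Tg S3

instance : Fintype Tg := ⟨{tN, tL, tT, tG, tS, tR, tE, tF}, by intro x; cases x <;> simp⟩

instance : Fintype S3 := ⟨{q0, qc, qb, qa, q1, qg, dead, f}, by intro x; cases x <;> simp⟩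

/-- The moves. -/
def dst : S3 → Tg × Bool → Sk → S3 × List Sk
  | f, _, z => (f, [z])
  | _, (tN, _), z => (q0, [B, z])
  | q0, (tL, _), z => (qa, [X, z])
  | q0, (tT, _), z => (qc, [z])
  | q0, (tG, _), z => (qg, [z])
  | qc, (tS, _), I => (qc, [])
  | qc, (tS, _), X => (qb, [])
  | qc, (tR, _), z => (qc, [z])
  | qc, (tE, _), z => (qc, [z])
  | qb, (tR, _), I => (qb, [])
  | qb, (tR, _), X => (qa, [X])
  | qb, (tE, _), z => (qb, [z])
  | qa, (tE, true), z => (q1, [z])
  | qa, (tE, false), z => (qa, [I, z])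
  | q1, (tF, _), z => (q0, [z])
  | q1, _, z => (q1, [z])
  | qg, (tE, _), I => (qg, [])
  | qg, (tE, true), X => (f, [X])
  | _, _, z => (dead, [z])

/-- The automaton. -/
def mach3 : DPDA (Tg × Bool) where
  Q := S3
  Z := Sk
  finQ := inferInstance
  finZ := inferInstance
  start := dead
  bot := B
  acc := {f}
  δ := fun q a z => some (dst q a z)

/-- Reading a word. -/
def rn : List (Tg × Bool) → S3 × List Sk → Option (S3 × List Sk)
  | [], c => some c
  | _ :: _, (_, []) => none
  | a :: w, (q, z :: s) => rn w ((dst q a z).1, (dst q a z).2 ++ s)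

theorem mach3_run (w : List (Tg × Bool)) (c : S3 × List Sk) : mach3.run w c = rn w c := by
  induction w generalizing c with
  | nil => rfl
  | cons a w ih =>
    rcases c with ⟨q, _ | ⟨z, s⟩⟩
    · rfl
    · exact ih _

theorem rn_append (w₁ w₂ : List (Tg × Bool)) (c : S3 × List Sk) :
    rn (w₁ ++ w₂) c = (rn w₁ c).bind (rn w₂) := by
  induction w₁ generalizing c with
  | nil => rfl
  | cons a w ih =>
    rcases c with ⟨q, _ | ⟨z, s⟩⟩
    · rfl
    · exact ih _

theorem rn_trans {w₁ w₂ : List (Tg × Bool)} {c d e : S3 × List Sk} (h₁ : rn w₁ c = some d)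
    (h₂ : rn w₂ d = some e) : rn (w₁ ++ w₂) c = some e := by
  rw [rn_append, h₁]
  exact h₂

theorem rn_cons (a : Tg × Bool) (w : List (Tg × Bool)) (q : S3) (z : Sk) (s : List Sk) :
    rn (a :: w) (q, z :: s) = rn w ((dst q a z).1, (dst q a z).2 ++ s) := rfl

/-- an entry -/
def en (b : Bool) : Tg × Bool := (tE, b)

theorem rn_f (w : List (Tg × Bool)) (s : List Sk) (hs : s ≠ []) :
    rn w (f, s) = some (f, s) := by
  induction w with
  | nil => rfl
  | cons a w ih =>
    obtain ⟨z, s, rfl⟩ := List.exists_cons_of_ne_nil hs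
    rw [rn_cons]
    exact ih

theorem rn_dead (w : List (Tg × Bool)) (hw : ∀ a ∈ w, a.1 ≠ tN) (s : List Sk) (hs : s ≠ []) :
    rn w (dead, s) = some (dead, s) := by
  induction w with
  | nil => rfl
  | cons a w ih =>
    obtain ⟨z, s, rfl⟩ := List.exists_cons_of_ne_nil hs
    have ha := hw a List.mem_cons_self
    have hd : dst dead a z = (dead, [z]) := by
      obtain ⟨t, b⟩ := a
      cases t <;> simp at ha <;> rfl
    rw [rn_cons, hd]
    exact ih (fun b hb => hw b (List.mem_cons_of_mem _ hb))

theorem rn_q1 (w : List (Tg × Bool)) (hw : ∀ a ∈ w, a.1 ≠ tN ∧ a.1 ≠ tF) (s : List Sk)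
    (hs : s ≠ []) : rn w (q1, s) = some (q1, s) := by
  induction w with
  | nil => rfl
  | cons a w ih =>
    obtain ⟨z, s, rfl⟩ := List.exists_cons_of_ne_nil hs
    have ha := hw a List.mem_cons_self
    have hd : dst q1 a z = (q1, [z]) := by
      obtain ⟨t, b⟩ := a
      cases t <;> simp at ha <;> rfl
    rw [rn_cons, hd]
    exact ih (fun b hb => hw b (List.mem_cons_of_mem _ hb))

theorem rn_q1_fin (s : List Sk) (hs : s ≠ []) : rn [(tF, false)] (q1, s) = some (q0, s) := by
  obtain ⟨z, s, rfl⟩ := List.exists_cons_of_ne_nil hs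
  rfl

/-- entries -/
def ents (p : ℕ → Bool) (k n : ℕ) : List (Tg × Bool) := (List.range' k n).map (fun a => en (p a))

theorem ents_succ (p : ℕ → Bool) (k n : ℕ) : ents p k (n + 1) = en (p k) :: ents p (k + 1) n := rfl

theorem mem_ents {p : ℕ → Bool} {k n : ℕ} {a : Tg × Bool} (h : a ∈ ents p k n) : a.1 = tE := by
  unfold ents at h
  obtain ⟨_, _, rfl⟩ := List.mem_map.1 h
  rfl

theorem rn_ents_qc (p : ℕ → Bool) (n : ℕ) : ∀ k s, s ≠ [] →
    rn (ents p k n) (qc, s) = some (qc, s) := by
  induction n with
  | zero => intro k s _; rfl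
  | succ n ih =>
    intro k s hs
    obtain ⟨z, s, rfl⟩ := List.exists_cons_of_ne_nil hs
    rw [ents_succ, rn_cons]
    exact ih (k + 1) (z :: s) (by simp)

theorem rn_ents_qb (p : ℕ → Bool) (n : ℕ) : ∀ k s, s ≠ [] →
    rn (ents p k n) (qb, s) = some (qb, s) := by
  induction n with
  | zero => intro k s _; rfl
  | succ n ih =>
    intro k s hs
    obtain ⟨z, s, rfl⟩ := List.exists_cons_of_ne_nil hs
    rw [ents_succ, rn_cons]
    exact ih (k + 1) (z :: s) (by simp)

/-- scanning entries -/
theorem rn_ents_qa (p : ℕ → Bool) (n : ℕ) : ∀ k s, s ≠ [] →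
    rn (ents p k n) (qa, List.replicate k I ++ s) =
      match (List.range' k n).find? p with
      | some a => some (q1, List.replicate a I ++ s)
      | none => some (qa, List.replicate (k + n) I ++ s) := by
  induction n with
  | zero => intro k s _; rfl
  | succ n ih =>
    intro k s hs
    have hne : List.replicate k I ++ s ≠ [] := by simp [hs]
    obtain ⟨z, s', hz⟩ := List.exists_cons_of_ne_nil hne
    rw [ents_succ, List.range'_succ, hz, rn_cons]
    by_cases hp : p k = true
    · rw [List.find?_cons_of_pos hp]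
      have hd : dst qa (en (p k)) z = (q1, [z]) := by rw [hp]; rfl
      rw [hd]
      simp only [List.singleton_append]
      rw [← hz]
      apply rn_q1 _ _ _ hne
      intro a ha
      rw [mem_ents ha]
      decide
    · have hp' : p k = false := by simpa using hp
      rw [List.find?_cons_of_neg hp]
      have hd : dst qa (en (p k)) z = (qa, [I, z]) := by rw [hp']; rfl
      rw [hd]
      have h1 : [I, z] ++ s' = List.replicate (k + 1) I ++ s := by
        rw [List.replicate_succ]
        change I :: (z :: s') = I :: (List.replicate k I ++ s)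
        rw [hz]
      simp only [h1]
      rw [ih (k + 1) s hs]
      rw [show k + 1 + n = k + (n + 1) by ring]

/-- a row -/
def row (p : ℕ → Bool) (n : ℕ) : List (Tg × Bool) := (tR, false) :: ents p 0 n

/-- rows -/
def rows (p : ℕ → ℕ → Bool) (m k n : ℕ) : List (Tg × Bool) :=
  (List.range' k n).flatMap (fun b => row (fun a => p a b) m)

/-- a group -/
def grp (p : ℕ → ℕ → Bool) (m : ℕ) : List (Tg × Bool) := (tS, false) :: rows p m 0 m

/-- groups -/
def grps (p : ℕ → ℕ → ℕ → Bool) (m k n : ℕ) : List (Tg × Bool) :=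
  (List.range' k n).flatMap (fun c => grp (fun a b => p a b c) m)

theorem rn_row_qc (p : ℕ → Bool) (m : ℕ) (s : List Sk) (hs : s ≠ []) :
    rn (row p m) (qc, s) = some (qc, s) := by
  obtain ⟨z, s, rfl⟩ := List.exists_cons_of_ne_nil hs
  unfold row
  rw [rn_cons]
  exact rn_ents_qc p m 0 (z :: s) (by simp)

theorem rn_rows_qc (p : ℕ → ℕ → Bool) (m n : ℕ) : ∀ k s, s ≠ [] →
    rn (rows p m k n) (qc, s) = some (qc, s) := by
  induction n with
  | zero => intro k s _; rfl
  | succ n ih =>
    intro k s hs
    unfold rows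
    rw [List.range'_succ, List.flatMap_cons]
    exact rn_trans (rn_row_qc _ m s hs) (ih (k + 1) s hs)

/-- skipping groups -/
theorem rn_grps_qc (p : ℕ → ℕ → ℕ → Bool) (m n : ℕ) : ∀ k s, s ≠ [] →
    rn (grps p m k n) (qc, List.replicate n I ++ s) = some (qc, s) := by
  induction n with
  | zero => intro k s _; rfl
  | succ n ih =>
    intro k s hs
    have hne : List.replicate n I ++ s ≠ [] := by simp [hs]
    unfold grps
    rw [List.range'_succ, List.flatMap_cons]
    refine rn_trans (d := (qc, List.replicate n I ++ s)) ?_ (ih (k + 1) s hs)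
    unfold grp
    rw [List.replicate_succ, List.cons_append, rn_cons]
    exact rn_rows_qc _ m m 0 _ hne

/-- skipping rows -/
theorem rn_rows_qb (p : ℕ → ℕ → Bool) (m n : ℕ) : ∀ k s, s ≠ [] →
    rn (rows p m k n) (qb, List.replicate n I ++ s) = some (qb, s) := by
  induction n with
  | zero => intro k s _; rfl
  | succ n ih =>
    intro k s hs
    have hne : List.replicate n I ++ s ≠ [] := by simp [hs]
    unfold rows
    rw [List.range'_succ, List.flatMap_cons]
    refine rn_trans (d := (qb, List.replicate n I ++ s)) ?_ (ih (k + 1) s hs)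
    unfold row
    rw [List.replicate_succ, List.cons_append, rn_cons]
    exact rn_ents_qb _ m 0 _ hne

/-- No letter of the word is `tN`. -/
def NoN (w : List (Tg × Bool)) : Prop := ∀ a ∈ w, a.1 ≠ tN ∧ a.1 ≠ tF

theorem noN_append {w₁ w₂ : List (Tg × Bool)} (h₁ : NoN w₁) (h₂ : NoN w₂) : NoN (w₁ ++ w₂) := by
  intro a ha
  rcases List.mem_append.1 ha with h | h
  · exact h₁ a h
  · exact h₂ a h

theorem noN_cons {a : Tg × Bool} {w : List (Tg × Bool)} (h : a.1 ≠ tN ∧ a.1 ≠ tF) (hw : NoN w) :
    NoN (a :: w) := by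
  intro b hb
  rcases List.mem_cons.1 hb with rfl | hb
  · exact h
  · exact hw b hb

theorem noN_ents (p : ℕ → Bool) (k n : ℕ) : NoN (ents p k n) := by
  intro a ha
  rw [mem_ents ha]
  decide

theorem noN_row (p : ℕ → Bool) (n : ℕ) : NoN (row p n) := noN_cons (by decide) (noN_ents p 0 n)

theorem noN_rows (p : ℕ → ℕ → Bool) (m k n : ℕ) : NoN (rows p m k n) := by
  intro a ha
  obtain ⟨b, _, hb⟩ := List.mem_flatMap.1 ha
  exact noN_row _ _ a hb

theorem noN_grp (p : ℕ → ℕ → Bool) (m : ℕ) : NoN (grp p m) :=
  noN_cons (by decide) (noN_rows p m 0 m)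

theorem noN_grps (p : ℕ → ℕ → ℕ → Bool) (m k n : ℕ) : NoN (grps p m k n) := by
  intro a ha
  obtain ⟨b, _, hb⟩ := List.mem_flatMap.1 ha
  exact noN_grp _ _ a hb

/-- the empty stack is not reached, the state `qa` dies outside the entries -/
theorem rn_after_none (w : List (Tg × Bool)) (hw : NoN w) (hh : ∀ a ∈ w.head?, a.1 ≠ tE)
    (s : List Sk) (hs : s ≠ []) :
    rn (w ++ [(tF, false)]) (qa, s) = some (dead, s) := by
  obtain ⟨z, s, rfl⟩ := List.exists_cons_of_ne_nil hs
  rcases w with _ | ⟨a, w⟩
  · rfl
  · have ha := hw a List.mem_cons_self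
    have ha2 : a.1 ≠ tE := hh a (by simp)
    have hd : dst qa a z = (dead, [z]) := by
      obtain ⟨t, b⟩ := a
      cases t <;> simp at ha ha2 <;> rfl
    rw [List.cons_append, rn_cons, hd]
    apply rn_dead _ _ _ (by simp)
    intro b hb
    rcases List.mem_append.1 hb with h | h
    · exact (hw b (List.mem_cons_of_mem _ h)).1
    · rw [List.mem_singleton] at h
      rw [h]
      decide

/-- the table of an inner node -/
def tbl (p : ℕ → ℕ → ℕ → Bool) (m : ℕ) : List (Tg × Bool) :=
  (tT, false) :: (grps p m 0 m ++ [(tF, false)])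

theorem head_rows (p : ℕ → ℕ → Bool) (m k n : ℕ) (w : List (Tg × Bool))
    (hw : ∀ a ∈ w.head?, a.1 ≠ tE) : ∀ a ∈ (rows p m k n ++ w).head?, a.1 ≠ tE := by
  rcases n with _ | n
  · exact hw
  · intro a ha
    unfold rows at ha
    rw [List.range'_succ, List.flatMap_cons] at ha
    unfold row at ha
    simp at ha
    rw [← ha]
    decide

theorem head_grps (p : ℕ → ℕ → ℕ → Bool) (m k n : ℕ) :
    ∀ a ∈ (grps p m k n).head?, a.1 ≠ tE := by
  rcases n with _ | n
  · intro a ha
    simp [grps] at ha
  · intro a ha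
    unfold grps at ha
    rw [List.range'_succ, List.flatMap_cons] at ha
    unfold grp at ha
    simp at ha
    rw [← ha]
    decide

/-- **The table of an inner node.** -/
theorem rn_tbl (p : ℕ → ℕ → ℕ → Bool) (m b c : ℕ) (hb : b < m) (hc : c < m) (s : List Sk) :
    (∀ a, (List.range m).find? (fun a => p a b c) = some a →
      rn (tbl p m) (q0, lab c (lab b s)) = some (q0, lab a s)) ∧
    ((List.range m).find? (fun a => p a b c) = none →
      ∃ s', s' ≠ [] ∧ rn (tbl p m) (q0, lab c (lab b s)) = some (dead, s')) := by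
  have e1 : List.range' 0 m = List.range' 0 c ++ (c :: List.range' (c + 1) (m - c - 1)) := by
    have h1 : c :: List.range' (c + 1) (m - c - 1) = List.range' c (m - c) := by
      have : m - c = (m - c - 1) + 1 := by omega
      rw [this, List.range'_succ]
      simp
    rw [h1]
    have h2 := List.range'_append (s := 0) (m := c) (n := m - c) (step := 1)
    rw [show c + (m - c) = m by omega] at h2
    simpa using h2.symm
  have e2 : List.range' 0 m = List.range' 0 b ++ (b :: List.range' (b + 1) (m - b - 1)) := by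
    have h1 : b :: List.range' (b + 1) (m - b - 1) = List.range' b (m - b) := by
      have : m - b = (m - b - 1) + 1 := by omega
      rw [this, List.range'_succ]
      simp
    rw [h1]
    have h2 := List.range'_append (s := 0) (m := b) (n := m - b) (step := 1)
    rw [show b + (m - b) = m by omega] at h2
    simpa using h2.symm
  have e3 : tbl p m = (tT, false) :: (grps p m 0 c ++ ((tS, false) ::
      (rows (fun a b => p a b c) m 0 b ++ ((tR, false) :: (ents (fun a => p a b c) 0 m ++
      ((rows (fun a b => p a b c) m (b + 1) (m - b - 1) ++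
      grps p m (c + 1) (m - c - 1)) ++ [(tF, false)])))))) := by
    unfold tbl
    have h1 : grps p m 0 m = grps p m 0 c ++ (grp (fun a b => p a b c) m ++
        grps p m (c + 1) (m - c - 1)) := by
      unfold grps
      rw [e1, List.flatMap_append, List.flatMap_cons]
    have h2 : grp (fun a b => p a b c) m = (tS, false) :: (rows (fun a b => p a b c) m 0 b ++
        (row (fun a => p a b c) m ++ rows (fun a b => p a b c) m (b + 1) (m - b - 1))) := by
      unfold grp rows
      rw [e2, List.flatMap_append, List.flatMap_cons]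
    rw [h1, h2]
    unfold row
    simp only [List.cons_append, List.append_assoc]
  have hlb : lab b s ≠ [] := lab_ne _ _
  -- up to the entries
  have h1 : ∀ w, rn ((tT, false) :: (grps p m 0 c ++ ((tS, false) ::
      (rows (fun a b => p a b c) m 0 b ++ ((tR, false) :: w))))) (q0, lab c (lab b s))
      = rn w (qa, X :: s) := by
    intro w
    obtain ⟨z, s1, hz⟩ := List.exists_cons_of_ne_nil (lab_ne c (lab b s))
    rw [hz, rn_cons]
    have hd : dst q0 (tT, false) z = (qc, [z]) := rfl
    rw [hd]
    simp only [List.singleton_append]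
    rw [← hz]
    have hl : lab c (lab b s) = List.replicate c I ++ (X :: lab b s) := rfl
    rw [hl, rn_append, rn_grps_qc p m c 0 (X :: lab b s) (by simp), Option.bind_some, rn_cons]
    have hd2 : dst qc (tS, false) X = (qb, []) := rfl
    rw [hd2]
    simp only [List.nil_append]
    have hl2 : lab b s = List.replicate b I ++ (X :: s) := rfl
    rw [hl2, rn_append, rn_rows_qb _ m b 0 (X :: s) (by simp), Option.bind_some, rn_cons]
    have hd3 : dst qb (tR, false) X = (qa, [X]) := rfl
    rw [hd3]
    rfl
  have h2 := rn_ents_qa (fun a => p a b c) m 0 (X :: s) (by simp)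
  rw [List.replicate_zero, List.nil_append] at h2
  have hnoN : NoN (rows (fun a b => p a b c) m (b + 1) (m - b - 1) ++
      grps p m (c + 1) (m - c - 1)) := noN_append (noN_rows _ _ _ _) (noN_grps _ _ _ _)
  refine ⟨fun a ha => ?_, fun hno => ?_⟩
  · rw [List.range_eq_range'] at ha
    rw [ha] at h2
    rw [e3, h1]
    refine rn_trans h2 (rn_trans (rn_q1 _ hnoN _ (by simp)) ?_)
    exact rn_q1_fin _ (by simp)
  · rw [List.range_eq_range'] at hno
    rw [hno] at h2
    refine ⟨List.replicate (0 + m) I ++ X :: s, by simp, ?_⟩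
    rw [e3, h1]
    refine rn_trans h2 ?_
    exact rn_after_none _ hnoN (head_rows _ _ _ _ _ (head_grps _ _ _ _)) _ (by simp)

/-- the table of a leaf -/
def tblL (p : ℕ → Bool) (m : ℕ) : List (Tg × Bool) :=
  (tL, false) :: (ents p 0 m ++ [(tF, false)])

theorem rn_tblL (p : ℕ → Bool) (m : ℕ) (s : List Sk) (hs : s ≠ []) :
    (∀ a, (List.range m).find? p = some a →
      rn (tblL p m) (q0, s) = some (q0, lab a s)) ∧
    ((List.range m).find? p = none →
      ∃ s', s' ≠ [] ∧ rn (tblL p m) (q0, s) = some (dead, s')) := by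
  obtain ⟨z, s, rfl⟩ := List.exists_cons_of_ne_nil hs
  have h2 := rn_ents_qa p m 0 (X :: z :: s) (by simp)
  rw [List.replicate_zero, List.nil_append] at h2
  unfold tblL
  rw [rn_cons]
  have hd : dst q0 (tL, false) z = (qa, [X, z]) := rfl
  rw [hd]
  simp only [List.cons_append, List.nil_append]
  refine ⟨fun a ha => ?_, fun hno => ?_⟩
  · rw [List.range_eq_range'] at ha
    rw [ha] at h2
    exact rn_trans h2 (rn_q1_fin _ (by simp))
  · rw [List.range_eq_range'] at hno
    rw [hno] at h2
    refine ⟨List.replicate (0 + m) I ++ X :: z :: s, by simp, ?_⟩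
    exact rn_trans h2 (rn_after_none [] (fun a ha => by simp at ha) (fun a ha => by simp at ha) _
      (by simp))

/-- the goal table -/
def tblG (p : ℕ → Bool) (m : ℕ) : List (Tg × Bool) := (tG, false) :: ents p 0 m

theorem rn_ents_qg (p : ℕ → Bool) (s : List Sk) (n : ℕ) : ∀ k, rn (ents p k n)
    (qg, List.replicate n I ++ X :: s) = some (qg, X :: s) := by
  induction n with
  | zero => intro k; rfl
  | succ n ih =>
    intro k
    rw [ents_succ, List.replicate_succ, List.cons_append, rn_cons]
    have hd : dst qg (en (p k)) I = (qg, []) := by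
      unfold en
      rfl
    rw [hd]
    exact ih (k + 1)

theorem rn_tblG (p : ℕ → Bool) (m a : ℕ) (ha : a < m) (s : List Sk) :
    ∃ s', s' ≠ [] ∧ rn (tblG p m) (q0, lab a s) = some (if p a = true then f else dead, s') := by
  refine ⟨X :: s, by simp, ?_⟩
  have e1 : List.range' 0 m = List.range' 0 a ++ (a :: List.range' (a + 1) (m - a - 1)) := by
    have h1 : a :: List.range' (a + 1) (m - a - 1) = List.range' a (m - a) := by
      have : m - a = (m - a - 1) + 1 := by omega
      rw [this, List.range'_succ]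
      simp
    rw [h1]
    have h2 := List.range'_append (s := 0) (m := a) (n := m - a) (step := 1)
    rw [show a + (m - a) = m by omega] at h2
    simpa using h2.symm
  have e2 : ents p 0 m = ents p 0 a ++ (en (p a) :: ents p (a + 1) (m - a - 1)) := by
    unfold ents
    rw [e1, List.map_append, List.map_cons]
  unfold tblG
  obtain ⟨z, s1, hz⟩ := List.exists_cons_of_ne_nil (lab_ne a s)
  rw [hz, rn_cons]
  have hd : dst q0 (tG, false) z = (qg, [z]) := rfl
  rw [hd]
  simp only [List.singleton_append]
  rw [← hz, e2]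
  have hl : lab a s = List.replicate a I ++ (X :: s) := rfl
  rw [hl]
  refine rn_trans (rn_ents_qg p s a 0) ?_
  rw [rn_cons]
  by_cases hp : p a = true
  · have hd2 : dst qg (en (p a)) X = (f, [X]) := by rw [hp]; rfl
    rw [hd2, if_pos hp]
    exact rn_f _ _ (by simp)
  · have hp' : p a = false := by simpa using hp
    have hd2 : dst qg (en (p a)) X = (dead, [X]) := by rw [hp']; rfl
    rw [hd2, if_neg hp]
    exact rn_dead _ (fun b hb => by rw [mem_ents hb]; decide) _ (by simp)

end Pool.Agent.H589R2.MNL
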