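import Mathlib

/-!
# One-way nondeterministic pushdown automata
-/

namespace Pool.Agent.H589R2.MNL

/-- A one-way nondeterministic pushdown automaton (real time: every step reads one letter).  A step
replaces the top symbol of the stack by a word (its first letter on top). -/
structure PDA (Γ : Type) where
  /-- states -/
  Q : Type
  /-- stack symbols -/
  Z : Type
  finQ : Finite Q
  finZ : Finite Z
  /-- the first state -/
  start : Q
  /-- the only stack symbol at the start -/
  bot : Z
  /-- accepting states -/
  acc : Set Q
  /-- the possible moves in a state, on a letter, with a top symbol -/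
  δ : Q → Γ → Z → Set (Q × List Z)
  finδ : ∀ q a z, (δ q a z).Finite

/-- One step on the letter `a`. -/
def PDA.Step {Γ : Type} (M : PDA Γ) (a : Γ) : M.Q × List M.Z → M.Q × List M.Z → Prop
  | (_, []), _ => False
  | (q, z :: s), c => ∃ t, (c.1, t) ∈ M.δ q a z ∧ c.2 = t ++ s

/-- Reading a word. -/
def PDA.Run {Γ : Type} (M : PDA Γ) : List Γ → M.Q × List M.Z → M.Q × List M.Z → Prop
  | [], c, c' => c = c'
  | a :: w, c, c' => ∃ d, M.Step a c d ∧ M.Run w d c'

/-- The automaton accepts the word `w`. -/
def PDA.Accepts {Γ : Type} (M : PDA Γ) (w : List Γ) : Prop :=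
  ∃ q ∈ M.acc, ∃ s, M.Run w (M.start, [M.bot]) (q, s)

end Pool.Agent.H589R2.MNL
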