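import Pool.Agent.H589R2.MNL.NBP

/-!
# Branching programs in rounds (few NOT gates)
-/

open Finset

namespace Pool.Agent.H589R2.MNL

/-- A monotone nondeterministic branching program of any size. -/
structure Net (Var : Type*) where
  /-- the number of states -/
  size : ℕ
  /-- the program -/
  prog : NBP Var size

/-- Acceptance. -/
def Net.Accepts {Var : Type*} (N : Net Var) (x : Var → Bool) : Prop := N.prog.Accepts x

theorem Net.mono {Var : Type*} (N : Net Var) {x y : Var → Bool} (hxy : ∀ z, x z = true → y z = true)
    (h : N.Accepts x) : N.Accepts y := by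
  unfold Net.Accepts NBP.Accepts at h ⊢
  refine Relation.ReflTransGen.mono ?_ _ _ h
  rintro q q' (h | ⟨z, h1, h2⟩)
  · exact Or.inl h
  · exact Or.inr ⟨z, h1, hxy z h2⟩

/-- Substituting constants and variables for the variables. -/
def Net.pull {Var Var' : Type*} (ρ : Var → Bool ⊕ Var') (N : Net Var) : Net Var' where
  size := N.size
  prog :=
    { edge := fun q q' e => match e with
        | none => N.prog.edge q q' none ∨ ∃ z, N.prog.edge q q' (some z) ∧ ρ z = Sum.inl true
        | some y => ∃ z, N.prog.edge q q' (some z) ∧ ρ z = Sum.inr y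
      src := N.prog.src
      snk := N.prog.snk }

theorem Net.pull_accepts {Var Var' : Type*} (ρ : Var → Bool ⊕ Var') (N : Net Var)
    (x : Var' → Bool) : (N.pull ρ).Accepts x ↔ N.Accepts (fun z => Sum.elim id x (ρ z)) := by
  have hstep : (N.pull ρ).prog.Step x = N.prog.Step (fun z => Sum.elim id x (ρ z)) := by
    funext q q'
    apply propext
    constructor
    · rintro (h | ⟨y, h, h3⟩)
      · have h' : N.prog.edge q q' none ∨ ∃ z, N.prog.edge q q' (some z) ∧ ρ z = Sum.inl true := h
        rcases h' with h' | ⟨z, h1, h2⟩
        · exact Or.inl h'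
        · exact Or.inr ⟨z, h1, by simp only [h2]; rfl⟩
      · have h' : ∃ z, N.prog.edge q q' (some z) ∧ ρ z = Sum.inr y := h
        obtain ⟨z, h1, h2⟩ := h'
        exact Or.inr ⟨z, h1, by simp only [h2]; exact h3⟩
    · rintro (h | ⟨z, h1, h2⟩)
      · exact Or.inl (Or.inl h)
      · have h2' : Sum.elim id x (ρ z) = true := h2
        rcases hw : ρ z with b | y
        · rw [hw] at h2'
          have hb : b = true := by simpa using h2'
          subst hb
          exact Or.inl (Or.inr ⟨z, h1, hw⟩)
        · rw [hw] at h2'
          exact Or.inr ⟨y, ⟨z, h1, hw⟩, by simpa using h2'⟩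
  unfold Net.Accepts NBP.Accepts
  rw [hstep]
  rfl

/-- States of the disjunction of finitely many programs. -/
abbrev OrSt {ι : Type} {Var : Type*} (N : ι → Net Var) := Option (Option (Σ i, Fin (N i).size))

/-- Steps of the disjunction. -/
inductive OrStep {ι : Type} {Var : Type*} (N : ι → Net Var) (U : ι → Prop) :
    OrSt N → OrSt N → Option Var → Prop
  | start (i : ι) (h : U i) : OrStep N U none (some (some ⟨i, (N i).prog.src⟩)) none
  | stop (i : ι) : OrStep N U (some (some ⟨i, (N i).prog.snk⟩)) (some none) none
  | mid (i : ι) (q q' : Fin (N i).size) (e : Option Var) (h : (N i).prog.edge q q' e) :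
      OrStep N U (some (some ⟨i, q⟩)) (some (some ⟨i, q'⟩)) e

/-- One usable step of the disjunction. -/
def OrRel {ι : Type} {Var : Type*} (N : ι → Net Var) (U : ι → Prop) (x : Var → Bool)
    (a b : OrSt N) : Prop :=
  OrStep N U a b none ∨ ∃ y, OrStep N U a b (some y) ∧ x y = true

theorem or_reach {ι : Type} {Var : Type*} (N : ι → Net Var) (U : ι → Prop) (x : Var → Bool) :
    Relation.ReflTransGen (OrRel N U x) none (some none) ↔ ∃ i, U i ∧ (N i).Accepts x := by
  constructor
  · intro h
    have key : ∀ b, Relation.ReflTransGen (OrRel N U x) none b →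
        b = none ∨ (∃ i, U i ∧ ∃ q, b = some (some ⟨i, q⟩) ∧
          Relation.ReflTransGen ((N i).prog.Step x) (N i).prog.src q) ∨
        (b = some none ∧ ∃ i, U i ∧ (N i).Accepts x) := by
      intro b hb
      induction hb with
      | refl => exact Or.inl rfl
      | @tail b c _ hbc ih =>
        rcases ih with rfl | ⟨i, hi, q, rfl, hq⟩ | ⟨rfl, h⟩
        · rcases hbc with hbc | ⟨y, hbc, _⟩
          · cases hbc with
            | start i hi => exact Or.inr (Or.inl ⟨i, hi, _, rfl, Relation.ReflTransGen.refl⟩)
          · cases hbc
        · rcases hbc with hbc | ⟨y, hbc, hy⟩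
          · cases hbc with
            | stop => exact Or.inr (Or.inr ⟨rfl, i, hi, hq⟩)
            | mid _ _ q' _ he =>
              exact Or.inr (Or.inl ⟨i, hi, q', rfl, hq.tail (Or.inl he)⟩)
          · cases hbc with
            | mid _ _ q' _ he =>
              exact Or.inr (Or.inl ⟨i, hi, q', rfl, hq.tail (Or.inr ⟨y, he, hy⟩)⟩)
        · rcases hbc with hbc | ⟨y, hbc, _⟩
          · cases hbc
          · cases hbc
    rcases key _ h with h | ⟨i, _, q, h, _⟩ | ⟨_, h⟩
    · exact absurd h (by simp)
    · exact absurd h (by simp)
    · exact h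
  · rintro ⟨i, hi, h⟩
    have h1 : Relation.ReflTransGen (OrRel N U x) none (some (some ⟨i, (N i).prog.src⟩)) :=
      Relation.ReflTransGen.single (Or.inl (OrStep.start i hi))
    have h2 : ∀ q, Relation.ReflTransGen ((N i).prog.Step x) (N i).prog.src q →
        Relation.ReflTransGen (OrRel N U x) none (some (some ⟨i, q⟩)) := by
      intro q hq
      induction hq with
      | refl => exact h1
      | tail _ hbc ih =>
        refine ih.tail ?_
        rcases hbc with hbc | ⟨y, hbc, hy⟩
        · exact Or.inl (OrStep.mid i _ _ _ hbc)
        · exact Or.inr ⟨y, OrStep.mid i _ _ _ hbc, hy⟩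
    exact (h2 _ h).tail (Or.inl (OrStep.stop i))

/-- The disjunction of finitely many programs, some of them disabled. -/
theorem exists_or {ι : Type} [Fintype ι] {Var : Type*} (N : ι → Net Var) (U : ι → Prop) :
    ∃ P : NBP Var ((∑ i, (N i).size) + 1 + 1), ∀ x, P.Accepts x ↔ ∃ i, U i ∧ (N i).Accepts x := by
  classical
  have hcard : Fintype.card (OrSt N) = (∑ i, (N i).size) + 1 + 1 := by
    rw [Fintype.card_option, Fintype.card_option, Fintype.card_sigma]
    simp
  obtain ⟨e⟩ : Nonempty (OrSt N ≃ Fin ((∑ i, (N i).size) + 1 + 1)) :=
    ⟨Fintype.equivFinOfCardEq hcard⟩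
  refine ⟨⟨fun a b y => OrStep N U (e.symm a) (e.symm b) y, e none, e (some none)⟩, fun x => ?_⟩
  rw [← or_reach N U x]
  unfold NBP.Accepts
  constructor
  · intro h
    have h2 := Relation.ReflTransGen.lift (p := OrRel N U x) e.symm
      (fun a b hab => hab) _ _ h
    simpa [Function.onFun] using h2
  · intro h
    refine Relation.ReflTransGen.lift e (fun a b hab => ?_) _ _ h
    rcases hab with hab | ⟨y, hab, hy⟩
    · left; simpa using hab
    · right; exact ⟨y, by simpa using hab, hy⟩

section Rounds

variable {Var : Type*}

/-- The table `A` contains the answers on the input `x`. -/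
def Cons (d : ℕ) (w : ℕ → ℕ) (N : ℕ → ℕ → (ℕ → ℕ → Prop) → Net Var) (A : ℕ → ℕ → Prop)
    (x : Var → Bool) : Prop := ∀ i < d, ∀ k < w i, (A i k ↔ (N i k A).Accepts x)

/-- The tables agree on the first rounds. -/
def Agr (d : ℕ) (w : ℕ → ℕ) (A A' : ℕ → ℕ → Prop) : Prop := ∀ i < d, ∀ k < w i, (A i k ↔ A' i k)

open Classical in
/-- The lexicographic rank of a table. -/
noncomputable def rk (w : ℕ → ℕ) (A : ℕ → ℕ → Prop) : ℕ → ℕ
  | 0 => 0
  | d + 1 => rk w A d * (w d + 1) + ((Finset.range (w d)).filter (A d)).card

theorem rk_lt (w : ℕ → ℕ) (A : ℕ → ℕ → Prop) (d : ℕ) :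
    rk w A d < ∏ i ∈ Finset.range d, (w i + 1) := by
  classical
  induction d with
  | zero => simp [rk]
  | succ d ih =>
    rw [Finset.prod_range_succ, rk]
    have h1 : ((Finset.range (w d)).filter (A d)).card ≤ w d := by
      refine (Finset.card_filter_le _ _).trans ?_
      rw [Finset.card_range]
    calc rk w A d * (w d + 1) + ((Finset.range (w d)).filter (A d)).card
        < rk w A d * (w d + 1) + (w d + 1) := by omega
      _ = (rk w A d + 1) * (w d + 1) := by ring
      _ ≤ (∏ i ∈ Finset.range d, (w i + 1)) * (w d + 1) := Nat.mul_le_mul_right _ ih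

theorem rk_mono {d : ℕ} {w : ℕ → ℕ} {N : ℕ → ℕ → (ℕ → ℕ → Prop) → Net Var}
    (hdep : ∀ i k A A', (∀ j < i, ∀ k' < w j, (A j k' ↔ A' j k')) → N i k A = N i k A')
    {x x' : Var → Bool} (hxx : ∀ z, x z = true → x' z = true) {A A' : ℕ → ℕ → Prop}
    (hA : Cons d w N A x) (hA' : Cons d w N A' x') :
    ∀ e ≤ d, rk w A e ≤ rk w A' e ∧ (rk w A e = rk w A' e → Agr e w A A') := by
  classical
  intro e
  induction e with
  | zero =>
    intro _
    exact ⟨le_rfl, fun _ i hi => absurd hi (by omega)⟩
  | succ e ih =>
    intro he
    obtain ⟨h1, h2⟩ := ih (by omega)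
    have hc : ((Finset.range (w e)).filter (A e)).card ≤ w e := by
      refine (Finset.card_filter_le _ _).trans ?_
      rw [Finset.card_range]
    have hc' : ((Finset.range (w e)).filter (A' e)).card ≤ w e := by
      refine (Finset.card_filter_le _ _).trans ?_
      rw [Finset.card_range]
    rcases lt_or_eq_of_le h1 with hlt | heq
    · have h3 : rk w A (e + 1) < rk w A' (e + 1) := by
        rw [rk, rk]
        have : (rk w A e + 1) * (w e + 1) ≤ rk w A' e * (w e + 1) := Nat.mul_le_mul_right _ hlt
        nlinarith
      exact ⟨h3.le, fun h => absurd h h3.ne⟩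
    · have hag := h2 heq
      have hsub : (Finset.range (w e)).filter (A e) ⊆ (Finset.range (w e)).filter (A' e) := by
        intro k hk
        rw [Finset.mem_filter, Finset.mem_range] at hk ⊢
        refine ⟨hk.1, ?_⟩
        have h3 := (hA e (by omega) k hk.1).1 hk.2
        rw [hdep e k A A' hag] at h3
        exact (hA' e (by omega) k hk.1).2 ((N e k A').mono hxx h3)
      have hle := Finset.card_le_card hsub
      refine ⟨?_, ?_⟩
      · rw [rk, rk, heq]; omega
      · intro h
        rw [rk, rk, heq] at h
        have hcard : ((Finset.range (w e)).filter (A e)).card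
            = ((Finset.range (w e)).filter (A' e)).card := by omega
        have hset := Finset.eq_of_subset_of_card_le hsub hcard.ge
        intro i hi k hk
        rcases Nat.lt_succ_iff_lt_or_eq.1 hi with hi | rfl
        · exact hag i hi k hk
        · have : k ∈ (Finset.range (w i)).filter (A i) ↔ k ∈ (Finset.range (w i)).filter (A' i) := by
            rw [hset]
          rw [Finset.mem_filter, Finset.mem_filter, Finset.mem_range] at this
          simpa [hk] using this

/-- The input with the value `y` in block `j` and the blocks of `X` elsewhere. -/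
def setB {M : ℕ} (X : Fin M × Var → Bool) (j : Fin M) (y : Var → Bool) : Fin M × Var → Bool :=
  fun z => if z.1 = j then y z.2 else X z

/-- **Few NOT gates.**  If a computation in rounds decides the disjunction of `M` copies of `g` and
`∏ (w i + 1) ≤ M`, then a single monotone program of about the same size accepts where `g` holds and
rejects the given inputs. -/
theorem transfer {Ω : Type*} {M : ℕ} (g : (Var → Bool) → Prop) (neg : Ω → Var → Bool)
    (hneg : ∀ S, ¬ g (neg S)) (h0 : ¬ g (fun _ => false)) (d : ℕ) (w : ℕ → ℕ)
    (N : ℕ → ℕ → (ℕ → ℕ → Prop) → Net (Fin M × Var))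
    (hdep : ∀ i k A A', (∀ j < i, ∀ k' < w j, (A j k' ↔ A' j k')) → N i k A = N i k A') (s : ℕ)
    (hsize : ∀ A, (∑ i ∈ Finset.range d, ∑ k ∈ Finset.range (w i), (N i k A).size)
      + (N d 0 A).size ≤ s)
    (hdec : ∀ X : Fin M × Var → Bool, ∃ A : ℕ → ℕ → Prop, Cons d w N A X ∧
      ((N d 0 A).Accepts X ↔ ∃ j, g (fun v => X (j, v))))
    (hprod : ∏ i ∈ Finset.range d, (w i + 1) ≤ M) :
    ∃ (r : ℕ) (P : NBP Var r), r ≤ s + 2 ∧ (∀ x, g x → P.Accepts x) ∧
      ∀ S, ¬ P.Accepts (neg S) := by
  classical
  by_contra hcon
  -- greedy chain
  have chain : ∀ j ≤ M, ∃ (X : Fin M × Var → Bool) (A : ℕ → ℕ → Prop),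
      (∀ i : Fin M, j ≤ i.1 → ∀ v, X (i, v) = false) ∧ (∀ i : Fin M, ¬ g (fun v => X (i, v))) ∧
      Cons d w N A X ∧ j ≤ rk w A d := by
    intro j
    induction j with
    | zero =>
      intro _
      obtain ⟨A, hA, _⟩ := hdec (fun _ => false)
      exact ⟨fun _ => false, A, fun _ _ _ => rfl, fun _ => h0, hA, Nat.zero_le _⟩
    | succ j ih =>
      intro hj
      obtain ⟨X, A, hX1, hX2, hA, hrk⟩ := ih (by omega)
      obtain ⟨jj, hjj⟩ : ∃ jj : Fin M, jj.1 = j := ⟨⟨j, by omega⟩, rfl⟩
      have hXle : ∀ y : Var → Bool, ∀ z, X z = true → setB X jj y z = true := by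
        rintro y ⟨i, v⟩ hz
        unfold setB
        by_cases hi : i = jj
        · subst hi
          rw [hX1 i (by omega) v] at hz
          exact absurd hz (by simp)
        · simp only [hi, if_false]; exact hz
      have hblk : ∀ (y : Var → Bool) (i : Fin M), (fun v => setB X jj y (i, v))
          = if i = jj then y else fun v => X (i, v) := by
        intro y i
        funext v
        unfold setB
        by_cases hi : i = jj
        · simp [hi]
        · simp [hi]
      by_cases hall : ∀ S, ∀ A', Cons d w N A' (setB X jj (neg S)) → Agr d w A A'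
      · exfalso
        apply hcon
        -- the programs
        set I := (Finset.range d).sigma (fun i => Finset.range (w i)) with hI
        set F : Option {p : Σ _ : ℕ, ℕ // p ∈ I} → Net Var := fun o => match o with
          | none => (N d 0 A).pull (fun z => if z.1 = jj then Sum.inr z.2 else Sum.inl (X z))
          | some p => (N p.1.1 p.1.2 A).pull
              (fun z => if z.1 = jj then Sum.inr z.2 else Sum.inl (X z)) with hF
        set U : Option {p : Σ _ : ℕ, ℕ // p ∈ I} → Prop := fun o => match o with
          | none => True
          | some p => ¬ A p.1.1 p.1.2 with hU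
        have hval : ∀ x : Var → Bool, (fun z : Fin M × Var => Sum.elim id x
            (if z.1 = jj then Sum.inr z.2 else Sum.inl (X z))) = setB X jj x := by
          intro x
          funext z
          unfold setB
          by_cases hz : z.1 = jj
          · simp [hz]
          · simp [hz]
        have hFn : ∀ x, (F none).Accepts x ↔ (N d 0 A).Accepts (setB X jj x) := by
          intro x
          rw [hF]
          simp only
          rw [Net.pull_accepts, hval]
        have hFs : ∀ p x, (F (some p)).Accepts x ↔ (N p.1.1 p.1.2 A).Accepts (setB X jj x) := by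
          intro p x
          rw [hF]
          simp only
          rw [Net.pull_accepts, hval]
        obtain ⟨P, hP⟩ := exists_or F U
        refine ⟨_, P, ?_, ?_, ?_⟩
        · have hsum : ∑ o, (F o).size ≤ s := by
            rw [Fintype.sum_option]
            have h1 : ∑ p : {p : Σ _ : ℕ, ℕ // p ∈ I}, (F (some p)).size
                = ∑ i ∈ Finset.range d, ∑ k ∈ Finset.range (w i), (N i k A).size := by
              rw [← Finset.sum_sigma (Finset.range d) (fun i => Finset.range (w i))
                (fun p => (N p.1 p.2 A).size)]
              rw [← hI]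
              exact Finset.sum_coe_sort I (fun p => (N p.1 p.2 A).size)
            have h2 : (F none).size = (N d 0 A).size := rfl
            rw [h1, h2, add_comm]
            exact hsize A
          omega
        · intro x hx
          rw [hP]
          by_contra hno
          have hno1 : ¬ (N d 0 A).Accepts (setB X jj x) := by
            intro h
            exact hno ⟨none, trivial, (hFn x).2 h⟩
          have hno2 : ∀ i < d, ∀ k < w i, ¬ A i k → ¬ (N i k A).Accepts (setB X jj x) := by
            intro i hi k hk hAik h
            refine hno ⟨some ⟨⟨i, k⟩, ?_⟩, hAik, (hFs _ x).2 h⟩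
            rw [hI, Finset.mem_sigma, Finset.mem_range, Finset.mem_range]
            exact ⟨hi, hk⟩
          obtain ⟨A', hA', hfin⟩ := hdec (setB X jj x)
          have hagr : ∀ e ≤ d, Agr e w A A' := by
            intro e
            induction e with
            | zero => intro _ i hi; exact absurd hi (by omega)
            | succ e ihe =>
              intro he i hi k hk
              have ih' := ihe (by omega)
              rcases Nat.lt_succ_iff_lt_or_eq.1 hi with hi | rfl
              · exact ih' i hi k hk
              · have heqN := hdep i k A A' ih'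
                constructor
                · intro h
                  have h3 := (hA i (by omega) k hk).1 h
                  have h4 := (N i k A).mono (hXle x) h3
                  rw [heqN] at h4
                  exact (hA' i (by omega) k hk).2 h4
                · intro h
                  by_contra hn
                  have h3 := (hA' i (by omega) k hk).1 h
                  rw [← heqN] at h3
                  exact hno2 i (by omega) k hk hn h3
          have h5 : (N d 0 A').Accepts (setB X jj x) := by
            rw [hfin]
            refine ⟨jj, ?_⟩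
            rw [hblk, if_pos rfl]
            exact hx
          rw [← hdep d 0 A A' (hagr d le_rfl)] at h5
          exact hno1 h5
        · intro S hacc
          rw [hP] at hacc
          obtain ⟨A', hA', hfin⟩ := hdec (setB X jj (neg S))
          have hag := hall S A' hA'
          have hfalse : ¬ ∃ j', g (fun v => setB X jj (neg S) (j', v)) := by
            rintro ⟨j', hj'⟩
            rw [hblk] at hj'
            by_cases hjj' : j' = jj
            · rw [if_pos hjj'] at hj'; exact hneg S hj'
            · rw [if_neg hjj'] at hj'; exact hX2 j' hj'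
          obtain ⟨o, ho1, ho2⟩ := hacc
          rcases o with _ | p
          · rw [hFn, hdep d 0 A A' hag, hfin] at ho2
            exact hfalse ho2
          · have hp : p.1.1 < d ∧ p.1.2 < w p.1.1 := by
              obtain ⟨h1, h2⟩ := Finset.mem_sigma.1 p.2
              exact ⟨Finset.mem_range.1 h1, Finset.mem_range.1 h2⟩
            have ho1' : ¬ A p.1.1 p.1.2 := ho1
            rw [hFs] at ho2
            have heqN := hdep p.1.1 p.1.2 A A' (fun j' hj' k' hk' => hag j' (by omega) k' hk')
            rw [heqN] at ho2
            exact ho1' ((hag p.1.1 hp.1 p.1.2 hp.2).2 ((hA' p.1.1 hp.1 p.1.2 hp.2).2 ho2))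
      · have hex : ∃ S A', Cons d w N A' (setB X jj (neg S)) ∧ ¬ Agr d w A A' := by
          by_contra hno
          apply hall
          intro S A' hA'
          by_contra hn
          exact hno ⟨S, A', hA', hn⟩
        obtain ⟨S, A', hA', hn⟩ := hex
        obtain ⟨h1, h2⟩ := rk_mono hdep (hXle (neg S)) hA hA' d le_rfl
        refine ⟨setB X jj (neg S), A', ?_, ?_, hA', ?_⟩
        · intro i hi v
          unfold setB
          have : i ≠ jj := by
            intro h
            rw [h, hjj] at hi
            omega
          simp only [this, if_false]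
          exact hX1 i (by omega) v
        · intro i
          rw [hblk]
          by_cases hi : i = jj
          · rw [if_pos hi]; exact hneg S
          · rw [if_neg hi]; exact hX2 i
        · rcases lt_or_eq_of_le h1 with hlt | heq
          · omega
          · exact absurd (h2 heq) hn
  obtain ⟨X, A, _, _, _, hrk⟩ := chain M le_rfl
  have := rk_lt w A d
  omega

end Rounds

end Pool.Agent.H589R2.MNL
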