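import Pool.Agent.H589R2.MNL.Rounds

/-!
# Computations in rounds
-/

namespace Pool.Agent.H589R2.MNL

/-- A computation in rounds over the Boolean variables `Var`.  In round `i < d` it evaluates the
`w i` monotone nondeterministic branching programs `N i 0 A, …, N i (w i - 1) A` on the input; the
table `A` of answers of the earlier rounds determines the programs of the next round.  The last
program `N d 0 A` gives the result. -/
structure Rounds (Var : Type*) where
  /-- the number of rounds of queries -/
  d : ℕ
  /-- the number of queries of each round -/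
  w : ℕ → ℕ
  /-- the programs -/
  N : ℕ → ℕ → (ℕ → ℕ → Prop) → Net Var
  /-- the programs of round `i` depend on the answers of the earlier rounds only -/
  dep : ∀ i k A A', (∀ j < i, ∀ k' < w j, (A j k' ↔ A' j k')) → N i k A = N i k A'

/-- `A` is the table of the answers on the input `x`. -/
def Rounds.Answers {Var : Type*} (R : Rounds Var) (A : ℕ → ℕ → Prop) (x : Var → Bool) : Prop :=
  ∀ i < R.d, ∀ k < R.w i, (A i k ↔ (R.N i k A).Accepts x)

/-- Acceptance: the last program accepts. -/
def Rounds.Accepts {Var : Type*} (R : Rounds Var) (x : Var → Bool) : Prop :=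
  ∃ A, R.Answers A x ∧ (R.N R.d 0 A).Accepts x

/-- The total number of states of the programs used when the answers are `A`. -/
def Rounds.size {Var : Type*} (R : Rounds Var) (A : ℕ → ℕ → Prop) : ℕ :=
  (∑ i ∈ Finset.range R.d, ∑ k ∈ Finset.range (R.w i), (R.N i k A).size) + (R.N R.d 0 A).size

theorem Rounds.exists_answers {Var : Type*} (R : Rounds Var) (x : Var → Bool) :
    ∃ A, R.Answers A x := by
  have key : ∀ e, ∃ A : ℕ → ℕ → Prop, ∀ i < e, ∀ k < R.w i, (A i k ↔ (R.N i k A).Accepts x) := by
    intro e
    induction e with
    | zero => exact ⟨fun _ _ => False, fun i hi => absurd hi (by omega)⟩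
    | succ e ih =>
      obtain ⟨A, hA⟩ := ih
      refine ⟨fun i k => if i = e then (R.N e k A).Accepts x else A i k, fun i hi k hk => ?_⟩
      have hN : R.N i k (fun i k => if i = e then (R.N e k A).Accepts x else A i k)
          = R.N i k A := by
        apply R.dep
        intro j hj k' _
        have : j ≠ e := by omega
        simp only [this, if_false]
      rw [hN]
      by_cases h : i = e
      · subst h
        simp only [if_true]
      · simp only [h, if_false]
        exact hA i (by omega) k hk
  exact key R.d

theorem Rounds.agr {Var : Type*} (R : Rounds Var) {A A' : ℕ → ℕ → Prop} {x : Var → Bool}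
    (hA : R.Answers A x) (hA' : R.Answers A' x) :
    ∀ e ≤ R.d, ∀ i < e, ∀ k < R.w i, (A i k ↔ A' i k) := by
  intro e
  induction e with
  | zero => intro _ i hi; exact absurd hi (by omega)
  | succ e ih =>
    intro he i hi k hk
    by_cases h : i = e
    · subst h
      rw [hA i (by omega) k hk, hA' i (by omega) k hk, R.dep i k A A' (ih (by omega))]
    · exact ih (by omega) i (by omega) k hk

theorem Rounds.accepts_iff {Var : Type*} (R : Rounds Var) {A : ℕ → ℕ → Prop} {x : Var → Bool}
    (hA : R.Answers A x) : R.Accepts x ↔ (R.N R.d 0 A).Accepts x := by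
  constructor
  · rintro ⟨A', hA', h⟩
    rwa [R.dep R.d 0 A A' (R.agr hA hA' R.d le_rfl)]
  · intro h
    exact ⟨A, hA, h⟩

end Pool.Agent.H589R2.MNL
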